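import Pool.Agent.WLK.St

/-!
# WLK, Cnd: the numerical condition
-/

set_option autoImplicit false

namespace Pool.Agent.WLK

open Finset

theorem thm_Cnd : St_Cnd := by
  intro k m p K hm hK H l x hpl hlL hx
  by_contra hno
  have hk : k < (x + 1) * K := not_le.1 hno
  obtain ⟨L, hL⟩ : ∃ L, L = Nat.log 2 m := ⟨_, rfl⟩
  rw [← hL] at H hlL
  -- the first consequence
  have h1 : 2 * K * (L + 1) < k := by
    have h2 : (2 * K * (L + 1)) ^ (p + 1) < k ^ (p + 1) :=
      lt_of_le_of_lt (Nat.le_mul_of_pos_right _ hm) H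
    exact lt_of_pow_lt_pow_left₀ _ (Nat.zero_le _) h2
  have h2 : 2 * (L + 1) < x + 1 := by
    have h3 : 2 * (L + 1) * K < (x + 1) * K := by
      calc 2 * (L + 1) * K = 2 * K * (L + 1) := by ring
        _ < k := h1
        _ < (x + 1) * K := hk
    exact lt_of_mul_lt_mul_right h3 (Nat.zero_le _)
  have h3 : k < 2 * K * (x + 1 - l) := by
    have h4 : x + 1 ≤ 2 * (x + 1 - l) := by omega
    calc k < (x + 1) * K := hk
      _ ≤ 2 * (x + 1 - l) * K := Nat.mul_le_mul_right _ h4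
      _ = 2 * K * (x + 1 - l) := by ring
  have hl0 : l ≠ 0 := by omega
  have h4 : k ^ l < (2 * K) ^ l * (x + 1 - l) ^ l := by
    rw [← mul_pow]
    exact Nat.pow_lt_pow_left h3 hl0
  have h5 : (x + 1 - l) ^ l ≤ L ^ l * m := by
    calc (x + 1 - l) ^ l ≤ x.descFactorial l := Nat.pow_sub_le_descFactorial x l
      _ = l.factorial * x.choose l := Nat.descFactorial_eq_factorial_mul_choose x l
      _ ≤ L ^ l * m := Nat.mul_le_mul ((Nat.factorial_le_pow l).trans (Nat.pow_le_pow_left hlL l)) hx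
  have h6 : k ^ l < (2 * K * L) ^ l * m := by
    calc k ^ l < (2 * K) ^ l * (x + 1 - l) ^ l := h4
      _ ≤ (2 * K) ^ l * (L ^ l * m) := Nat.mul_le_mul_left _ h5
      _ = (2 * K * L) ^ l * m := by rw [mul_pow (2 * K) L]; ring
  have h7 : (2 * K * L) ^ l * m ≤ k ^ l := by
    have e1 : l = (p + 1) + (l - (p + 1)) := by omega
    calc (2 * K * L) ^ l * m ≤ (2 * K * (L + 1)) ^ l * m :=
          Nat.mul_le_mul_right _ (Nat.pow_le_pow_left (Nat.mul_le_mul_left _ (Nat.le_succ L)) l)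
      _ = (2 * K * (L + 1)) ^ ((p + 1) + (l - (p + 1))) * m := by rw [← e1]
      _ = ((2 * K * (L + 1)) ^ (p + 1) * m) * (2 * K * (L + 1)) ^ (l - (p + 1)) := by
          rw [pow_add]; ring
      _ ≤ k ^ (p + 1) * k ^ (l - (p + 1)) :=
          Nat.mul_le_mul H.le (Nat.pow_le_pow_left h1.le _)
      _ = k ^ l := by rw [← pow_add, ← e1]
  omega

end Pool.Agent.WLK
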