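import Pool.Agent.WLK.St

/-!
# WLK, module CRU: a crude lower bound for Wilf's number (proved by helper27)
-/

set_option autoImplicit false

namespace Pool.Agent.WLK

open Finset

theorem thm_Cru (hIdn : St_Idn) (hDbl : St_Dbl) (hRes : St_Res) : St_Cru := by
  intro k m M a T hT
  obtain ⟨_, hr, _, _, hff, _, hkm⟩ := hRes k m M a T hT
  have hm : (0 : ℝ) < m := by exact_mod_cast (by omega : 0 < m)
  have hid := hIdn k m M a T hT
  -- the double count
  have hnu : ∑ x ∈ T, (nu T x : ℝ) = ∑ y ∈ T, (sp y : ℝ) := by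
    have h := hDbl k T (fun _ _ => (1 : ℝ)) hT.down
    simpa [nu, sp] using h
  have hJ : ∑ x ∈ JJ T, (nu T x : ℝ) = ∑ y ∈ T, (sp y : ℝ) := by
    rw [← hnu]
    refine Finset.sum_subset (Finset.filter_subset _ _) ?_
    intro x hx hx'
    have : ¬ 0 < nu T x := fun h => hx' (Finset.mem_filter.2 ⟨hx, h⟩)
    have h0 : nu T x = 0 := by omega
    rw [h0]; simp
  have hnk : ∀ x, nu T x ≤ k := by
    intro x
    have h := Finset.card_le_univ (up T x)
    simpa [nu] using h
  -- lower bound of the terms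
  have key : ∑ x ∈ JJ T, ((k : ℝ) - 2 * nu T x) * m ≤ m * wil k m M a T := by
    rw [hid]
    have hsub : JJ T ⊆ T := Finset.filter_subset _ _
    have hlast : ∀ x ∈ T, 0 ≤ ∑ i ∈ (up T x)ᶜ, (x i : ℝ) * ((M : ℝ) - sw a x) := by
      intro x hx
      refine Finset.sum_nonneg ?_
      intro i _
      have hle : (sw a x : ℝ) ≤ M := by exact_mod_cast hT.le x hx
      exact mul_nonneg (Nat.cast_nonneg _) (by linarith)
    refine le_trans (Finset.sum_le_sum (g := fun x => ((k : ℝ) - nu T x) * (m * ff m M a x) -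
      ((nu T x : ℝ) - 1) * rr m M a x + ∑ i ∈ (up T x)ᶜ, (x i : ℝ) * ((M : ℝ) - sw a x)) ?_)
      (Finset.sum_le_sum_of_subset_of_nonneg hsub ?_)
    · intro x hx
      have hxT : x ∈ T := hsub hx
      have hpos : 0 < nu T x := (Finset.mem_filter.1 hx).2
      have h1 : (1 : ℝ) ≤ nu T x := by exact_mod_cast hpos
      have h2 : (nu T x : ℝ) ≤ k := by exact_mod_cast hnk x
      have h3 : (1 : ℝ) ≤ ff m M a x := by exact_mod_cast hff x hxT hpos
      have h4 : (rr m M a x : ℝ) ≤ m := by exact_mod_cast (hr x).le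
      have h5 : ((nu T x : ℝ) - 1) * rr m M a x ≤ ((nu T x : ℝ) - 1) * m :=
        mul_le_mul_of_nonneg_left h4 (by linarith)
      have h6 : (m : ℝ) * 1 ≤ m * ff m M a x := mul_le_mul_of_nonneg_left h3 hm.le
      have h7 : ((k : ℝ) - nu T x) * (m * 1) ≤ ((k : ℝ) - nu T x) * (m * ff m M a x) :=
        mul_le_mul_of_nonneg_left h6 (by linarith)
      have h8 := hlast x hxT
      nlinarith
    · intro x hxT hx
      have h0 : nu T x = 0 := by
        by_contra hne
        exact hx (Finset.mem_filter.2 ⟨hxT, Nat.pos_of_ne_zero hne⟩)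
      have h8 := hlast x hxT
      rw [h0]
      have h9 : (0 : ℝ) ≤ (k : ℝ) * (m * ff m M a x) := by positivity
      have h10 : (0 : ℝ) ≤ rr m M a x := Nat.cast_nonneg _
      push_cast
      linarith
  have hsum : ∑ x ∈ JJ T, ((k : ℝ) - 2 * nu T x) * m =
      m * (k * ((JJ T).card : ℝ) - 2 * ∑ y ∈ T, (sp y : ℝ)) := by
    rw [← hJ, ← Finset.sum_mul, Finset.sum_sub_distrib, Finset.sum_const, nsmul_eq_mul,
      ← Finset.mul_sum]
    ring
  rw [hsum] at key
  exact le_of_mul_le_mul_left key hm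

end Pool.Agent.WLK
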