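import Pool.Agent.WLK.St

/-!
# WLK, Dbl: the bijection
-/

set_option autoImplicit false

namespace Pool.Agent.WLK

open Finset

theorem thm_Dbl : St_Dbl := by
  intro k T g hT
  rw [Finset.sum_sigma', Finset.sum_sigma']
  refine Finset.sum_bij' (fun p _ => ⟨p.1 + Pi.single p.2 1, p.2⟩)
    (fun q _ => ⟨q.1 - Pi.single q.2 1, q.2⟩) ?_ ?_ ?_ ?_ ?_
  · rintro ⟨x, i⟩ h
    obtain ⟨h1, h2⟩ := mem_sigma.1 h
    refine mem_sigma.2 ⟨(mem_filter.1 h2).2, mem_filter.2 ⟨mem_univ _, ?_⟩⟩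
    show (x + Pi.single i 1 : Fin k → ℕ) i ≠ 0
    rw [Pi.add_apply, Pi.single_eq_same]
    omega
  · rintro ⟨y, i⟩ h
    obtain ⟨h1, h2⟩ := mem_sigma.1 h
    have h3 : y i ≠ 0 := (mem_filter.1 h2).2
    have h4 : y - Pi.single i 1 + Pi.single i 1 = y := by
      funext t
      rw [Pi.add_apply, Pi.sub_apply]
      by_cases ht : t = i
      · subst ht
        rw [Pi.single_eq_same]
        omega
      · rw [Pi.single_eq_of_ne ht, Nat.sub_zero, Nat.add_zero]
    refine mem_sigma.2 ⟨hT y h1 _ fun t => Nat.sub_le _ _, mem_filter.2 ⟨mem_univ _, ?_⟩⟩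
    show y - Pi.single i 1 + Pi.single i 1 ∈ T
    rw [h4]
    exact h1
  · rintro ⟨x, i⟩ h
    show (⟨x + Pi.single i 1 - Pi.single i 1, i⟩ : Σ _ : Fin k → ℕ, Fin k) = ⟨x, i⟩
    have h4 : x + Pi.single i 1 - Pi.single i 1 = x := by
      funext t
      rw [Pi.sub_apply, Pi.add_apply]
      exact Nat.add_sub_cancel _ _
    rw [h4]
  · rintro ⟨y, i⟩ h
    obtain ⟨h1, h2⟩ := mem_sigma.1 h
    have h3 : y i ≠ 0 := (mem_filter.1 h2).2
    have h4 : y - Pi.single i 1 + Pi.single i 1 = y := by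
      funext t
      rw [Pi.add_apply, Pi.sub_apply]
      by_cases ht : t = i
      · subst ht
        rw [Pi.single_eq_same]
        omega
      · rw [Pi.single_eq_of_ne ht, Nat.sub_zero, Nat.add_zero]
    show (⟨y - Pi.single i 1 + Pi.single i 1, i⟩ : Σ _ : Fin k → ℕ, Fin k) = ⟨y, i⟩
    rw [h4]
  · rintro ⟨x, i⟩ h
    show g i x = g i (x + Pi.single i 1 - Pi.single i 1)
    have h4 : x + Pi.single i 1 - Pi.single i 1 = x := by
      funext t
      rw [Pi.sub_apply, Pi.add_apply]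
      exact Nat.add_sub_cancel _ _
    rw [h4]

end Pool.Agent.WLK
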