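import Pool.Agent.WLK.St

/-!
# WLK.Err (helper19): the error terms if Wilf's number is not positive
-/

set_option autoImplicit false

namespace Pool.Agent.WLK

open Finset

/-- the size of the support of a squarefree element is its degree -/
private theorem Err_sp {k : ℕ} (y : Fin k → ℕ) (hy : ∀ i, y i ≤ 1) : sp y = ∑ i, y i := by
  rw [sp, su, card_filter]
  refine sum_congr rfl fun i _ => ?_
  have := hy i
  split_ifs with h
  · omega
  · omega

/-- the sum over a subset as a sum with an indicator -/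
private theorem Err_ind {α : Type*} [DecidableEq α] (T S : Finset α) (h : S ⊆ T) (f : α → ℝ) :
    ∑ y ∈ T, (if y ∈ S then f y else 0) = ∑ y ∈ S, f y := by
  rw [sum_ite_mem, inter_eq_right.mpr h]

theorem thm_Err (hCru : St_Cru) (hSup : St_Sup) (hNsf : St_Nsf) (hHiL : St_HiL) (hRbd : St_Rbd)
    (hDbl : St_Dbl) (hRes : St_Res) : St_Err := by
  intro k m M a T hT hw p K hp hK hx J N₁ Lo B L hJ hN hLo hB hL
  have hD : Dn T := hT.down
  obtain ⟨-, -, -, -, r5, -, -⟩ := hRes k m M a T hT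
  have hsp : ∀ y ∈ T, (sp y : ℝ) ≤ L := by
    intro y hy
    rw [hL, ← hT.card]
    exact_mod_cast (hSup k T hD y hy).2
  have hL0 : 0 ≤ L := by rw [hL]; positivity
  have hp0 : (2 : ℝ) ≤ p := by exact_mod_cast hp
  have sJ : JJ T ⊆ T := filter_subset _ _
  have sN : Ns T ⊆ T := filter_subset _ _
  have sL : Lw T p ⊆ T := filter_subset _ _
  have sT : Tl T p ⊆ T := filter_subset _ _
  have sH : Hg T p ⊆ T := filter_subset _ _
  have hcard : (T.card : ℝ) = m := by rw [hT.card]
  have hN0 : 0 ≤ N₁ := by rw [hN]; positivity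
  have hJ0 : 0 ≤ J := by rw [hJ]; positivity
  have hLo0 : 0 ≤ Lo := by rw [hLo]; positivity
  have hB0 : 0 ≤ B := by rw [hB]; exact sum_nonneg fun _ _ => by positivity
  set Λ : ℝ := ∑ y ∈ T, (sp y : ℝ) with hΛ
  -- the cases
  have hcase : ∀ y ∈ T, y ∈ Ns T ∨ (y ∈ Lw T p ∧ sp y < p) ∨ (y ∈ Tl T p ∧ sp y = p) ∨
      (y ∈ Hg T p ∧ p < sp y) := by
    intro y hy
    by_cases h : ∀ i, y i ≤ 1
    · right
      have hs := Err_sp y h
      rcases lt_trichotomy (∑ i, y i) p with h1 | h1 | h1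
      · left
        exact ⟨mem_filter.mpr ⟨hy, h, h1⟩, by omega⟩
      · right; left
        exact ⟨mem_filter.mpr ⟨hy, h, h1⟩, by omega⟩
      · right; right
        exact ⟨mem_filter.mpr ⟨hy, h, h1⟩, by omega⟩
    · left
      exact mem_filter.mpr ⟨hy, h⟩
  have cJ : k * J ≤ 2 * Λ := by
    have := hCru k m M a T hT
    rw [← hJ] at this
    linarith
  have cΛ : Λ ≤ L * m := by
    calc Λ ≤ ∑ y ∈ T, L := sum_le_sum hsp
      _ = L * m := by rw [sum_const, nsmul_eq_mul, hcard]; ring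
  have c2 : N₁ ≤ L * J := by
    have h1 : N₁ ≤ ∑ x ∈ JJ T, (sp x : ℝ) := by
      rw [hN]
      exact_mod_cast hNsf k T hD
    calc N₁ ≤ ∑ x ∈ JJ T, (sp x : ℝ) := h1
      _ ≤ ∑ x ∈ JJ T, L := sum_le_sum fun x hx' => hsp x (sJ hx')
      _ = L * J := by rw [sum_const, nsmul_eq_mul, ← hJ]; ring
  have cΛ2 : Λ ≤ p * m + B + L * N₁ := by
    have h1 : Λ ≤ ∑ y ∈ T, ((p : ℝ) + (if y ∈ Hg T p then (sp y : ℝ) else 0) +
        (if y ∈ Ns T then L else 0)) := by
      refine sum_le_sum fun y hy => ?_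
      have e1 : (0 : ℝ) ≤ (if y ∈ Hg T p then (sp y : ℝ) else 0) := by
        split_ifs
        · positivity
        · exact le_rfl
      have e2 : (0 : ℝ) ≤ (if y ∈ Ns T then L else 0) := by
        split_ifs
        · exact hL0
        · exact le_rfl
      rcases hcase y hy with h | ⟨h, h'⟩ | ⟨h, h'⟩ | ⟨h, h'⟩
      · rw [if_pos h]
        linarith [hsp y hy]
      · have : (sp y : ℝ) ≤ p := by exact_mod_cast h'.le
        linarith
      · have : (sp y : ℝ) ≤ p := by exact_mod_cast h'.le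
        linarith
      · rw [if_pos h]
        linarith
    rw [sum_add_distrib, sum_add_distrib, Err_ind T _ sH, Err_ind T _ sN, ← hB, sum_const,
      sum_const, nsmul_eq_mul, nsmul_eq_mul, hcard, ← hN] at h1
    linarith
  have c4 : K * B ≤ k * J := by
    have h1 := hHiL k T hD p K (by rw [hT.card]; exact hx)
    have h2 : ((K * ∑ y ∈ Hg T p, sp y : ℕ) : ℝ) ≤ ((k * (JJ T).card : ℕ) : ℝ) := by
      exact_mod_cast h1
    push_cast at h2
    rw [← hB, ← hJ] at h2
    exact h2
  have cQ : ∑ y ∈ Qs T p, ((sp y : ℝ) + p) ≤ (L + p) * N₁ + 2 * p * Lo + 2 * B + 2 * p * J := by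
    have g0 : ∀ y, (0 : ℝ) ≤ (if y ∈ Ns T then L + p else 0) := by
      intro y
      split_ifs
      · positivity
      · exact le_rfl
    have g1 : ∀ y, (0 : ℝ) ≤ (if y ∈ Lw T p then 2 * (p : ℝ) else 0) := by
      intro y
      split_ifs
      · positivity
      · exact le_rfl
    have g2 : ∀ y, (0 : ℝ) ≤ (if y ∈ Hg T p then 2 * (sp y : ℝ) else 0) := by
      intro y
      split_ifs
      · positivity
      · exact le_rfl
    have g3 : ∀ y, (0 : ℝ) ≤ (if y ∈ JJ T then 2 * (p : ℝ) else 0) := by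
      intro y
      split_ifs
      · positivity
      · exact le_rfl
    calc ∑ y ∈ Qs T p, ((sp y : ℝ) + p)
        ≤ ∑ y ∈ Qs T p, ((if y ∈ Ns T then L + p else 0) + (if y ∈ Lw T p then 2 * (p : ℝ) else 0) +
          (if y ∈ Hg T p then 2 * (sp y : ℝ) else 0) + (if y ∈ JJ T then 2 * (p : ℝ) else 0)) := by
          refine sum_le_sum fun y hy => ?_
          obtain ⟨hyT, hyQ⟩ := mem_filter.mp hy
          rcases hcase y hyT with h | ⟨h, h'⟩ | ⟨h, h'⟩ | ⟨h, h'⟩
          · rw [if_pos h]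
            linarith [hsp y hyT, g1 y, g2 y, g3 y]
          · have : (sp y : ℝ) ≤ p := by exact_mod_cast h'.le
            rw [if_pos h]
            linarith [g0 y, g2 y, g3 y]
          · have hn : y ∈ JJ T := by
              refine mem_filter.mpr ⟨hyT, ?_⟩
              obtain ⟨-, q1, q2⟩ := mem_filter.mp h
              by_contra hc
              exact hyQ ⟨q1, q2, by omega⟩
            have h'' : (sp y : ℝ) = p := by exact_mod_cast h'
            rw [if_pos hn]
            linarith [g0 y, g1 y, g2 y]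
          · have : (p : ℝ) ≤ sp y := by exact_mod_cast h'.le
            rw [if_pos h]
            linarith [g0 y, g1 y, g3 y]
      _ ≤ ∑ y ∈ T, ((if y ∈ Ns T then L + p else 0) + (if y ∈ Lw T p then 2 * (p : ℝ) else 0) +
          (if y ∈ Hg T p then 2 * (sp y : ℝ) else 0) + (if y ∈ JJ T then 2 * (p : ℝ) else 0)) := by
          refine sum_le_sum_of_subset_of_nonneg (filter_subset _ _) fun y _ _ => ?_
          linarith [g0 y, g1 y, g2 y, g3 y]
      _ = (L + p) * N₁ + 2 * p * Lo + 2 * B + 2 * p * J := by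
          rw [sum_add_distrib, sum_add_distrib, sum_add_distrib, Err_ind T _ sN, Err_ind T _ sL,
            Err_ind T _ sH, Err_ind T _ sJ, sum_const, sum_const, sum_const, nsmul_eq_mul,
            nsmul_eq_mul, nsmul_eq_mul, ← mul_sum, ← hB, ← hN, ← hLo, ← hJ]
          ring
  have c5 : ∑ x ∈ T, ((k : ℝ) - nu T x) * ff m M a x ≤
      ((p : ℝ) / 2 - 1) * m + p + 2 * B + (L + p) * N₁ + 2 * p * Lo + 2 * p * J := by
    have := hRbd k m M a T hT p hp
    linarith
  have hnu : ∀ x, (nu T x : ℝ) ≤ k := by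
    intro x
    have : nu T x ≤ k := by
      rw [nu, up]
      exact (card_filter_le _ _).trans (by rw [card_univ, Fintype.card_fin])
    exact_mod_cast this
  have cν : ∑ x ∈ T, (nu T x : ℝ) = Λ := by
    have h1 := hDbl k T (fun _ _ => 1) hD
    simp only [sum_const, nsmul_eq_mul, mul_one] at h1
    exact h1
  have c6 : k * J ≤ ∑ x ∈ T, ((k : ℝ) - nu T x) * ff m M a x + Λ := by
    calc k * J = ∑ x ∈ JJ T, (k : ℝ) := by rw [sum_const, nsmul_eq_mul, ← hJ]; ring
      _ ≤ ∑ x ∈ JJ T, (((k : ℝ) - nu T x) * ff m M a x + nu T x) := by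
          refine sum_le_sum fun x hx' => ?_
          obtain ⟨q1, q2⟩ := mem_filter.mp hx'
          have q3 : (1 : ℝ) ≤ ff m M a x := by exact_mod_cast r5 x q1 q2
          nlinarith [hnu x]
      _ ≤ ∑ x ∈ T, (((k : ℝ) - nu T x) * ff m M a x + nu T x) := by
          refine sum_le_sum_of_subset_of_nonneg sJ fun x _ _ => ?_
          have q1 := mul_nonneg (sub_nonneg.mpr (hnu x)) (Nat.cast_nonneg (α := ℝ) (ff m M a x))
          have q2 : (0 : ℝ) ≤ nu T x := by positivity
          linarith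
      _ = ∑ x ∈ T, ((k : ℝ) - nu T x) * ff m M a x + Λ := by rw [sum_add_distrib, cν]
  have c7 : (m : ℝ) ≤ Lo + (Tl T p).card + B + N₁ := by
    have h1 : (m : ℝ) ≤ ∑ y ∈ T, ((if y ∈ Lw T p then (1 : ℝ) else 0) +
        (if y ∈ Tl T p then (1 : ℝ) else 0) + (if y ∈ Hg T p then (sp y : ℝ) else 0) +
        (if y ∈ Ns T then (1 : ℝ) else 0)) := by
      rw [← hcard, ← nsmul_one, ← sum_const]
      refine sum_le_sum fun y hy => ?_
      have e0 : (0 : ℝ) ≤ (if y ∈ Lw T p then (1 : ℝ) else 0) := by split_ifs <;> norm_num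
      have e1 : (0 : ℝ) ≤ (if y ∈ Tl T p then (1 : ℝ) else 0) := by split_ifs <;> norm_num
      have e2 : (0 : ℝ) ≤ (if y ∈ Hg T p then (sp y : ℝ) else 0) := by
        split_ifs
        · positivity
        · exact le_rfl
      have e3 : (0 : ℝ) ≤ (if y ∈ Ns T then (1 : ℝ) else 0) := by split_ifs <;> norm_num
      rcases hcase y hy with h | ⟨h, h'⟩ | ⟨h, h'⟩ | ⟨h, h'⟩
      · rw [if_pos h]
        linarith
      · rw [if_pos h]
        linarith
      · rw [if_pos h]
        linarith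
      · rw [if_pos h]
        have : (1 : ℝ) ≤ sp y := by
          have : 1 ≤ sp y := by omega
          exact_mod_cast this
        linarith
    rw [sum_add_distrib, sum_add_distrib, sum_add_distrib, Err_ind T _ sN, Err_ind T _ sL,
      Err_ind T _ sH, Err_ind T _ sT, sum_const, sum_const, sum_const, nsmul_eq_mul, nsmul_eq_mul,
      nsmul_eq_mul, ← hB, ← hN, ← hLo] at h1
    linarith
  refine ⟨by linarith, c2, by linarith, by linarith, c5, by linarith, c7⟩

end Pool.Agent.WLK
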