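import Pool.Agent.WLK.St
import Pool.Agent.WLG.Few

/-!
# WLK Fin: the theorem for large multiplicity
-/

set_option autoImplicit false

namespace Pool.Agent.WLK

open Finset Pool.Agent.Helper60.Wilf Pool.Agent.Helper82.Wilf

theorem thm_Fin (hLim : St_Lim) (hPro : St_Pro) (hTwo : St_Two) (hSem : St_Sem) : St_Fin := by
  intro ε hε
  by_cases h : ε ≤ 1 / 2
  · obtain ⟨η, hη0, hη1, H⟩ := hLim ε hε h
    obtain ⟨N₂, hN₂⟩ := hTwo
    have hP : ∀ p : ℕ, ∃ N : ℕ, 2 ≤ p → ∀ (k m M : ℕ) (a : Fin k → ℕ) (T : Finset (Fin k → ℕ)),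
        Ty m M a T →
        N * (Nat.log 2 m + 1) ^ 3 ≤ k → (N * (Nat.log 2 m + 1)) ^ (p + 1) * m < k ^ (p + 1) →
        ((1 + η) * (3 / 2 - 1 / (p : ℝ))) ^ p * ((Nat.factorial p : ℝ) * m) ≤ (k : ℝ) ^ p →
        (k : ℝ) ^ (p - 1) ≤ (1 - η) * ((Nat.factorial (p - 1) : ℝ) * m) → 0 < wil k m M a T := by
      intro p
      by_cases hp : 2 ≤ p
      · obtain ⟨N, hN⟩ := hPro p η hp hη0 hη1
        exact ⟨N, fun _ => hN⟩
      · exact ⟨0, fun h => absurd h hp⟩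
    choose N₁ hN₁ using hP
    obtain ⟨m₀, hm₀⟩ := H N₂ N₁
    refine ⟨m₀, fun S c m A hS hA hc hne hm hd hw => ?_⟩
    have hA1 : 0 < A.card := card_pos.2 ⟨m, (hA m).2 hS.prim_m⟩
    obtain ⟨a, T, hT, hW⟩ := hSem S c m (A.card - 1) A hS hA (by omega) hc
    rcases hm₀ m A.card hm hd hw with h1 | ⟨h1, h2, h3⟩ | ⟨p, hp, h1, h2, h3, h4⟩
    · exact WLG.thm_G8 hS hA hc hne h1
    · exact hW (hN₂ _ m _ a T hT h1 h2 h3)
    · exact hW (hN₁ p (by omega) _ m _ a T hT h1 h2 h3 h4)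
  · have h2 : 0 < 2 * ε - 1 := by
      push Not at h
      linarith
    obtain ⟨m₀, hm₀⟩ := (Filter.tendsto_atTop.1 ((tendsto_rpow_atTop h2).comp
      tendsto_natCast_atTop_atTop) (8 : ℝ)).exists_forall_of_atTop
    refine ⟨m₀, fun S c m A hS hA hc hne hm hd _ => ?_⟩
    refine WLG.thm_G8 hS hA hc hne ?_
    have hm1 : (0 : ℝ) < m := by exact_mod_cast hS.hm0
    have h3 : (8 : ℝ) ≤ (m : ℝ) ^ (2 * ε - 1) := hm₀ m hm
    have h4 : (8 : ℝ) * m ≤ (m : ℝ) ^ (2 * ε) := by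
      calc (8 : ℝ) * m ≤ (m : ℝ) ^ (2 * ε - 1) * m := by
            exact mul_le_mul_of_nonneg_right h3 hm1.le
        _ = (m : ℝ) ^ (2 * ε) := by
            rw [← Real.rpow_add_one hm1.ne', sub_add_cancel]
    have h5 : (m : ℝ) ^ (2 * ε) = ((m : ℝ) ^ ε) ^ 2 := by
      rw [mul_comm, Real.rpow_mul hm1.le]
      norm_num
    have h6 : ((m : ℝ) ^ ε) ^ 2 ≤ (A.card : ℝ) ^ 2 :=
      pow_le_pow_left₀ (Real.rpow_nonneg hm1.le _) hd 2
    exact_mod_cast (h4.trans (h5.le.trans h6) : (8 : ℝ) * m ≤ (A.card : ℝ) ^ 2)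

end Pool.Agent.WLK
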