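import Pool.Agent.WLK.St

set_option autoImplicit false

namespace Pool.Agent.WLK

open Finset

theorem thm_Gro : St_Gro := by
  intro ε C E hε
  have h1 : (fun x : ℝ => Real.log x ^ (E : ℝ)) =o[Filter.atTop] fun x => x ^ ε :=
    isLittleO_log_rpow_rpow_atTop _ hε
  have hc : (0 : ℝ) < 1 / ((C : ℝ) * 4 ^ E + 1) := by positivity
  have h2 := h1.bound hc
  have h3 : ∀ᶠ n : ℕ in Filter.atTop,
      ‖Real.log (n : ℝ) ^ (E : ℝ)‖ ≤ 1 / ((C : ℝ) * 4 ^ E + 1) * ‖(n : ℝ) ^ ε‖ :=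
    tendsto_natCast_atTop_atTop.eventually h2
  obtain ⟨m₁, hm₁⟩ := Filter.eventually_atTop.1 h3
  refine ⟨max m₁ 3, fun m hm => ?_⟩
  have hm1 : m₁ ≤ m := le_trans (le_max_left _ _) hm
  have hm3 : 3 ≤ m := le_trans (le_max_right _ _) hm
  have hmR : (3 : ℝ) ≤ m := by exact_mod_cast hm3
  have hlog : 1 ≤ Real.log (m : ℝ) := by
    have h := Real.log_le_log (Real.exp_pos 1)
      (show Real.exp 1 ≤ (m : ℝ) by
        have := Real.exp_one_lt_d9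
        linarith)
    rwa [Real.log_exp] at h
  have hb := hm₁ m hm1
  have hme : (0 : ℝ) ≤ (m : ℝ) ^ ε := by positivity
  rw [Real.rpow_natCast, Real.norm_of_nonneg (by positivity), Real.norm_of_nonneg hme] at hb
  have hlg : (Nat.log 2 m : ℝ) ≤ 2 * Real.log m := by
    refine (Real.natLog_le_logb m 2).trans ?_
    rw [Real.logb, Nat.cast_ofNat]
    have h2' := Real.log_two_gt_d9
    rw [div_le_iff₀ (by linarith)]
    nlinarith
  have h4 : ((Nat.log 2 m : ℝ) + 1) ^ E ≤ (4 * Real.log m) ^ E :=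
    pow_le_pow_left₀ (by positivity) (by linarith) E
  have h5 : (C : ℝ) * ((Nat.log 2 m : ℝ) + 1) ^ E ≤ C * 4 ^ E * Real.log m ^ E := by
    rw [mul_assoc, ← mul_pow]
    exact mul_le_mul_of_nonneg_left h4 (by positivity)
  refine h5.trans ?_
  have h6 : C * 4 ^ E * Real.log m ^ E ≤
      (C * 4 ^ E) * (1 / ((C : ℝ) * 4 ^ E + 1) * (m : ℝ) ^ ε) :=
    mul_le_mul_of_nonneg_left hb (by positivity)
  refine h6.trans ?_
  have h7 : (C * 4 ^ E) * (1 / ((C : ℝ) * 4 ^ E + 1) * (m : ℝ) ^ ε) =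
      (C * 4 ^ E) / ((C : ℝ) * 4 ^ E + 1) * (m : ℝ) ^ ε := by ring
  rw [h7]
  have h8 : (C * 4 ^ E) / ((C : ℝ) * 4 ^ E + 1) ≤ 1 := by
    rw [div_le_one (by positivity)]
    linarith
  calc (C * 4 ^ E) / ((C : ℝ) * 4 ^ E + 1) * (m : ℝ) ^ ε ≤ 1 * (m : ℝ) ^ ε :=
        mul_le_mul_of_nonneg_right h8 hme
    _ = (m : ℝ) ^ ε := one_mul _

end Pool.Agent.WLK
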