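import Pool.Agent.WLK.St

/-!
# WLK HiL: the squarefree elements of large degree (MP_05ec03_nt)
-/

set_option autoImplicit false

namespace Pool.Agent.WLK

open Finset Pool.Agent.Helper60.Wilf Pool.Agent.Helper82.Wilf

private theorem HiL_sp {k : ℕ} (y : Fin k → ℕ) (h : ∀ i, y i ≤ 1) : sp y = ∑ i, y i := by
  unfold sp su
  rw [card_filter]
  apply sum_congr rfl
  intro i _
  have := h i
  rcases Nat.eq_zero_or_pos (y i) with h0 | h0
  · rw [h0]
    simp
  · have h1 : y i = 1 := by omega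
    rw [h1]
    simp

theorem thm_HiL (hShd : St_Shd) (hSup : St_Sup) : St_HiL := by
  intro k T hT p K hK
  have h1 : ∑ y ∈ Hg T p, sp y = ∑ l ∈ Ioc p (Nat.log 2 T.card), l * (Tl T l).card := by
    rw [← sum_fiberwise_of_maps_to (s := Hg T p) (t := Ioc p (Nat.log 2 T.card)) (g := fun y => ∑ i, y i)]
    · apply sum_congr rfl
      intro l hl
      have hl' := mem_Ioc.1 hl
      have e1 : (Hg T p).filter (fun y => ∑ i, y i = l) = Tl T l := by
        ext y
        simp only [Hg, Tl, mem_filter]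
        constructor
        · rintro ⟨⟨a, b, _⟩, c⟩
          exact ⟨a, b, c⟩
        · rintro ⟨a, b, c⟩
          exact ⟨⟨a, b, by omega⟩, c⟩
      rw [e1]
      have e2 : ∑ y ∈ Tl T l, sp y = ∑ _y ∈ Tl T l, l := by
        apply sum_congr rfl
        intro y hy
        simp only [Tl, mem_filter] at hy
        rw [HiL_sp y hy.2.1, hy.2.2]
      rw [e2, sum_const, smul_eq_mul, mul_comm]
    · intro y hy
      simp only [Hg, mem_filter] at hy
      rw [mem_Ioc]
      refine ⟨hy.2.2, ?_⟩
      have e3 := (hSup k T hT y hy.1).2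
      rw [HiL_sp y hy.2.1] at e3
      exact e3
  have h2 : ∀ l ∈ Ioc p (Nat.log 2 T.card), K * (l * (Tl T l).card) ≤ k * (Jl T (l - 1)).card := by
    intro l hl
    have hl' := mem_Ioc.1 hl
    obtain ⟨x, _, hx2, hx3⟩ := hShd k T hT l (by omega)
    have e1 := hK l x hl'.1 hl'.2 (hx2.trans (card_le_card (filter_subset _ _)))
    calc K * (l * (Tl T l).card) ≤ K * ((x + 1) * (Jl T (l - 1)).card) := Nat.mul_le_mul_left _ hx3
      _ = ((x + 1) * K) * (Jl T (l - 1)).card := by ring
      _ ≤ k * (Jl T (l - 1)).card := Nat.mul_le_mul_right _ e1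
  have h3 : ∑ l ∈ Ioc p (Nat.log 2 T.card), (Jl T (l - 1)).card ≤ (JJ T).card := by
    rw [← card_biUnion]
    · apply card_le_card
      intro y hy
      rw [mem_biUnion] at hy
      obtain ⟨l, _, hy⟩ := hy
      exact (mem_filter.1 hy).1
    · intro l hl l' hl' hne
      rw [Function.onFun, disjoint_left]
      intro y hy hy'
      simp only [Jl, mem_filter] at hy hy'
      have a1 := mem_Ioc.1 hl
      have a2 := mem_Ioc.1 hl'
      have a3 := hy.2.2
      have a4 := hy'.2.2
      omega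
  rw [h1, mul_sum]
  calc ∑ l ∈ Ioc p (Nat.log 2 T.card), K * (l * (Tl T l).card)
      ≤ ∑ l ∈ Ioc p (Nat.log 2 T.card), k * (Jl T (l - 1)).card := sum_le_sum h2
    _ = k * ∑ l ∈ Ioc p (Nat.log 2 T.card), (Jl T (l - 1)).card := (mul_sum _ _ _).symm
    _ ≤ k * (JJ T).card := Nat.mul_le_mul_left _ h3

end Pool.Agent.WLK
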