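import Pool.Agent.WLK.St

/-!
# WLK: the identity (Idn)
-/

set_option autoImplicit false

namespace Pool.Agent.WLK

open Finset

private theorem idn_nu {k : ℕ} (T : Finset (Fin k → ℕ)) (x : Fin k → ℕ) :
    (((up T x)ᶜ).card : ℝ) = (k : ℝ) - nu T x := by
  rw [Finset.card_compl, Fintype.card_fin, Nat.cast_sub]
  · rfl
  · exact le_trans (Finset.card_le_univ _) (by simp)

/-- **Idn.** The identity. -/
theorem thm_Idn (hLin : St_Lin) (hRes : St_Res) : St_Idn := by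
  intro k m M a T hT
  obtain ⟨h1, _, _, h4, _, _, _⟩ := hRes k m M a T hT
  have hlin := hLin k M a T hT.down
  have hD : ∀ x ∈ T, (M : ℝ) - sw a x = m * ff m M a x + rr m M a x := by
    intro x hx
    have h := h1 x hx
    have h' : (sw a x : ℝ) + m * ff m M a x + rr m M a x = M := by exact_mod_cast h
    linarith
  have e1 : ∑ x ∈ T, ∑ i ∈ (up T x)ᶜ, ((x i : ℝ) + 1) * ((M : ℝ) - sw a x) =
      ∑ x ∈ T, ∑ i ∈ (up T x)ᶜ, (x i : ℝ) * ((M : ℝ) - sw a x) +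
        ∑ x ∈ T, ((k : ℝ) - nu T x) * (m * ff m M a x + rr m M a x) := by
    rw [← Finset.sum_add_distrib]
    refine Finset.sum_congr rfl fun x hx => ?_
    rw [← hD x hx, ← idn_nu T x, ← nsmul_eq_mul, ← Finset.sum_const, ← Finset.sum_add_distrib]
    refine Finset.sum_congr rfl fun i _ => ?_
    ring
  have e2 : (k : ℝ) * ∑ x ∈ T, ((M : ℝ) - sw a x) - ∑ x ∈ T, (sw a x : ℝ) =
      ((k : ℝ) + 1) * (m * ∑ x ∈ T, (ff m M a x : ℝ) + ∑ x ∈ T, (rr m M a x : ℝ)) - m * M := by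
    have e3 : ∑ x ∈ T, ((M : ℝ) - sw a x) =
        m * ∑ x ∈ T, (ff m M a x : ℝ) + ∑ x ∈ T, (rr m M a x : ℝ) := by
      rw [Finset.mul_sum, ← Finset.sum_add_distrib]
      exact Finset.sum_congr rfl hD
    have e4 : ∑ x ∈ T, (sw a x : ℝ) = m * M - ∑ x ∈ T, ((M : ℝ) - sw a x) := by
      rw [Finset.sum_sub_distrib, Finset.sum_const, hT.card, nsmul_eq_mul]
      ring
    rw [e4, e3]
    ring
  have e5 : ∑ x ∈ T, (((k : ℝ) - nu T x) * (m * ff m M a x) -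
      ((nu T x : ℝ) - 1) * rr m M a x + ∑ i ∈ (up T x)ᶜ, (x i : ℝ) * ((M : ℝ) - sw a x)) =
      ∑ x ∈ T, ∑ i ∈ (up T x)ᶜ, (x i : ℝ) * ((M : ℝ) - sw a x) +
        ∑ x ∈ T, ((k : ℝ) - nu T x) * (m * ff m M a x + rr m M a x) -
        ((k : ℝ) - 1) * ∑ x ∈ T, (rr m M a x : ℝ) := by
    rw [Finset.mul_sum, ← Finset.sum_add_distrib, ← Finset.sum_sub_distrib]
    refine Finset.sum_congr rfl fun x _ => ?_
    ring
  rw [e5, ← e1, hlin, e2, wil]
  linear_combination (-1 : ℝ) * h4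

end Pool.Agent.WLK
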