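import Pool.Agent.WLK.St

set_option autoImplicit false

namespace Pool.Agent.WLK

open Finset

/-- `(1 + η) ^ q ≤ 1 + ε / 2` -/
private lemma Lim_eta {ε : ℝ} (h0 : 0 < ε) (h1 : ε ≤ 1 / 2) {Q q : ℕ} (hQ : 1 ≤ Q) (hq : q ≤ Q) :
    (1 + ε / (4 * Q)) ^ q ≤ 1 + ε / 2 := by
  have hQR : (1 : ℝ) ≤ Q := by exact_mod_cast hQ
  have hqR : (q : ℝ) ≤ Q := by exact_mod_cast hq
  have hη : 0 < ε / (4 * Q) := by positivity
  have h2 : (1 + ε / (4 * Q)) ^ q ≤ Real.exp (ε / 4) := by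
    calc (1 + ε / (4 * Q)) ^ q ≤ (Real.exp (ε / (4 * Q))) ^ q := by
          apply pow_le_pow_left₀ (by positivity)
          have := Real.add_one_le_exp (ε / (4 * Q))
          linarith
      _ = Real.exp (q * (ε / (4 * Q))) := (Real.exp_nat_mul _ _).symm
      _ ≤ Real.exp (ε / 4) := by
          apply Real.exp_le_exp.2
          calc (q : ℝ) * (ε / (4 * Q)) ≤ Q * (ε / (4 * Q)) :=
                mul_le_mul_of_nonneg_right hqR hη.le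
            _ = ε / 4 := by field_simp
  refine h2.trans ?_
  have h3 : Real.exp (ε / 4) * (1 - ε / 4) ≤ 1 := by
    have h4 := Real.add_one_le_exp (-(ε / 4))
    have h5 : Real.exp (ε / 4) * Real.exp (-(ε / 4)) = 1 := by
      rw [← Real.exp_add]; simp
    calc Real.exp (ε / 4) * (1 - ε / 4) ≤ Real.exp (ε / 4) * Real.exp (-(ε / 4)) :=
          mul_le_mul_of_nonneg_left (by linarith) (Real.exp_pos _).le
      _ = 1 := h5
  have h6 : 0 < 1 - ε / 4 := by linarith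
  have h7 : Real.exp (ε / 4) ≤ 1 / (1 - ε / 4) := by
    rw [le_div_iff₀ h6]; exact h3
  refine h7.trans ?_
  rw [div_le_iff₀ h6]
  nlinarith

/-- `(d - 1) ^ q ≥ d ^ q (1 - δ)` when `q / d ≤ δ` -/
private lemma Lim_bern {d q : ℕ} {δ : ℝ} (hd : 1 ≤ d) (h : (q : ℝ) ≤ δ * d) :
    (d : ℝ) ^ q * (1 - δ) ≤ ((d - 1 : ℕ) : ℝ) ^ q := by
  have hdR : (1 : ℝ) ≤ d := by exact_mod_cast hd
  have h1 : ((d - 1 : ℕ) : ℝ) = (d : ℝ) * (1 + -(1 / d)) := by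
    push_cast [hd]
    field_simp
    ring
  rw [h1, mul_pow]
  apply mul_le_mul_of_nonneg_left _ (by positivity)
  have h2 : (-2 : ℝ) ≤ -(1 / d) := by
    have : (1 : ℝ) / d ≤ 1 := by
      rw [div_le_one (by linarith)]; exact hdR
    linarith
  have h3 := one_add_mul_le_pow h2 q
  have h4 : (q : ℝ) * (1 / d) ≤ δ := by
    rw [mul_one_div, div_le_iff₀ (by linarith)]; exact h
  linarith

private lemma Lim_n1 {ε Q : ℝ} (h0 : 0 < ε) (hQ : 1 ≤ Q) : ε ≤ ε * (4 * Q) := by nlinarith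

private lemma Lim_n3 {a m : ℝ} (ha : 0 < a) (hm : 0 < m) : a / 16 * m < m / 4 * (a / 2) := by
  have : 0 < a * m := mul_pos ha hm
  nlinarith

private lemma Lim_n4 {ε X Y : ℝ} (h0 : 0 < ε) (hX : 0 < X) (h : X ≤ Y) : (1 - ε) * X < Y := by
  nlinarith

private lemma Lim_n5 {ε X Y : ℝ} (h : (1 - ε) * X < Y) (he : ε ≤ 1 / 2) (hX : 0 < X) :
    X / 2 < Y := by
  nlinarith

private lemma Lim_n6 {m d : ℝ} (h : m / 2 < d) (hm : 64 ≤ m) : 8 * m ≤ d ^ 2 := by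
  nlinarith

private lemma Lim_n8 {m d : ℝ} (h : m < d ^ 2) (hd : 4 ≤ d) : m / 4 ≤ (d - 1) ^ 2 := by
  nlinarith

private lemma Lim_n9 {ε m f : ℝ} (he : ε ≤ 1 / 2) (hm : 0 < m) (hf : 1 ≤ f) :
    m / 2 ≤ (1 - ε) * (f * m) := by
  have h2 : m ≤ f * m := by nlinarith
  nlinarith

private lemma Lim_n10 {ε x : ℝ} (he : ε ≤ 1 / 2) (hx : 0 ≤ x) :
    x / 2 ≤ x * (1 - ε / 4) := by
  nlinarith

private lemma Lim_n11 {ε : ℝ} (h0 : 0 < ε) (he : ε ≤ 1 / 2) :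
    1 + ε / 2 ≤ (1 + ε) * (1 - ε / 4) := by
  nlinarith

theorem thm_Lim (hGro : St_Gro) : St_Lim := by
  intro ε h0 h12
  set Q : ℕ := ⌈1 / ε⌉₊ + 1 with hQdef
  have hQ1 : 1 ≤ Q := by omega
  have hQlo : 1 / ε + 1 ≤ (Q : ℝ) := by
    rw [hQdef]; push_cast
    have := Nat.le_ceil (1 / ε)
    linarith
  have hQhi : (Q : ℝ) ≤ 3 / ε := by
    rw [hQdef]; push_cast
    have h1 := Nat.ceil_lt_add_one (show 0 ≤ 1 / ε by positivity)
    have h2 : 3 / ε = 1 / ε + 2 / ε := by ring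
    have h3 : (2 : ℝ) ≤ 2 / ε := by
      rw [le_div_iff₀ h0]; linarith
    linarith
  have hQR : (1 : ℝ) ≤ Q := by exact_mod_cast hQ1
  have hη0 : 0 < ε / (4 * Q) := by positivity
  have hηε : ε / (4 * Q) ≤ ε := by
    rw [div_le_iff₀ (by positivity)]; exact Lim_n1 h0 hQR
  refine ⟨ε / (4 * Q), hη0, by linarith, fun N₂ N₁ => ?_⟩
  set N : ℕ := 1 + N₂ + ∑ q ∈ range (Q + 1), N₁ q with hNdef
  have hN1 : 1 ≤ N := by omega
  have hNN2 : N₂ ≤ N := by omega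
  have hNq : ∀ q ≤ Q, N₁ q ≤ N := by
    intro q hq
    have : N₁ q ≤ ∑ q ∈ range (Q + 1), N₁ q :=
      Finset.single_le_sum (f := N₁) (fun i _ => Nat.zero_le _) (mem_range.2 (by omega))
    omega
  obtain ⟨m₁, hm₁⟩ := hGro ε (16 * N ^ (Q + 3)) (Q + 3) h0
  obtain ⟨m₂, hm₂⟩ := hGro ε (Nat.factorial Q + ⌈4 * (Q : ℝ) / ε⌉₊ + 4) 0 h0
  refine ⟨max (max m₁ m₂) 64, fun m d hm hd hW => ?_⟩
  have hmm1 : m₁ ≤ m := le_trans (le_trans (le_max_left _ _) (le_max_left _ _)) hm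
  have hmm2 : m₂ ≤ m := le_trans (le_trans (le_max_right _ _) (le_max_left _ _)) hm
  have hm64 : 64 ≤ m := le_trans (le_max_right _ _) hm
  have hmR : (64 : ℝ) ≤ m := by exact_mod_cast hm64
  have hA := hm₁ m hmm1
  have hB := hm₂ m hmm2
  rw [pow_zero, mul_one] at hB
  push_cast at hA hB
  set L : ℝ := (Nat.log 2 m : ℝ) + 1 with hL
  have hL1 : 1 ≤ L := by rw [hL]; linarith [Nat.cast_nonneg (α := ℝ) (Nat.log 2 m)]
  have hNR : (1 : ℝ) ≤ N := by exact_mod_cast hN1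
  have hNL : 1 ≤ (N : ℝ) * L := one_le_mul_of_one_le_of_one_le hNR hL1
  have hA' : 16 * ((N : ℝ) * L) ^ (Q + 3) ≤ (m : ℝ) ^ ε := by
    rw [mul_pow, ← mul_assoc]; exact hA
  have hfacR : (Nat.factorial Q : ℝ) ≤ (m : ℝ) ^ ε := by
    have : (0 : ℝ) ≤ (⌈4 * (Q : ℝ) / ε⌉₊ : ℝ) := Nat.cast_nonneg _
    linarith
  have h4Q : 4 * (Q : ℝ) / ε ≤ (m : ℝ) ^ ε := by
    have h1 := Nat.le_ceil (4 * (Q : ℝ) / ε)
    have : (0 : ℝ) ≤ (Nat.factorial Q : ℝ) := Nat.cast_nonneg _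
    linarith
  have hme4 : 4 ≤ (m : ℝ) ^ ε := by
    have h1 : (0 : ℝ) ≤ (Nat.factorial Q : ℝ) := Nat.cast_nonneg _
    have h2 : (0 : ℝ) ≤ (⌈4 * (Q : ℝ) / ε⌉₊ : ℝ) := Nat.cast_nonneg _
    linarith
  have hd4 : (4 : ℝ) ≤ d := hme4.trans hd
  have hd1 : 1 ≤ d := by
    have : (1 : ℝ) ≤ d := by linarith
    exact_mod_cast this
  have hkR : ((d - 1 : ℕ) : ℝ) = (d : ℝ) - 1 := by push_cast [hd1]; ring
  have hk2 : (m : ℝ) ^ ε / 2 ≤ ((d - 1 : ℕ) : ℝ) := by rw [hkR]; linarith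
  have hk0 : (0 : ℝ) ≤ ((d - 1 : ℕ) : ℝ) := Nat.cast_nonneg _
  have hkd : ((d - 1 : ℕ) : ℝ) ≤ d := by rw [hkR]; linarith
  have hqd : ∀ q ≤ Q, (q : ℝ) ≤ ε / 4 * d := by
    intro q hq
    have h1 : (q : ℝ) ≤ Q := by exact_mod_cast hq
    have h2 : 4 * (Q : ℝ) / ε ≤ d := h4Q.trans hd
    rw [div_le_iff₀ h0] at h2
    linarith
  -- growth
  have grow3 : ∀ n : ℕ, n ≤ N → n * (Nat.log 2 m + 1) ^ 3 ≤ d - 1 := by
    intro n hn
    have hnR : (n : ℝ) ≤ N := by exact_mod_cast hn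
    have h1 : (n : ℝ) * L ^ 3 ≤ (N * L) ^ 3 := by
      rw [mul_pow]
      apply mul_le_mul_of_nonneg_right _ (by positivity)
      calc (n : ℝ) ≤ N := hnR
        _ = (N : ℝ) ^ 1 := (pow_one _).symm
        _ ≤ (N : ℝ) ^ 3 := pow_le_pow_right₀ hNR (by norm_num)
    have h2 : ((N : ℝ) * L) ^ 3 ≤ ((N : ℝ) * L) ^ (Q + 3) := pow_le_pow_right₀ hNL (by omega)
    have h3 : (n : ℝ) * L ^ 3 ≤ ((d - 1 : ℕ) : ℝ) := by
      have : (0 : ℝ) ≤ ((N : ℝ) * L) ^ (Q + 3) := by positivity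
      linarith
    rw [hL] at h3
    exact_mod_cast h3
  have grow : ∀ n q : ℕ, n ≤ N → q ≤ Q + 2 → (m : ℝ) / 4 ≤ ((d - 1 : ℕ) : ℝ) ^ q →
      (n * (Nat.log 2 m + 1)) ^ (q + 1) * m < (d - 1) ^ (q + 1) := by
    intro n q hn hq hk
    have hnR : (n : ℝ) ≤ N := by exact_mod_cast hn
    have h1 : ((n : ℝ) * L) ^ (q + 1) ≤ ((N : ℝ) * L) ^ (q + 1) :=
      pow_le_pow_left₀ (by positivity) (mul_le_mul_of_nonneg_right hnR (by linarith)) _
    have h2 : ((N : ℝ) * L) ^ (q + 1) ≤ ((N : ℝ) * L) ^ (Q + 3) :=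
      pow_le_pow_right₀ hNL (by omega)
    have h3 : ((n : ℝ) * L) ^ (q + 1) ≤ (m : ℝ) ^ ε / 16 := by linarith
    have hm0 : (0 : ℝ) < m := by linarith
    have hme0 : 0 < (m : ℝ) ^ ε := by linarith
    have h4 : ((n : ℝ) * L) ^ (q + 1) * m < ((d - 1 : ℕ) : ℝ) ^ (q + 1) := by
      calc ((n : ℝ) * L) ^ (q + 1) * m ≤ (m : ℝ) ^ ε / 16 * m :=
            mul_le_mul_of_nonneg_right h3 hm0.le
        _ < (m : ℝ) / 4 * ((m : ℝ) ^ ε / 2) := Lim_n3 hme0 hm0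
        _ ≤ ((d - 1 : ℕ) : ℝ) ^ q * ((d - 1 : ℕ) : ℝ) :=
            mul_le_mul hk hk2 (by positivity) (by positivity)
        _ = ((d - 1 : ℕ) : ℝ) ^ (q + 1) := (pow_succ _ _).symm
    rw [hL] at h4
    exact_mod_cast h4
  -- the least integer
  have hQex : 1 ≤ Q ∧ (1 - ε) * ((Nat.factorial Q : ℝ) * m) < (d : ℝ) ^ Q := by
    refine ⟨hQ1, ?_⟩
    have hm0 : (0 : ℝ) < m := by linarith
    have hm1 : (1 : ℝ) ≤ m := by linarith
    have h1 : ((m : ℝ) ^ ε) ^ Q ≤ (d : ℝ) ^ Q := pow_le_pow_left₀ (by positivity) hd _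
    have h2 : ((m : ℝ) ^ ε) ^ Q = (m : ℝ) ^ (ε * Q) := by
      rw [Real.rpow_mul hm0.le, Real.rpow_natCast]
    have h3 : (m : ℝ) ^ (1 + ε) ≤ (m : ℝ) ^ (ε * Q) := by
      apply Real.rpow_le_rpow_of_exponent_le hm1
      have h4 := mul_le_mul_of_nonneg_left hQlo h0.le
      have h5 : ε * (1 / ε + 1) = 1 + ε := by field_simp
      linarith
    have h6 : (m : ℝ) ^ (1 + ε) = m * (m : ℝ) ^ ε := by
      rw [Real.rpow_add hm0, Real.rpow_one]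
    have h7 : (Nat.factorial Q : ℝ) * m ≤ (d : ℝ) ^ Q := by
      calc (Nat.factorial Q : ℝ) * m ≤ (m : ℝ) ^ ε * m := mul_le_mul_of_nonneg_right hfacR hm0.le
        _ = (m : ℝ) ^ (1 + ε) := by rw [h6]; ring
        _ ≤ (m : ℝ) ^ (ε * Q) := h3
        _ = ((m : ℝ) ^ ε) ^ Q := h2.symm
        _ ≤ (d : ℝ) ^ Q := h1
    have h8 : 0 < (Nat.factorial Q : ℝ) * m :=
      mul_pos (by exact_mod_cast Nat.factorial_pos Q) hm0
    exact Lim_n4 h0 h8 h7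
  have hex : ∃ q : ℕ, 1 ≤ q ∧ (1 - ε) * ((Nat.factorial q : ℝ) * m) < (d : ℝ) ^ q := ⟨Q, hQex⟩
  obtain ⟨q, ⟨hq1, hqlt⟩, hqmin⟩ :
      ∃ q : ℕ, (1 ≤ q ∧ (1 - ε) * ((Nat.factorial q : ℝ) * m) < (d : ℝ) ^ q) ∧
        ∀ r, r < q → ¬ (1 ≤ r ∧ (1 - ε) * ((Nat.factorial r : ℝ) * m) < (d : ℝ) ^ r) := by
    classical
    exact ⟨Nat.find hex, Nat.find_spec hex, fun r hr => Nat.find_min hex hr⟩
  have hqQ : q ≤ Q := by
    by_contra hcon
    push Not at hcon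
    exact hqmin Q hcon hQex
  have hm0 : (0 : ℝ) < m := by linarith
  rcases Nat.lt_or_ge q 3 with hq3 | hq3
  · have hq : q = 1 ∨ q = 2 := by omega
    rcases hq with rfl | rfl
    · left
      rw [pow_one, Nat.factorial_one, Nat.cast_one, one_mul] at hqlt
      have h1 : (m : ℝ) / 2 < d := Lim_n5 hqlt h12 hm0
      have h2 : (8 : ℝ) * m ≤ (d : ℝ) ^ 2 := Lim_n6 h1 hmR
      exact_mod_cast h2
    · rcases le_or_gt (8 * m) (d ^ 2) with h8 | h8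
      · left; exact h8
      · right; left
        have hdm : (m : ℝ) < (d : ℝ) ^ 2 := by
          have hf : (Nat.factorial 2 : ℝ) = 2 := by norm_num [Nat.factorial]
          rw [hf] at hqlt
          have h9 := Lim_n5 hqlt h12 (mul_pos two_pos hm0)
          linarith
        refine ⟨grow3 N₂ hNN2, ?_, ?_⟩
        · apply grow N₂ 2 hNN2 (by omega)
          rw [hkR]
          exact Lim_n8 hdm hd4
        · have h9 : (d - 1) ^ 2 ≤ d ^ 2 := Nat.pow_le_pow_left (by omega) 2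
          omega
  · right; right
    have hq0 : (0 : ℝ) < q := by
      have : 0 < q := by omega
      exact_mod_cast this
    have hq3R : (3 : ℝ) ≤ q := by exact_mod_cast hq3
    have hb := Lim_bern (δ := ε / 4) hd1 (hqd q hqQ)
    have hfq : (1 : ℝ) ≤ (Nat.factorial q : ℝ) := by
      exact_mod_cast Nat.succ_le_of_lt (Nat.factorial_pos q)
    have hdq0 : (0 : ℝ) ≤ (d : ℝ) ^ q := by positivity
    refine ⟨q, hq3, grow3 _ (hNq q hqQ), grow _ q (hNq q hqQ) (by omega) ?_, ?_, ?_⟩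
    · have h1 : (m : ℝ) / 2 ≤ (1 - ε) * ((Nat.factorial q : ℝ) * m) := Lim_n9 h12 hm0 hfq
      have h3 : (d : ℝ) ^ q / 2 ≤ (d : ℝ) ^ q * (1 - ε / 4) := Lim_n10 h12 hdq0
      linarith
    · have hnW : (1 + ε) * ((3 / 2 - 1 / (q : ℝ)) ^ q * ((Nat.factorial q : ℝ) * m)) ≤
          (d : ℝ) ^ q := by
        by_contra hcon
        push Not at hcon
        apply hW
        refine ⟨q, hq3, ?_, hqlt, hcon⟩
        exact le_trans (by exact_mod_cast hqQ) hQhi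
      have hu : 0 ≤ 3 / 2 - 1 / (q : ℝ) := by
        have : 1 / (q : ℝ) ≤ 1 / 3 := one_div_le_one_div_of_le (by norm_num) hq3R
        linarith
      set P : ℝ := (3 / 2 - 1 / (q : ℝ)) ^ q * ((Nat.factorial q : ℝ) * m) with hP
      have hP0 : 0 ≤ P := by rw [hP]; positivity
      have hE := Lim_eta h0 h12 hQ1 hqQ
      have h1 : ((1 + ε / (4 * Q)) * (3 / 2 - 1 / (q : ℝ))) ^ q * ((Nat.factorial q : ℝ) * m) =
          (1 + ε / (4 * Q)) ^ q * P := by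
        rw [mul_pow, hP]; ring
      rw [h1]
      calc (1 + ε / (4 * Q)) ^ q * P ≤ (1 + ε / 2) * P := mul_le_mul_of_nonneg_right hE hP0
        _ ≤ (1 + ε) * (1 - ε / 4) * P := by
            exact mul_le_mul_of_nonneg_right (Lim_n11 h0 h12) hP0
        _ = ((1 + ε) * P) * (1 - ε / 4) := by ring
        _ ≤ (d : ℝ) ^ q * (1 - ε / 4) := mul_le_mul_of_nonneg_right hnW (by linarith)
        _ ≤ ((d - 1 : ℕ) : ℝ) ^ q := hb
    · have h1 := hqmin (q - 1) (by omega)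
      have h2 : (d : ℝ) ^ (q - 1) ≤ (1 - ε) * ((Nat.factorial (q - 1) : ℝ) * m) := by
        by_contra hcon
        push Not at hcon
        exact h1 ⟨by omega, hcon⟩
      have h3 : ((d - 1 : ℕ) : ℝ) ^ (q - 1) ≤ (d : ℝ) ^ (q - 1) := pow_le_pow_left₀ hk0 hkd _
      have h4 : 0 ≤ (Nat.factorial (q - 1) : ℝ) * m := by positivity
      calc ((d - 1 : ℕ) : ℝ) ^ (q - 1) ≤ (d : ℝ) ^ (q - 1) := h3
        _ ≤ (1 - ε) * ((Nat.factorial (q - 1) : ℝ) * m) := h2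
        _ ≤ (1 - ε / (4 * Q)) * ((Nat.factorial (q - 1) : ℝ) * m) :=
            mul_le_mul_of_nonneg_right (by linarith) h4

end Pool.Agent.WLK
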