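import Pool.Agent.WLK.St

/-!
# WLK, Lin: the linear identity
-/

set_option autoImplicit false

namespace Pool.Agent.WLK

open Finset

private theorem Lin_sw {k : ℕ} (a z : Fin k → ℕ) (i : Fin k) :
    sw a (z + Pi.single i 1) = sw a z + a i := by
  unfold sw
  have h1 : ∀ t : Fin k, a t * (z + Pi.single i 1 : Fin k → ℕ) t =
      a t * z t + (if t = i then a i else 0) := by
    intro t
    rw [Pi.add_apply, mul_add]
    by_cases ht : t = i
    · subst ht
      rw [Pi.single_eq_same, if_pos rfl, mul_one]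
    · rw [Pi.single_eq_of_ne ht, if_neg ht, mul_zero]
  rw [Finset.sum_congr rfl fun t _ => h1 t, Finset.sum_add_distrib, Finset.sum_ite_eq']
  simp

theorem thm_Lin (hDbl : St_Dbl) : St_Lin := by
  intro k M a T hT
  have h1 : ∑ x ∈ T, ∑ i ∈ up T x, ((x i : ℝ) + 1) * (M - sw a x) =
      ∑ y ∈ T, ∑ i, (y i : ℝ) * (M - sw a y + a i) := by
    rw [hDbl k T (fun i x => ((x i : ℝ) + 1) * (M - sw a x)) hT]
    refine Finset.sum_congr rfl fun y _ => ?_
    have h2 : ∑ i, (y i : ℝ) * (M - sw a y + a i) = ∑ i ∈ su y, (y i : ℝ) * (M - sw a y + a i) := by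
      symm
      refine Finset.sum_subset (subset_univ _) fun i _ hi => ?_
      have h3 : y i = 0 := by
        by_contra h4
        exact hi (mem_filter.2 ⟨mem_univ _, h4⟩)
      rw [h3, Nat.cast_zero, zero_mul]
    rw [h2]
    refine Finset.sum_congr rfl fun i hi => ?_
    have h3 : y i ≠ 0 := (mem_filter.1 hi).2
    have h4 : y - Pi.single i 1 + Pi.single i 1 = y := by
      funext t
      rw [Pi.add_apply, Pi.sub_apply]
      by_cases ht : t = i
      · subst ht
        rw [Pi.single_eq_same]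
        omega
      · rw [Pi.single_eq_of_ne ht, Nat.sub_zero, Nat.add_zero]
    have h5 := Lin_sw a (y - Pi.single i 1) i
    rw [h4] at h5
    have h6 : (y i : ℝ) = (((y - Pi.single i 1 : Fin k → ℕ) i : ℕ) : ℝ) + 1 := by
      conv_lhs => rw [← h4]
      rw [Pi.add_apply, Pi.single_eq_same]
      push_cast
      ring
    rw [h5, ← h6]
    push_cast
    ring
  have h2 : ∀ x ∈ T, ∑ i ∈ (up T x)ᶜ, ((x i : ℝ) + 1) * (M - sw a x) =
      (∑ i, ((x i : ℝ) + 1) * (M - sw a x)) - ∑ i ∈ up T x, ((x i : ℝ) + 1) * (M - sw a x) := by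
    intro x _
    rw [eq_sub_iff_add_eq, add_comm]
    exact Finset.sum_add_sum_compl _ _
  rw [Finset.sum_congr rfl h2, Finset.sum_sub_distrib, h1, Finset.mul_sum, ← Finset.sum_sub_distrib,
    ← Finset.sum_sub_distrib]
  refine Finset.sum_congr rfl fun x _ => ?_
  rw [← Finset.sum_sub_distrib]
  have h3 : ∀ i, ((x i : ℝ) + 1) * (M - sw a x) - (x i : ℝ) * (M - sw a x + a i) =
      (M - sw a x) - (a i : ℝ) * x i := fun i => by ring
  rw [Finset.sum_congr rfl fun i _ => h3 i, Finset.sum_sub_distrib, Finset.sum_const, card_univ,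
    Fintype.card_fin, nsmul_eq_mul]
  congr 1
  unfold sw
  push_cast
  rfl

end Pool.Agent.WLK
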