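import Pool.Agent.WLK.St

/-!
# WLK: the squarefree elements of small degree
-/

set_option autoImplicit false

namespace Pool.Agent.WLK

open Finset

private lemma Low_inj {k : ℕ} (x y : Fin k → ℕ) (hx : ∀ i, x i ≤ 1) (hy : ∀ i, y i ≤ 1)
    (h : su x = su y) : x = y := by
  funext i
  have h1 : i ∈ su x ↔ i ∈ su y := by rw [h]
  simp only [su, mem_filter, mem_univ, true_and] at h1
  have := hx i
  have := hy i
  by_cases h0 : x i = 0
  · have : y i = 0 := by
      by_contra hc
      exact (h1.2 hc) h0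
    omega
  · have := h1.1 h0
    omega

private lemma Low_card {k : ℕ} (x : Fin k → ℕ) (hx : ∀ i, x i ≤ 1) : (su x).card = ∑ i, x i := by
  rw [su, card_filter]
  refine sum_congr rfl fun i _ => ?_
  have := hx i
  split_ifs with h <;> omega

private lemma Low_sum (k : ℕ) (T : Finset (Fin k → ℕ)) (p : ℕ) :
    (Lw T p).card ≤ ∑ i ∈ range p, k.choose i := by
  have h1 : (Lw T p).card = ((Lw T p).image su).card := by
    rw [card_image_of_injOn]
    intro x hx y hy h
    simp only [Lw, coe_filter, Set.mem_ofPred_eq] at hx hy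
    exact Low_inj x y hx.2.1 hy.2.1 h
  have h2 : (Lw T p).image su ⊆ (range p).biUnion fun i => powersetCard i (univ : Finset (Fin k)) := by
    intro s hs
    obtain ⟨x, hx, rfl⟩ := mem_image.1 hs
    simp only [Lw, mem_filter] at hx
    refine mem_biUnion.2 ⟨∑ i, x i, mem_range.2 hx.2.2, ?_⟩
    exact mem_powersetCard.2 ⟨subset_univ _, Low_card x hx.2.1⟩
  calc (Lw T p).card = ((Lw T p).image su).card := h1
    _ ≤ ((range p).biUnion fun i => powersetCard i (univ : Finset (Fin k))).card := card_le_card h2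
    _ ≤ ∑ i ∈ range p, (powersetCard i (univ : Finset (Fin k))).card := card_biUnion_le
    _ = ∑ i ∈ range p, k.choose i := by
      refine sum_congr rfl fun i _ => ?_
      rw [card_powersetCard, card_univ, Fintype.card_fin]

private lemma Low_ch (k i : ℕ) : Nat.factorial i * k.choose i ≤ k ^ i := by
  rw [← Nat.descFactorial_eq_factorial_mul_choose]
  exact Nat.descFactorial_le_pow k i

private lemma Low_pow (k q : ℕ) : ∑ i ∈ range (q + 1), k.choose i ≤ (k + 1) ^ q := by
  rw [add_pow]
  refine sum_le_sum fun i hi => ?_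
  have hi' : i ≤ q := by
    have := mem_range.1 hi
    omega
  have h1 : 1 ≤ q.choose i := Nat.choose_pos hi'
  have h2 : k.choose i ≤ k ^ i := by
    have h3 := Low_ch k i
    have h4 : 1 ≤ Nat.factorial i := Nat.factorial_pos i
    nlinarith
  simp only [one_pow, mul_one, Nat.cast_id]
  calc k.choose i ≤ k ^ i := h2
    _ = k ^ i * 1 := (mul_one _).symm
    _ ≤ k ^ i * q.choose i := Nat.mul_le_mul_left _ h1

theorem thm_Low : St_Low := by
  intro k T p hp
  obtain ⟨q, rfl⟩ : ∃ q, p = q + 1 := ⟨p - 1, by omega⟩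
  have h0 := Low_sum k T (q + 1)
  refine ⟨?_, ?_⟩
  · rw [Nat.add_sub_cancel]
    exact h0.trans (Low_pow k q)
  · intro h2
    obtain ⟨r, rfl⟩ : ∃ r, q = r + 1 := ⟨q - 1, by omega⟩
    have e1 : r + 1 + 1 - 1 = r + 1 := rfl
    have e2 : r + 1 + 1 - 2 = r := rfl
    rw [e1, e2]
    have h3 := Low_pow k r
    rw [sum_range_succ] at h0
    have h4 := Low_ch k (r + 1)
    calc Nat.factorial (r + 1) * (Lw T (r + 1 + 1)).card
        ≤ Nat.factorial (r + 1) * (∑ i ∈ range (r + 1), k.choose i + k.choose (r + 1)) :=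
          Nat.mul_le_mul_left _ h0
      _ = Nat.factorial (r + 1) * k.choose (r + 1) +
          Nat.factorial (r + 1) * ∑ i ∈ range (r + 1), k.choose i := by ring
      _ ≤ k ^ (r + 1) + Nat.factorial (r + 1) * (k + 1) ^ r :=
          Nat.add_le_add h4 (Nat.mul_le_mul_left _ h3)

end Pool.Agent.WLK
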