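import Pool.Agent.WLK.St

/-!
# WLK, module Nsf: the elements which are not squarefree
-/

set_option autoImplicit false

namespace Pool.Agent.WLK

open Finset

theorem thm_Nsf : St_Nsf := by
  intro k T hT
  have hs : ∑ x ∈ JJ T, sp x = ((JJ T).sigma fun x => su x).card := (Finset.card_sigma _ _).symm
  rw [hs]
  have hsub : Ns T ⊆ ((JJ T).sigma fun x => su x).image
      (fun q : (Σ _ : Fin k → ℕ, Fin k) => q.1 + Pi.single q.2 1) := by
    intro y hy
    obtain ⟨hyT, hy2⟩ := Finset.mem_filter.1 hy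
    push Not at hy2
    obtain ⟨i, hi⟩ := hy2
    have hadd : (fun j => y j - (Pi.single i 1 : Fin k → ℕ) j) + Pi.single i 1 = y := by
      funext j
      show y j - (Pi.single i 1 : Fin k → ℕ) j + (Pi.single i 1 : Fin k → ℕ) j = y j
      refine Nat.sub_add_cancel ?_
      by_cases h : j = i
      · subst h
        rw [Pi.single_eq_same]
        omega
      · rw [Pi.single_eq_of_ne h]
        exact Nat.zero_le _
    have hxT : (fun j => y j - (Pi.single i 1 : Fin k → ℕ) j) ∈ T :=
      hT y hyT _ fun j => Nat.sub_le _ _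
    refine Finset.mem_image.2 ⟨⟨fun j => y j - (Pi.single i 1 : Fin k → ℕ) j, i⟩, ?_, hadd⟩
    refine Finset.mem_sigma.2 ⟨Finset.mem_filter.2 ⟨hxT, ?_⟩, Finset.mem_filter.2 ⟨mem_univ _, ?_⟩⟩
    · refine Finset.card_pos.2 ⟨i, Finset.mem_filter.2 ⟨mem_univ _, ?_⟩⟩
      rw [hadd]
      exact hyT
    · show y i - (Pi.single i 1 : Fin k → ℕ) i ≠ 0
      rw [Pi.single_eq_same]
      omega
  exact (Finset.card_le_card hsub).trans Finset.card_image_le

end Pool.Agent.WLK
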