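import Pool.Agent.WLK.St

/-!
# WLK: the sum of the rests at the neighbours below a squarefree element
-/

set_option autoImplicit false

namespace Pool.Agent.WLK

open Finset Pool.Agent.Helper60.Wilf Pool.Agent.Helper82.Wilf

theorem thm_Pnt (hRes : St_Res) : St_Pnt := by
  intro k m M a T hT y hy p hp h1 hs
  obtain ⟨R1, R2, -, -, -, R6, -⟩ := hRes k m M a T hT
  have hmpos : 0 < m := lt_of_le_of_lt (Nat.zero_le _) (R2 y)
  have hsu : (su y).card = p := by
    unfold su
    rw [card_filter, ← hs]
    apply sum_congr rfl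
    intro i _
    have h2 := h1 i
    split_ifs with h3
    · omega
    · omega
  have hsw : ∑ i ∈ su y, a i = sw a y := by
    unfold su sw
    rw [sum_filter]
    apply sum_congr rfl
    intro i _
    have h2 := h1 i
    split_ifs with h3
    · have h4 : y i = 1 := by omega
      rw [h4, mul_one]
    · have h4 : y i = 0 := by omega
      rw [h4, mul_zero]
  have key : ∀ i ∈ su y, m * ff m M a (y - Pi.single i 1) + rr m M a (y - Pi.single i 1) =
      (m * ff m M a y + rr m M a y) + a i := by
    intro i hi
    have hi' : y i ≠ 0 := (mem_filter.1 hi).2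
    have e : (y - Pi.single i 1) + Pi.single i 1 = y := by
      funext j
      by_cases hj : j = i
      · subst hj
        simp only [Pi.add_apply, Pi.sub_apply, Pi.single_eq_same]
        omega
      · simp [hj]
    have h2 := R6 i (y - Pi.single i 1)
    rw [e] at h2
    have h3 := R1 _ (hT.down y hy (y - Pi.single i 1) tsub_le_self)
    have h4 := R1 y hy
    omega
  have hsum : m * (∑ i ∈ su y, ff m M a (y - Pi.single i 1)) +
      ∑ i ∈ su y, rr m M a (y - Pi.single i 1) =
      (M + (p - 1) * rr m M a y) + m * ((p - 1) * ff m M a y) := by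
    rw [mul_sum, ← sum_add_distrib, sum_congr rfl key, sum_add_distrib, sum_const, hsu, hsw,
      smul_eq_mul]
    have h4 := R1 y hy
    obtain ⟨q, rfl⟩ : ∃ q, p = q + 1 := ⟨p - 1, by omega⟩
    rw [Nat.add_sub_cancel]
    have h5 : (q + 1) * (m * ff m M a y + rr m M a y) + sw a y =
        ((sw a y + m * ff m M a y + rr m M a y) + q * rr m M a y) + m * (q * ff m M a y) := by
      ring
    rw [h5, h4]
  have hmod : (∑ i ∈ su y, rr m M a (y - Pi.single i 1)) % m = (M + (p - 1) * rr m M a y) % m := by
    have h2 : (m * (∑ i ∈ su y, ff m M a (y - Pi.single i 1)) +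
        ∑ i ∈ su y, rr m M a (y - Pi.single i 1)) % m =
        ((M + (p - 1) * rr m M a y) + m * ((p - 1) * ff m M a y)) % m := by rw [hsum]
    rwa [Nat.mul_add_mod, Nat.add_mul_mod_self_left] at h2
  have hle : ∑ i ∈ su y, rr m M a (y - Pi.single i 1) ≤ p * (m - 1) := by
    have h2 := sum_le_card_nsmul (su y) (fun i => rr m M a (y - Pi.single i 1)) (m - 1)
      (fun i _ => by
        have := R2 (y - Pi.single i 1)
        show rr m M a (y - Pi.single i 1) ≤ m - 1
        omega)
    rwa [hsu, smul_eq_mul] at h2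
  have hlt : ∑ i ∈ su y, rr m M a (y - Pi.single i 1) < p * m := by
    refine lt_of_le_of_lt hle ?_
    exact Nat.mul_lt_mul_of_pos_left (by omega) (by omega)
  have hdiv : (∑ i ∈ su y, rr m M a (y - Pi.single i 1)) / m ≤ p - 1 := by
    have := (Nat.div_lt_iff_lt_mul hmpos).2 hlt
    omega
  rw [← hmod]
  have h5 := Nat.div_add_mod (∑ i ∈ su y, rr m M a (y - Pi.single i 1)) m
  have h6 : m * ((∑ i ∈ su y, rr m M a (y - Pi.single i 1)) / m) ≤ (p - 1) * m := by
    rw [mul_comm (p - 1) m]
    exact Nat.mul_le_mul_left m hdiv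
  omega

end Pool.Agent.WLK
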