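import Pool.Agent.WLK.St

/-!
# WLK PrA: the embedding dimension is in the range of the degree `p` (MP_05ec03_nt)
-/

set_option autoImplicit false

namespace Pool.Agent.WLK

open Finset Pool.Agent.Helper60.Wilf Pool.Agent.Helper82.Wilf

private theorem PrA_final (P ε δ : ℝ) (hP : 2 ≤ P) (hε : 0 < ε) (hε1 : ε ≤ 1) (hδ : δ = ε / 20)
    (h : P * (1 - 2 * δ) * (1 + ε) ≤ (1 + δ) * (P + 2 * δ)) : False := by
  subst hδ
  have h1 : (1 + ε / 20) * (P + 2 * (ε / 20)) ≤ (1 + ε / 20) * (P * (1 + ε / 20)) := by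
    apply mul_le_mul_of_nonneg_left _ (by linarith)
    nlinarith
  have h2 : P * ((1 + ε / 20) * (1 + ε / 20)) < P * ((1 - 2 * (ε / 20)) * (1 + ε)) := by
    apply mul_lt_mul_of_pos_left _ (by linarith)
    nlinarith
  nlinarith

theorem thm_PrA (hSml : St_Sml) (hShd : St_Shd) (hLow : St_Low) : St_PrA := by
  intro p ε C hp hε hε1
  obtain ⟨δ, hδ⟩ : ∃ δ : ℝ, δ = ε / 20 := ⟨_, rfl⟩
  have hδ0 : 0 < δ := by rw [hδ]; linarith
  have hδ1 : δ ≤ 1 := by rw [hδ]; linarith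
  obtain ⟨N₁, hN₁⟩ := hSml p δ hp hδ0 hδ1
  obtain ⟨N₂, hN₂⟩ := exists_nat_ge (2 * (p : ℝ) * (2 ^ (p - 1) * (C * (Nat.factorial p : ℝ))) / δ)
  obtain ⟨N₃, hN₃⟩ := exists_nat_ge (3 * (p : ℝ) / δ)
  refine ⟨max (max N₁ N₂) (max N₃ 1), ?_⟩
  intro k m M a T hT hk1 hk2 hk3 hk4
  by_contra hw
  rw [not_lt] at hw
  have hN1 : N₁ ≤ max (max N₁ N₂) (max N₃ 1) := (le_max_left _ _).trans (le_max_left _ _)
  have hN2 : N₂ ≤ max (max N₁ N₂) (max N₃ 1) := (le_max_right _ _).trans (le_max_left _ _)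
  have hN3 : N₃ ≤ max (max N₁ N₂) (max N₃ 1) := (le_max_left _ _).trans (le_max_right _ _)
  have hN4 : 1 ≤ max (max N₁ N₂) (max N₃ 1) := (le_max_right _ _).trans (le_max_right _ _)
  generalize max (max N₁ N₂) (max N₃ 1) = N at hk1 hk2 hN1 hN2 hN3 hN4
  have hm : 0 < m := by
    rw [← hT.card]
    exact card_pos.2 ⟨0, hT.zero⟩
  have hmR : (0 : ℝ) < m := by exact_mod_cast hm
  have hNk : N ≤ k := by
    refine le_trans ?_ hk1
    exact Nat.le_mul_of_pos_right _ (pow_pos (Nat.succ_pos _) _)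
  have hkN : (N : ℝ) ≤ k := by exact_mod_cast hNk
  have hk0 : 1 ≤ k := hN4.trans hNk
  have hkR : (1 : ℝ) ≤ k := by exact_mod_cast hk0
  obtain ⟨_, _, _, _, s5, s6⟩ := hN₁ k m M a T hT hw ((Nat.mul_le_mul_right _ hN1).trans hk1)
    (lt_of_le_of_lt (Nat.mul_le_mul_right _ (Nat.pow_le_pow_left (Nat.mul_le_mul_right _ hN1) _)) hk2)
  have hp0 : (0 : ℝ) < p := by
    have : 0 < p := by omega
    exact_mod_cast this
  have hp2 : (2 : ℝ) ≤ p := by exact_mod_cast hp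
  -- the low elements
  have hLo1 := (hLow k T p (by omega)).1
  have hLo2 : 2 * (p : ℝ) * ((Lw T p).card : ℝ) ≤ δ * m := by
    have e1 : ((Lw T p).card : ℝ) ≤ ((k : ℝ) + 1) ^ (p - 1) := by exact_mod_cast hLo1
    have e2 : ((k : ℝ) + 1) ^ (p - 1) ≤ (2 * (k : ℝ)) ^ (p - 1) :=
      pow_le_pow_left₀ (by linarith) (by linarith) _
    have e3 : (k : ℝ) * (2 * (k : ℝ)) ^ (p - 1) = 2 ^ (p - 1) * (k : ℝ) ^ p := by
      obtain ⟨q, rfl⟩ : ∃ q, p = q + 1 := ⟨p - 1, by omega⟩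
      rw [Nat.add_sub_cancel, mul_pow, pow_succ]
      ring
    have e4 : (k : ℝ) * ((Lw T p).card : ℝ) ≤ 2 ^ (p - 1) * (C * ((Nat.factorial p : ℝ) * m)) := by
      calc (k : ℝ) * ((Lw T p).card : ℝ) ≤ (k : ℝ) * (2 * (k : ℝ)) ^ (p - 1) :=
            mul_le_mul_of_nonneg_left (e1.trans e2) (by linarith)
        _ = 2 ^ (p - 1) * (k : ℝ) ^ p := e3
        _ ≤ _ := mul_le_mul_of_nonneg_left hk4 (by positivity)
    have hN2R : (N₂ : ℝ) ≤ k := by exact_mod_cast hN2.trans hNk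
    have e5 : 2 * (p : ℝ) * (2 ^ (p - 1) * (C * (Nat.factorial p : ℝ))) ≤ k * δ := by
      rw [div_le_iff₀ hδ0] at hN₂
      exact hN₂.trans (mul_le_mul_of_nonneg_right hN2R hδ0.le)
    have e6 : (k : ℝ) * (2 * (p : ℝ) * ((Lw T p).card : ℝ)) ≤ k * (δ * m) := by
      calc (k : ℝ) * (2 * (p : ℝ) * ((Lw T p).card : ℝ)) = 2 * (p : ℝ) * ((k : ℝ) * ((Lw T p).card : ℝ)) := by ring
        _ ≤ 2 * (p : ℝ) * (2 ^ (p - 1) * (C * ((Nat.factorial p : ℝ) * m))) :=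
            mul_le_mul_of_nonneg_left e4 (by linarith)
        _ = (2 * (p : ℝ) * (2 ^ (p - 1) * (C * (Nat.factorial p : ℝ)))) * m := by ring
        _ ≤ (k * δ) * m := mul_le_mul_of_nonneg_right e5 hmR.le
        _ = k * (δ * m) := by ring
    exact le_of_mul_le_mul_left e6 (by linarith)
  have hLo0 : (0 : ℝ) ≤ ((Lw T p).card : ℝ) := Nat.cast_nonneg _
  have hLo3 : ((Lw T p).card : ℝ) ≤ δ * m := by nlinarith
  have hTl : (1 - 2 * δ) * m ≤ ((Tl T p).card : ℝ) := by nlinarith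
  -- the shadow
  obtain ⟨x, _, hx2, hx3⟩ := hShd k T hT.down p (by omega)
  have hx4 : p * (Tl T p).card ≤ (x + 1) * (JJ T).card :=
    hx3.trans (Nat.mul_le_mul_left _ (card_le_card (filter_subset _ _)))
  have hx5 : x.choose p ≤ m := by
    rw [← hT.card]
    exact hx2.trans (card_le_card (filter_subset _ _))
  have hx6 : (x + 1 - p) ^ p ≤ Nat.factorial p * m := by
    refine (Nat.pow_sub_le_descFactorial x p).trans ?_
    rw [Nat.descFactorial_eq_factorial_mul_choose]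
    exact Nat.mul_le_mul_left _ hx5
  obtain ⟨u, hu⟩ : ∃ u : ℝ, u = 3 / 2 - 1 / (p : ℝ) := ⟨_, rfl⟩
  have hpu : (p : ℝ) * u = 3 * (p : ℝ) / 2 - 1 := by
    rw [hu]
    field_simp
  have hu0 : 0 < u := by
    have : 0 < (p : ℝ) * u := by rw [hpu]; linarith
    exact (pos_iff_pos_of_mul_pos this).1 hp0
  have hu1 : u ≤ 3 / 2 := by
    have : 0 < 1 / (p : ℝ) := by positivity
    rw [hu]
    linarith
  rw [← hu] at hk3
  have hw0 : 0 < (1 + ε) * u := by positivity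
  have hw3 : (1 + ε) * u ≤ 3 := by nlinarith
  have hx7 : ((1 + ε) * u) * ((x + 1 - p : ℕ) : ℝ) ≤ k := by
    have e1 : (((x + 1 - p : ℕ) : ℝ)) ^ p ≤ (Nat.factorial p : ℝ) * m := by exact_mod_cast hx6
    have e2 : (((1 + ε) * u) * ((x + 1 - p : ℕ) : ℝ)) ^ p ≤ (k : ℝ) ^ p := by
      rw [mul_pow]
      exact (mul_le_mul_of_nonneg_left e1 (by positivity)).trans hk3
    exact le_of_pow_le_pow_left₀ (by omega) (by linarith) e2
  have hx8 : ((x : ℝ) + 1) ≤ ((x + 1 - p : ℕ) : ℝ) + p := by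
    have : x + 1 ≤ (x + 1 - p) + p := by omega
    exact_mod_cast this
  have hN3R : 3 * (p : ℝ) ≤ k * δ := by
    rw [div_le_iff₀ hδ0] at hN₃
    have : (N₃ : ℝ) ≤ k := by exact_mod_cast hN3.trans hNk
    exact hN₃.trans (mul_le_mul_of_nonneg_right this hδ0.le)
  have hx9 : ((1 + ε) * u) * ((x : ℝ) + 1) ≤ (1 + δ) * k := by
    calc ((1 + ε) * u) * ((x : ℝ) + 1) ≤ ((1 + ε) * u) * (((x + 1 - p : ℕ) : ℝ) + p) :=
          mul_le_mul_of_nonneg_left hx8 hw0.le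
      _ = ((1 + ε) * u) * ((x + 1 - p : ℕ) : ℝ) + ((1 + ε) * u) * p := by ring
      _ ≤ k + 3 * p := add_le_add hx7 (mul_le_mul_of_nonneg_right hw3 hp0.le)
      _ ≤ k + k * δ := by linarith
      _ = (1 + δ) * k := by ring
  have hJ0 : (0 : ℝ) ≤ ((JJ T).card : ℝ) := Nat.cast_nonneg _
  have hx10 : (p : ℝ) * ((Tl T p).card : ℝ) ≤ ((x : ℝ) + 1) * ((JJ T).card : ℝ) := by exact_mod_cast hx4
  have hfin : ((p : ℝ) * u * (1 - 2 * δ) * (1 + ε)) * m ≤ ((1 + δ) * ((p : ℝ) * u + 2 * δ)) * m := by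
    calc ((p : ℝ) * u * (1 - 2 * δ) * (1 + ε)) * m = ((1 + ε) * u) * ((p : ℝ) * ((1 - 2 * δ) * m)) := by ring
      _ ≤ ((1 + ε) * u) * ((p : ℝ) * ((Tl T p).card : ℝ)) :=
          mul_le_mul_of_nonneg_left (mul_le_mul_of_nonneg_left hTl hp0.le) hw0.le
      _ ≤ ((1 + ε) * u) * (((x : ℝ) + 1) * ((JJ T).card : ℝ)) := mul_le_mul_of_nonneg_left hx10 hw0.le
      _ = (((1 + ε) * u) * ((x : ℝ) + 1)) * ((JJ T).card : ℝ) := by ring
      _ ≤ ((1 + δ) * k) * ((JJ T).card : ℝ) := mul_le_mul_of_nonneg_right hx9 hJ0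
      _ = (1 + δ) * (k * ((JJ T).card : ℝ)) := by ring
      _ ≤ (1 + δ) * (((p : ℝ) * u + 2 * δ) * m) := by
          apply mul_le_mul_of_nonneg_left _ (by linarith)
          rw [hpu]
          nlinarith
      _ = _ := by ring
  have hfin2 := le_of_mul_le_mul_right hfin hmR
  exact PrA_final ((p : ℝ) * u) ε δ (by rw [hpu]; linarith) hε hε1 hδ hfin2

end Pool.Agent.WLK
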