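import Pool.Agent.WLK.St

/-!
# WLK, PrB: embedding dimension far from the first window
-/

set_option autoImplicit false

namespace Pool.Agent.WLK

open Finset

theorem thm_PrB (hSml : St_Sml) (hShd : St_Shd) (hLow : St_Low) : St_PrB := by
  intro p ε hp hε hε1
  obtain ⟨R, hR⟩ := exists_nat_gt (24 / ε)
  obtain ⟨N₂, hN₂⟩ := exists_nat_ge (2 ^ (p - 2) * (Nat.factorial (p - 1) : ℝ) / (ε / 8))
  obtain ⟨N₀, hN₀⟩ := hSml p (ε / 8) hp (by linarith) (by linarith)
  refine ⟨N₀ + p * R + N₂, (R : ℝ) ^ p, ?_⟩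
  intro k m M a T hT hk1 hk2 hC hk3
  by_contra hw
  have hw' : wil k m M a T ≤ 0 := not_lt.1 hw
  have hε8 : 0 < ε / 8 := by linarith
  have hRε : 24 < (R : ℝ) * ε := (div_lt_iff₀ hε).1 hR
  have hR1 : 1 ≤ R := by
    by_contra h
    have h0 : R = 0 := by omega
    rw [h0, Nat.cast_zero, zero_mul] at hRε
    linarith
  have hfac : (0 : ℝ) < (Nat.factorial (p - 1) : ℝ) := by exact_mod_cast Nat.factorial_pos _
  have hN₂' : 2 ^ (p - 2) * (Nat.factorial (p - 1) : ℝ) ≤ N₂ * (ε / 8) := (div_le_iff₀ hε8).1 hN₂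
  have hN₂0 : (0 : ℝ) < N₂ := by
    have h1 : (0 : ℝ) < N₂ * (ε / 8) := lt_of_lt_of_le (by positivity) hN₂'
    exact (pos_iff_pos_of_mul_pos h1).2 hε8
  -- the hypotheses of `St_Sml`
  have hNk : N₀ + p * R + N₂ ≤ k := by
    refine le_trans ?_ hk1
    exact Nat.le_mul_of_pos_right _ (by positivity)
  have h0a : N₀ * (Nat.log 2 m + 1) ^ 3 ≤ k :=
    (Nat.mul_le_mul_right _ (by omega)).trans hk1
  have h0b : (N₀ * (Nat.log 2 m + 1)) ^ (p + 1) * m < k ^ (p + 1) :=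
    lt_of_le_of_lt (Nat.mul_le_mul_right _ (Nat.pow_le_pow_left (Nat.mul_le_mul_right _
      (by omega)) _)) hk2
  obtain ⟨s1, s2, s3, s4, s5, s6⟩ := hN₀ k m M a T hT hw' h0a h0b
  have hpR : p * R ≤ k := by omega
  have hkp : 1 ≤ k := by
    have : 1 * 1 ≤ p * R := Nat.mul_le_mul (by omega) hR1
    omega
  have hkr : (1 : ℝ) ≤ k := by exact_mod_cast hkp
  have hm : 1 ≤ m := by
    rw [← hT.card]
    exact card_pos.2 ⟨0, hT.zero⟩
  have hmr : (0 : ℝ) < m := by exact_mod_cast hm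
  have hpr : (2 : ℝ) ≤ p := by exact_mod_cast hp
  -- the bound for `Lw`
  have hb : ((k : ℝ) + 1) ^ (p - 2) ≤ ε / 8 * m := by
    have a1 : ((k : ℝ) + 1) ^ (p - 2) ≤ 2 ^ (p - 2) * (k : ℝ) ^ (p - 2) := by
      rw [← mul_pow]
      exact pow_le_pow_left₀ (by positivity) (by linarith) _
    have a2 : (N₂ : ℝ) * (k : ℝ) ^ (p - 2) ≤ (k : ℝ) ^ (p - 1) := by
      have e1 : p - 1 = (p - 2) + 1 := by omega
      rw [e1, pow_succ']
      have h1 : (N₂ : ℝ) ≤ k := by exact_mod_cast (by omega : N₂ ≤ k)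
      exact mul_le_mul_of_nonneg_right h1 (by positivity)
    have a3 : (k : ℝ) ^ (p - 1) ≤ (Nat.factorial (p - 1) : ℝ) * m := by
      refine hk3.trans ?_
      have h1 : (1 - ε) * ((Nat.factorial (p - 1) : ℝ) * m) ≤ 1 * ((Nat.factorial (p - 1) : ℝ) * m) :=
        mul_le_mul_of_nonneg_right (by linarith) (by positivity)
      linarith
    have a4 : (N₂ : ℝ) * ((k : ℝ) + 1) ^ (p - 2) ≤ N₂ * (ε / 8 * m) := by
      calc (N₂ : ℝ) * ((k : ℝ) + 1) ^ (p - 2) ≤ N₂ * (2 ^ (p - 2) * (k : ℝ) ^ (p - 2)) :=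
            mul_le_mul_of_nonneg_left a1 hN₂0.le
        _ = 2 ^ (p - 2) * (N₂ * (k : ℝ) ^ (p - 2)) := by ring
        _ ≤ 2 ^ (p - 2) * ((Nat.factorial (p - 1) : ℝ) * m) :=
            mul_le_mul_of_nonneg_left (a2.trans a3) (by positivity)
        _ = (2 ^ (p - 2) * (Nat.factorial (p - 1) : ℝ)) * m := by ring
        _ ≤ (N₂ * (ε / 8)) * m := mul_le_mul_of_nonneg_right hN₂' hmr.le
        _ = N₂ * (ε / 8 * m) := by ring
    exact le_of_mul_le_mul_left a4 hN₂0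
  obtain ⟨-, hl2⟩ := hLow k T p (by omega)
  have hl3 : (Nat.factorial (p - 1) : ℝ) * (Lw T p).card ≤
      (k : ℝ) ^ (p - 1) + (Nat.factorial (p - 1) : ℝ) * ((k : ℝ) + 1) ^ (p - 2) := by
    exact_mod_cast hl2 hp
  have hLo : ((Lw T p).card : ℝ) ≤ (1 - ε + ε / 8) * m := by
    have h1 : (Nat.factorial (p - 1) : ℝ) * (Lw T p).card ≤
        (Nat.factorial (p - 1) : ℝ) * ((1 - ε + ε / 8) * m) := by
      have h2 := mul_le_mul_of_nonneg_left hb hfac.le
      calc (Nat.factorial (p - 1) : ℝ) * (Lw T p).card ≤ (k : ℝ) ^ (p - 1) +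
            (Nat.factorial (p - 1) : ℝ) * ((k : ℝ) + 1) ^ (p - 2) := hl3
        _ ≤ (1 - ε) * ((Nat.factorial (p - 1) : ℝ) * m) +
            (Nat.factorial (p - 1) : ℝ) * (ε / 8 * m) := add_le_add hk3 h2
        _ = _ := by ring
    exact le_of_mul_le_mul_left h1 hfac
  have hTl : ε / 2 * m ≤ ((Tl T p).card : ℝ) := by
    have h1 : 0 < ε * m := by positivity
    linarith
  -- the shadow
  obtain ⟨x, hxk, hx1, hx2⟩ := hShd k T hT.down p (by omega)
  have hTlm : (Tl T p).card ≤ m := by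
    rw [← hT.card]
    exact card_le_card (filter_subset _ _)
  have hJl : (Jl T (p - 1)).card ≤ (JJ T).card := card_le_card (filter_subset _ _)
  have h5 : (x + 1 - p) ^ p ≤ p.factorial * m := by
    calc (x + 1 - p) ^ p ≤ x.descFactorial p := Nat.pow_sub_le_descFactorial x p
      _ = p.factorial * x.choose p := Nat.descFactorial_eq_factorial_mul_choose x p
      _ ≤ p.factorial * m := Nat.mul_le_mul_left _ (hx1.trans hTlm)
  have hC' : R ^ p * (p.factorial * m) < k ^ p := by exact_mod_cast hC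
  have h6 : R * (x + 1 - p) < k := by
    have h7 : (R * (x + 1 - p)) ^ p < k ^ p := by
      rw [mul_pow]
      exact lt_of_le_of_lt (Nat.mul_le_mul_left _ h5) hC'
    exact lt_of_pow_lt_pow_left₀ _ (Nat.zero_le _) h7
  have h7 : R * (x + 1) ≤ 2 * k := by
    have h8 : R * (x + 1) ≤ R * ((x + 1 - p) + p) := Nat.mul_le_mul_left _ (by omega)
    have h9 : R * ((x + 1 - p) + p) = R * (x + 1 - p) + p * R := by ring
    omega
  have h8 : (R : ℝ) * ((x : ℝ) + 1) ≤ 2 * k := by exact_mod_cast h7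
  have h9 : (p : ℝ) * (Tl T p).card ≤ ((x : ℝ) + 1) * (JJ T).card := by
    exact_mod_cast hx2.trans (Nat.mul_le_mul_left _ hJl)
  have h10 : (p : ℝ) * (R * (Tl T p).card) ≤ p * (6 * m) := by
    calc (p : ℝ) * (R * (Tl T p).card) = R * (p * (Tl T p).card) := by ring
      _ ≤ R * (((x : ℝ) + 1) * (JJ T).card) := mul_le_mul_of_nonneg_left h9 (by positivity)
      _ = (R * ((x : ℝ) + 1)) * (JJ T).card := by ring
      _ ≤ (2 * k) * (JJ T).card := mul_le_mul_of_nonneg_right h8 (by positivity)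
      _ = 2 * (k * (JJ T).card) := by ring
      _ ≤ 2 * ((2 * p + ε / 8) * m) := mul_le_mul_of_nonneg_left s3 (by norm_num)
      _ ≤ 2 * ((3 * p) * m) := by
          refine mul_le_mul_of_nonneg_left ?_ (by norm_num)
          exact mul_le_mul_of_nonneg_right (by linarith) hmr.le
      _ = p * (6 * m) := by ring
  have h11 : (R : ℝ) * (Tl T p).card ≤ 6 * m := le_of_mul_le_mul_left h10 (by linarith)
  have h12 : (R : ℝ) * (ε / 2 * m) ≤ 6 * m :=
    (mul_le_mul_of_nonneg_left hTl (by positivity)).trans h11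
  have h13 : ((R : ℝ) * ε) * m ≤ 12 * m := by linarith
  have h14 := le_of_mul_le_mul_right h13 hmr
  linarith

end Pool.Agent.WLK
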