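import Pool.Agent.WLK.St

/-!
# WLK, Pro: the two parts together
-/

set_option autoImplicit false

namespace Pool.Agent.WLK

open Finset

theorem thm_Pro (hPrA : St_PrA) (hPrB : St_PrB) : St_Pro := by
  intro p ε hp hε hε1
  obtain ⟨N, C, hB⟩ := hPrB p ε hp hε hε1
  obtain ⟨N', hA⟩ := hPrA p ε C hp hε hε1
  refine ⟨max N N', ?_⟩
  intro k m M a T hT h1 h2 h3 h4
  have key : ∀ N'' : ℕ, N'' ≤ max N N' → N'' * (Nat.log 2 m + 1) ^ 3 ≤ k ∧
      (N'' * (Nat.log 2 m + 1)) ^ (p + 1) * m < k ^ (p + 1) := fun N'' h =>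
    ⟨(Nat.mul_le_mul_right _ h).trans h1, lt_of_le_of_lt (Nat.mul_le_mul_right _
      (Nat.pow_le_pow_left (Nat.mul_le_mul_right _ h) _)) h2⟩
  by_cases h5 : (k : ℝ) ^ p ≤ C * ((Nat.factorial p : ℝ) * m)
  · obtain ⟨k1, k2⟩ := key N' (le_max_right _ _)
    exact hA k m M a T hT k1 k2 h3 h5
  · obtain ⟨k1, k2⟩ := key N (le_max_left _ _)
    exact hB k m M a T hT k1 k2 (not_le.1 h5) h4

end Pool.Agent.WLK
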