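import Pool.Agent.WLK.St

/-!
# WLK, module Res (helper31)
-/

set_option autoImplicit false

namespace Pool.Agent.WLK

open Finset

private theorem Res_sw {k : ℕ} (a x : Fin k → ℕ) (i : Fin k) :
    sw a (x + Pi.single i 1) = sw a x + a i := by
  unfold sw
  simp only [Pi.add_apply, mul_add, Finset.sum_add_distrib, Pi.single_apply, mul_ite, mul_one,
    mul_zero, Finset.sum_ite_eq', Finset.mem_univ, if_true]

private theorem Res_pos {k m M : ℕ} {a : Fin k → ℕ} {T : Finset (Fin k → ℕ)} (h : Ty m M a T) :
    0 < m := by
  rw [← h.card]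
  exact Finset.card_pos.mpr ⟨0, h.zero⟩

private theorem Res_decomp {k m M : ℕ} {a : Fin k → ℕ} {T : Finset (Fin k → ℕ)} (h : Ty m M a T)
    (x : Fin k → ℕ) (hx : x ∈ T) : sw a x + m * ff m M a x + rr m M a x = M := by
  have h1 := Nat.div_add_mod (M - sw a x) m
  have h2 := h.le x hx
  unfold ff rr
  omega

private theorem Res_rr_inj {k m M : ℕ} {a : Fin k → ℕ} {T : Finset (Fin k → ℕ)} (h : Ty m M a T)
    (x : Fin k → ℕ) (hx : x ∈ T) (y : Fin k → ℕ) (hy : y ∈ T) (hxy : rr m M a x = rr m M a y) :
    x = y := by
  refine h.inj x hx y hy ?_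
  have h1 := Res_decomp h x hx
  have h2 := Res_decomp h y hy
  have h3 : sw a x + m * ff m M a x = sw a y + m * ff m M a y := by omega
  have h4 : (sw a x + m * ff m M a x) % m = (sw a y + m * ff m M a y) % m := by rw [h3]
  simpa [Nat.add_mul_mod_self_left] using h4

private theorem Res_image {k m M : ℕ} {a : Fin k → ℕ} {T : Finset (Fin k → ℕ)} (h : Ty m M a T) :
    T.image (rr m M a) = range m := by
  have hm := Res_pos h
  refine Finset.eq_of_subset_of_card_le ?_ ?_
  · intro r hr
    obtain ⟨x, -, rfl⟩ := Finset.mem_image.mp hr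
    exact Finset.mem_range.mpr (Nat.mod_lt _ hm)
  · rw [Finset.card_image_of_injOn (fun x hx y hy hxy => Res_rr_inj h x hx y hy hxy), h.card,
      Finset.card_range]

private theorem Res_sum {k m M : ℕ} {a : Fin k → ℕ} {T : Finset (Fin k → ℕ)} (h : Ty m M a T)
    (g : ℕ → ℝ) : ∑ x ∈ T, g (rr m M a x) = ∑ r ∈ range m, g r := by
  rw [← Res_image h, Finset.sum_image (fun x hx y hy hxy => Res_rr_inj h x hx y hy hxy)]

theorem thm_Res : St_Res := by
  intro k m M a T h
  have hm := Res_pos h
  refine ⟨Res_decomp h, fun x => Nat.mod_lt _ hm, Res_sum h, ?_, ?_, fun i x => Res_sw a x i, ?_⟩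
  · have h1 := Res_sum h (fun r => (r : ℝ))
    rw [h1]
    have h2 : ∀ n : ℕ, 2 * ∑ r ∈ range n, (r : ℝ) = n * ((n : ℝ) - 1) := by
      intro n
      induction n with
      | zero => simp
      | succ n ih =>
        rw [Finset.sum_range_succ, mul_add, ih]
        push_cast
        ring
    exact h2 m
  · intro x hx hnu
    obtain ⟨i, hi⟩ := Finset.card_pos.mp hnu
    have h1 : x + Pi.single i 1 ∈ T := (Finset.mem_filter.mp hi).2
    have h2 := h.le _ h1
    rw [Res_sw] at h2
    have h3 := h.gt i
    unfold ff
    rw [Nat.le_div_iff_mul_le hm]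
    omega
  · have hne : ∀ i : Fin k, (0 : Fin k → ℕ) ≠ Pi.single i 1 := by
      intro i hi
      have := congrFun hi i
      simp at this
    have hinj : Function.Injective (fun o : Option (Fin k) =>
        (o.elim 0 (fun i => Pi.single i 1) : Fin k → ℕ)) := by
      intro o o' ho
      cases o with
      | none =>
        cases o' with
        | none => rfl
        | some j => exact absurd ho (hne j)
      | some i =>
        cases o' with
        | none => exact absurd ho.symm (hne i)
        | some j =>
          have h1 := congrFun ho j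
          simp only [Option.elim, Pi.single_apply, if_true] at h1
          by_cases hij : j = i
          · rw [hij]
          · rw [if_neg hij] at h1
            exact absurd h1 (by norm_num)
    have h1 : (univ.map ⟨_, hinj⟩ : Finset (Fin k → ℕ)) ⊆ T := by
      intro x hx
      obtain ⟨o, -, rfl⟩ := Finset.mem_map.mp hx
      cases o with
      | none => exact h.zero
      | some i => exact h.one i
    have h2 := Finset.card_le_card h1
    rw [Finset.card_map, Finset.card_univ, Fintype.card_option, Fintype.card_fin, h.card] at h2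
    exact h2

end Pool.Agent.WLK
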