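import Pool.Agent.WLK.St
import Pool.Agent.WLF.Ape

/-!
# WLK Sem: numerical semigroups and the parametrisation (helper76)
-/

set_option autoImplicit false

namespace Pool.Agent.WLK

open Finset Pool.Agent.Helper60.Wilf Pool.Agent.Helper82.Wilf

theorem thm_Sem : St_Sem := by
  classical
  intro S c m k A H hA hcard hc
  obtain ⟨a, T, hgt, hTc, hone, hdown, hinj, himg⟩ :=
    Pool.Agent.WLF.thm_Ape S c m k A H hA hcard
  have hm0 : 0 < m := H.hm0
  have hmem : ∀ x ∈ T, sw a x ∈ insert 0 (A0 S c m) := by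
    intro x hx
    rw [← himg]
    exact Finset.mem_image_of_mem (fun x : Fin k → ℕ => ∑ i, a i * x i) hx
  have hlt : ∀ x ∈ T, sw a x < c + m := fun x hx => (mem_ins H (hmem x hx)).2.1
  have hzero : (0 : Fin k → ℕ) ∈ T := by
    have h1 : T.Nonempty := by
      rw [← Finset.card_pos, hTc]
      exact hm0
    obtain ⟨x, hx⟩ := h1
    exact hdown x hx 0 (fun i => Nat.zero_le _)
  have hty : Ty m (c + m - 1) a T := by
    refine ⟨hgt, hone, hzero, hdown, ?_, ?_, hTc⟩
    · intro x hx
      have := hlt x hx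
      omega
    · intro x hx y hy hxy
      have h1 := Nat.div_add_mod (sw a x) m
      have h2 := Nat.div_add_mod (sw a y) m
      have h3 : sw a x + (sw a y / m) * m = sw a y + (sw a x / m) * m := by
        rw [Nat.mul_comm (sw a y / m) m, Nat.mul_comm (sw a x / m) m]
        omega
      have h4 := (ins_inj H (hmem x hx) (hmem y hy) h3).1
      exact hinj x hx y hy h4
  refine ⟨a, T, hty, ?_⟩
  intro hw
  have hn : (elF S 0 c).card = ∑ x ∈ T, ff m (c + m - 1) a x := by
    rw [card_left H, ← Finset.sum_insert (zero_notMem_A0 H), ← himg,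
      Finset.sum_image (fun x hx y hy h => hinj x hx y hy h)]
    exact Finset.sum_congr rfl fun x _ => rfl
  unfold wil at hw
  have h1 : ((c + m - 1 : ℕ) : ℝ) = (c : ℝ) + m - 1 := by
    rw [Nat.cast_sub (by omega), Nat.cast_add, Nat.cast_one]
  have h2 : (∑ x ∈ T, (ff m (c + m - 1) a x : ℝ)) = ((elF S 0 c).card : ℝ) := by
    rw [hn, Nat.cast_sum]
  rw [h1, h2] at hw
  have h3 : (c : ℝ) < ((k : ℝ) + 1) * ((elF S 0 c).card : ℝ) := by linarith
  rw [hcard]
  exact_mod_cast h3

end Pool.Agent.WLK
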