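import Pool.Agent.WLK.St

/-!
# WLK, module Shd: the shadow of the squarefree elements of degree `l`
-/

set_option autoImplicit false

namespace Pool.Agent.WLK

open Finset
open scoped FinsetFamily

private theorem Shd_sum {k : ℕ} (x : Fin k → ℕ) (hx : ∀ i, x i ≤ 1) : ∑ i, x i = (su x).card := by
  have h : ∀ i, x i = if x i ≠ 0 then 1 else 0 := by
    intro i
    have := hx i
    split_ifs with h0
    · omega
    · push Not at h0
      exact h0
  calc ∑ i, x i = ∑ i, (if x i ≠ 0 then 1 else 0) := Finset.sum_congr rfl fun i _ => h i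
    _ = (su x).card := by
      unfold su
      rw [Finset.card_filter]

private theorem Shd_inj {k : ℕ} (x y : Fin k → ℕ) (hx : ∀ i, x i ≤ 1) (hy : ∀ i, y i ≤ 1)
    (h : su x = su y) : x = y := by
  funext i
  have h1 : i ∈ su x ↔ i ∈ su y := by rw [h]
  have h2 : x i ≠ 0 ↔ y i ≠ 0 := by
    have hxi : i ∈ su x ↔ x i ≠ 0 :=
      ⟨fun q => (Finset.mem_filter.1 q).2, fun q => Finset.mem_filter.2 ⟨mem_univ _, q⟩⟩
    have hyi : i ∈ su y ↔ y i ≠ 0 :=
      ⟨fun q => (Finset.mem_filter.1 q).2, fun q => Finset.mem_filter.2 ⟨mem_univ _, q⟩⟩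
    rw [← hxi, ← hyi]
    exact h1
  have h3 := hx i
  have h4 := hy i
  by_cases h5 : x i = 0
  · by_cases h6 : y i = 0
    · rw [h5, h6]
    · exact absurd h5 (h2.2 h6)
  · have h6 := h2.1 h5
    omega

theorem thm_Shd : St_Shd := by
  intro k T hT l hl
  -- the family of the supports
  have hA : ((Tl T l).image su).card = (Tl T l).card := by
    refine Finset.card_image_of_injOn ?_
    intro x hx y hy h
    have hx' := (Finset.mem_filter.1 (Finset.mem_coe.1 hx)).2.1
    have hy' := (Finset.mem_filter.1 (Finset.mem_coe.1 hy)).2.1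
    exact Shd_inj x y hx' hy' h
  have hsz : (((Tl T l).image su : Finset (Finset (Fin k))) : Set (Finset (Fin k))).Sized l := by
    intro s hs
    obtain ⟨x, hx, rfl⟩ := Finset.mem_image.1 (Finset.mem_coe.1 hs)
    obtain ⟨_, hx1, hx2⟩ := Finset.mem_filter.1 hx
    rw [← Shd_sum x hx1, hx2]
  have hsh : (∂ ((Tl T l).image su)).card ≤ (Jl T (l - 1)).card := by
    have hsub : ∂ ((Tl T l).image su) ⊆ (Jl T (l - 1)).image su := by
      intro t ht
      obtain ⟨s, hs, i, hi, hit⟩ := Finset.mem_shadow_iff.1 ht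
      obtain ⟨x, hx, rfl⟩ := Finset.mem_image.1 hs
      obtain ⟨hxT, hx1, hx2⟩ := Finset.mem_filter.1 hx
      have hxi : x i ≠ 0 := (Finset.mem_filter.1 hi).2
      have hxi1 : x i = 1 := by
        have := hx1 i
        omega
      have hadd : (fun j => x j - (Pi.single i 1 : Fin k → ℕ) j) + Pi.single i 1 = x := by
        funext j
        show x j - (Pi.single i 1 : Fin k → ℕ) j + (Pi.single i 1 : Fin k → ℕ) j = x j
        refine Nat.sub_add_cancel ?_
        by_cases h : j = i
        · subst h
          rw [Pi.single_eq_same]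
          omega
        · rw [Pi.single_eq_of_ne h]
          exact Nat.zero_le _
      have hyT : (fun j => x j - (Pi.single i 1 : Fin k → ℕ) j) ∈ T :=
        hT x hxT _ fun j => Nat.sub_le _ _
      have hy1 : ∀ j, x j - (Pi.single i 1 : Fin k → ℕ) j ≤ 1 := fun j =>
        (Nat.sub_le _ _).trans (hx1 j)
      have hysum : ∑ j, (x j - (Pi.single i 1 : Fin k → ℕ) j) + 1 = l := by
        have h1 : ∑ j, ((fun j => x j - (Pi.single i 1 : Fin k → ℕ) j) + Pi.single i 1 : Fin k → ℕ) j
            = ∑ j, x j := by rw [hadd]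
        have h2 : ∑ j, ((fun j => x j - (Pi.single i 1 : Fin k → ℕ) j) + Pi.single i 1 : Fin k → ℕ) j
            = ∑ j, (x j - (Pi.single i 1 : Fin k → ℕ) j) + ∑ j, (Pi.single i 1 : Fin k → ℕ) j := by
          rw [← Finset.sum_add_distrib]
          rfl
        have h3 : ∑ j, (Pi.single i 1 : Fin k → ℕ) j = 1 := by
          rw [Finset.sum_pi_single']
          simp
        rw [h3] at h2
        rw [← h2, h1, hx2]
      refine Finset.mem_image.2 ⟨fun j => x j - (Pi.single i 1 : Fin k → ℕ) j, ?_, ?_⟩
      · refine Finset.mem_filter.2 ⟨Finset.mem_filter.2 ⟨hyT, ?_⟩, hy1, ?_⟩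
        · refine Finset.card_pos.2 ⟨i, Finset.mem_filter.2 ⟨mem_univ _, ?_⟩⟩
          rw [hadd]
          exact hxT
        · show ∑ j, (x j - (Pi.single i 1 : Fin k → ℕ) j) = l - 1
          omega
      · rw [← hit]
        ext j
        rw [Finset.mem_erase]
        have e1 : j ∈ su (fun j => x j - (Pi.single i 1 : Fin k → ℕ) j) ↔
            x j - (Pi.single i 1 : Fin k → ℕ) j ≠ 0 :=
          ⟨fun q => (Finset.mem_filter.1 q).2, fun q => Finset.mem_filter.2 ⟨mem_univ _, q⟩⟩
        have e2 : j ∈ su x ↔ x j ≠ 0 :=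
          ⟨fun q => (Finset.mem_filter.1 q).2, fun q => Finset.mem_filter.2 ⟨mem_univ _, q⟩⟩
        rw [e1, e2]
        by_cases h : j = i
        · subst h
          rw [Pi.single_eq_same]
          constructor
          · intro h7
            exfalso
            omega
          · intro h7
            exact absurd rfl h7.1
        · rw [Pi.single_eq_of_ne h]
          constructor
          · intro h7
            exact ⟨h, by omega⟩
          · intro h7
            have := h7.2
            omega
    exact (Finset.card_le_card hsub).trans Finset.card_image_le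
  by_cases hemp : (Tl T l).card = 0
  · refine ⟨0, Nat.zero_le _, ?_, ?_⟩
    · rw [hemp, Nat.choose_eq_zero_of_lt (by omega)]
    · rw [hemp, Nat.mul_zero]
      exact Nat.zero_le _
  have hpos : 1 ≤ (Tl T l).card := Nat.one_le_iff_ne_zero.2 hemp
  have hup : (Tl T l).card ≤ k.choose l := by
    rw [← hA]
    have h1 := hsz.card_le
    rw [Fintype.card_fin] at h1
    exact h1
  have hlk : l ≤ k := by
    by_contra hlt
    push Not at hlt
    rw [Nat.choose_eq_zero_of_lt hlt] at hup
    omega
  set x := Nat.findGreatest (fun x => x.choose l ≤ (Tl T l).card) k with hxdef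
  have hxk : x ≤ k := Nat.findGreatest_le k
  have hlx : l ≤ x := Nat.le_findGreatest hlk (by rw [Nat.choose_self]; exact hpos)
  have hPx : x.choose l ≤ (Tl T l).card :=
    Nat.findGreatest_spec (P := fun x => x.choose l ≤ (Tl T l).card) hlk
      (by rw [Nat.choose_self]; exact hpos)
  have hKK : x.choose (l - 1) ≤ (∂ ((Tl T l).image su)).card := by
    have h1 := Finset.kruskal_katona_lovasz_form (𝒜 := (Tl T l).image su) (i := 1) hl hlx hxk hsz
      (by rw [hA]; exact hPx)
    exact h1
  have hnext : (Tl T l).card ≤ (x + 1).choose l := by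
    rcases Nat.lt_or_ge x k with h | h
    · have h1 := Nat.findGreatest_is_greatest (P := fun x => x.choose l ≤ (Tl T l).card)
        (n := k) (k := x + 1) (Nat.lt_succ_self x) h
      exact (not_le.1 h1).le
    · have hxe : x = k := le_antisymm hxk h
      rw [hxe]
      exact hup.trans (Nat.choose_le_choose l (Nat.le_succ k))
  refine ⟨x, hxk, hPx, ?_⟩
  obtain ⟨q, rfl⟩ : ∃ q, l = q + 1 := ⟨l - 1, by omega⟩
  have hid : (x + 1) * x.choose q = (x + 1).choose (q + 1) * (q + 1) := Nat.add_one_mul_choose_eq x q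
  rw [Nat.add_sub_cancel] at hKK hsh ⊢
  calc (q + 1) * (Tl T (q + 1)).card ≤ (q + 1) * (x + 1).choose (q + 1) :=
        Nat.mul_le_mul_left _ hnext
    _ = (x + 1) * x.choose q := by rw [hid, Nat.mul_comm]
    _ ≤ (x + 1) * (Jl T q).card := Nat.mul_le_mul_left _ (hKK.trans hsh)

end Pool.Agent.WLK
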