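import Pool.Agent.WLK.St

/-!
# WLK, module Sml: the error terms are small
-/

set_option autoImplicit false

namespace Pool.Agent.WLK

open Finset

private theorem Sml_km {k m M : ℕ} {a : Fin k → ℕ} {T : Finset (Fin k → ℕ)} (h : Ty m M a T) :
    k ≤ m := by
  rw [← h.card]
  have hinj : Function.Injective (fun i : Fin k => (Pi.single i 1 : Fin k → ℕ)) := by
    intro i j hij
    by_contra hne
    have h1 : (Pi.single i 1 : Fin k → ℕ) i = (Pi.single j 1 : Fin k → ℕ) i :=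
      congrFun hij i
    rw [Pi.single_eq_same, Pi.single_eq_of_ne hne] at h1
    exact one_ne_zero h1
  have hsub : (univ : Finset (Fin k)).image (fun i : Fin k => (Pi.single i 1 : Fin k → ℕ)) ⊆ T := by
    intro x hx
    obtain ⟨i, _, rfl⟩ := Finset.mem_image.1 hx
    exact h.one i
  calc k = (univ : Finset (Fin k)).card := by rw [Finset.card_univ, Fintype.card_fin]
    _ = ((univ : Finset (Fin k)).image (fun i : Fin k => (Pi.single i 1 : Fin k → ℕ))).card :=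
      (Finset.card_image_of_injective _ hinj).symm
    _ ≤ T.card := Finset.card_le_card hsub

/-- the arithmetic with real numbers -/
private theorem Sml_ar (p δ k m J N₁ Lo B L K N S t : ℝ) (hp : 2 ≤ p) (hδ : 0 < δ) (hδ1 : δ ≤ 1)
    (hJ : 0 ≤ J) (hN₁ : 0 ≤ N₁) (hB : 0 ≤ B) (hL : 0 ≤ L) (hN0 : 0 ≤ N)
    (hK : 20 * (p + 1) ≤ (K - 2) * δ) (hN : 100 * (p + 2) ≤ N * δ) (hk : N * (L + 1) ^ 3 ≤ k)
    (hkm : k ≤ m)
    (h1 : k * J ≤ 2 * (L * m)) (h2 : N₁ ≤ L * J) (h3 : k * J ≤ 2 * (p * m + B + L * N₁))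
    (h4 : (K - 2) * B ≤ 2 * (p * m + L * N₁))
    (h5 : S ≤ (p / 2 - 1) * m + p + 2 * B + (L + p) * N₁ + 2 * p * Lo + 2 * p * J)
    (h6 : k * J ≤ (3 * p / 2 - 1) * m + p + 3 * B + (2 * L + p) * N₁ + 2 * p * Lo + 2 * p * J)
    (h7 : m ≤ Lo + t + B + N₁) :
    J ≤ δ * m ∧ N₁ ≤ δ * m ∧ k * J ≤ (2 * p + δ) * m ∧
    S ≤ (p / 2 - 1 + δ) * m + 2 * p * Lo ∧
    k * J ≤ (3 * p / 2 - 1 + δ) * m + 2 * p * Lo ∧ (1 - δ) * m ≤ Lo + t := by
  have hL1 : 1 ≤ L + 1 := by linarith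
  have hL1' : 0 < L + 1 := by linarith
  have hcube : 1 ≤ (L + 1) ^ 3 := one_le_pow₀ hL1
  have hNk : N ≤ k := by nlinarith
  have hm0 : 0 ≤ m := le_trans hN0 (le_trans hNk hkm)
  have hδm : 0 ≤ δ * m := mul_nonneg hδ.le hm0
  have hδm1 : δ * m ≤ m := by nlinarith
  -- the basic bound
  have b1 : N * (L + 1) ^ 2 * J ≤ 2 * m := by
    have e1 : N * (L + 1) ^ 3 * J ≤ 2 * (L * m) := (mul_le_mul_of_nonneg_right hk hJ).trans h1
    have e2 : (L + 1) * (N * (L + 1) ^ 2 * J) ≤ (L + 1) * (2 * m) := by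
      have e3 : (L + 1) * (N * (L + 1) ^ 2 * J) = N * (L + 1) ^ 3 * J := by ring
      rw [e3]
      linarith
    exact le_of_mul_le_mul_left e2 hL1'
  have b2 : 100 * (p + 2) * ((L + 1) ^ 2 * J) ≤ 2 * (δ * m) := by
    have hq : 0 ≤ (L + 1) ^ 2 * J := by positivity
    have e1 : 100 * (p + 2) * ((L + 1) ^ 2 * J) ≤ N * δ * ((L + 1) ^ 2 * J) :=
      mul_le_mul_of_nonneg_right hN hq
    have e2 : N * δ * ((L + 1) ^ 2 * J) = δ * (N * (L + 1) ^ 2 * J) := by ring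
    have e3 : δ * (N * (L + 1) ^ 2 * J) ≤ δ * (2 * m) := mul_le_mul_of_nonneg_left b1 hδ.le
    linarith
  have b3 : (p + 2) * ((L + 1) ^ 2 * J) ≤ δ * m / 50 := by linarith
  have b4 : (p + 2) * J ≤ δ * m / 50 := by
    have e1 : J ≤ (L + 1) ^ 2 * J := by
      have : 1 ≤ (L + 1) ^ 2 := one_le_pow₀ hL1
      nlinarith
    have e2 : (p + 2) * J ≤ (p + 2) * ((L + 1) ^ 2 * J) :=
      mul_le_mul_of_nonneg_left e1 (by linarith)
    linarith
  have b5 : (p + 2) * ((L + 1) * N₁) ≤ δ * m / 50 := by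
    have e1 : (L + 1) * N₁ ≤ (L + 1) ^ 2 * J := by
      have f1 : (L + 1) * N₁ ≤ (L + 1) * (L * J) := mul_le_mul_of_nonneg_left h2 hL1'.le
      have f2 : (L + 1) ^ 2 * J - (L + 1) * (L * J) = (L + 1) * J := by ring
      have f3 : 0 ≤ (L + 1) * J := mul_nonneg hL1'.le hJ
      linarith
    have e2 : (p + 2) * ((L + 1) * N₁) ≤ (p + 2) * ((L + 1) ^ 2 * J) :=
      mul_le_mul_of_nonneg_left e1 (by linarith)
    linarith
  have hLN : 0 ≤ L * N₁ := mul_nonneg hL hN₁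
  have hpN : 0 ≤ p * N₁ := mul_nonneg (by linarith) hN₁
  have hpLN : 0 ≤ p * (L * N₁) := mul_nonneg (by linarith) hLN
  have b5' : p * (L * N₁) + p * N₁ + 2 * (L * N₁) + 2 * N₁ ≤ δ * m / 50 := by
    have e1 : (p + 2) * ((L + 1) * N₁) = p * (L * N₁) + p * N₁ + 2 * (L * N₁) + 2 * N₁ := by ring
    rw [← e1]
    exact b5
  have b4' : p * J + 2 * J ≤ δ * m / 50 := by
    have e1 : (p + 2) * J = p * J + 2 * J := by ring
    rw [← e1]
    exact b4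
  have hpJ : 0 ≤ p * J := mul_nonneg (by linarith) hJ
  have b6 : B ≤ δ * m / 10 := by
    have e1 : 20 * (p + 1) * B ≤ (K - 2) * δ * B := mul_le_mul_of_nonneg_right hK hB
    have e2 : (K - 2) * δ * B = δ * ((K - 2) * B) := by ring
    have e3 : δ * ((K - 2) * B) ≤ δ * (2 * (p * m + L * N₁)) := mul_le_mul_of_nonneg_left h4 hδ.le
    have e4 : L * N₁ ≤ m := by linarith
    have e5 : δ * (2 * (p * m + L * N₁)) ≤ δ * (2 * (p * m + m)) :=
      mul_le_mul_of_nonneg_left (by linarith) hδ.le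
    have e6 : (20 * (p + 1)) * B ≤ (20 * (p + 1)) * (δ * m / 10) := by
      have e7 : (20 * (p + 1)) * (δ * m / 10) = δ * (2 * (p * m + m)) := by ring
      rw [e7]
      linarith
    exact le_of_mul_le_mul_left e6 (by linarith)
  have b7 : p ≤ δ * m / 100 := by
    have e1 : N * δ ≤ m * δ := mul_le_mul_of_nonneg_right (hNk.trans hkm) hδ.le
    have e2 : m * δ = δ * m := mul_comm _ _
    linarith
  have g3 : (2 * p + δ) * m = 2 * (p * m) + δ * m := by ring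
  have g4 : (p / 2 - 1 + δ) * m = (p / 2 - 1) * m + δ * m := by ring
  have g5 : (3 * p / 2 - 1 + δ) * m = (3 * p / 2 - 1) * m + δ * m := by ring
  have g6 : (1 - δ) * m = m - δ * m := by ring
  have g7 : (L + p) * N₁ = L * N₁ + p * N₁ := by ring
  have g8 : (2 * L + p) * N₁ = 2 * (L * N₁) + p * N₁ := by ring
  have g9 : 2 * p * J = 2 * (p * J) := by ring
  refine ⟨by linarith, by linarith, ?_, ?_, ?_, ?_⟩
  · rw [g3]
    linarith
  · rw [g4]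
    linarith
  · rw [g5]
    linarith
  · rw [g6]
    linarith

theorem thm_Sml (hErr : St_Err) (hCnd : St_Cnd) (_hRes : St_Res) : St_Sml := by
  intro p δ hp hδ hδ1
  obtain ⟨K₀, hK₀⟩ := exists_nat_ge (20 * ((p : ℝ) + 1) / δ)
  obtain ⟨N₀, hN₀⟩ := exists_nat_ge (100 * ((p : ℝ) + 2) / δ)
  refine ⟨N₀ + 2 * (K₀ + 3), ?_⟩
  intro k m M a T hTy hw hk1 hk2
  have hm1 : 1 ≤ m := by
    rw [← hTy.card]
    exact Finset.card_pos.2 ⟨0, hTy.zero⟩
  have hkm : k ≤ m := Sml_km hTy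
  have hcond : ∀ l x : ℕ, p < l → l ≤ Nat.log 2 m → x.choose l ≤ m → (x + 1) * (K₀ + 3) ≤ k := by
    refine hCnd k m p (K₀ + 3) hm1 (by omega) (lt_of_le_of_lt ?_ hk2)
    refine Nat.mul_le_mul_right _ (Nat.pow_le_pow_left (Nat.mul_le_mul_right _ ?_) _)
    omega
  obtain ⟨h1, h2, h3, h4, h5, h6, h7⟩ := hErr k m M a T hTy hw p (K₀ + 3) hp (by omega) hcond
    (JJ T).card (Ns T).card (Lw T p).card (∑ y ∈ Hg T p, (sp y : ℝ)) (Nat.log 2 m)
    rfl rfl rfl rfl rfl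
  have hp' : (2 : ℝ) ≤ p := by exact_mod_cast hp
  have hKr : 20 * ((p : ℝ) + 1) ≤ (((K₀ + 3 : ℕ) : ℝ) - 2) * δ := by
    rw [div_le_iff₀ hδ] at hK₀
    push_cast
    nlinarith
  have hNr : 100 * ((p : ℝ) + 2) ≤ ((N₀ + 2 * (K₀ + 3) : ℕ) : ℝ) * δ := by
    rw [div_le_iff₀ hδ] at hN₀
    have hK0 : (0 : ℝ) ≤ (K₀ : ℝ) := Nat.cast_nonneg _
    have e1 : (0 : ℝ) ≤ (K₀ : ℝ) * δ := mul_nonneg hK0 hδ.le
    push_cast
    nlinarith
  have hkr : ((N₀ + 2 * (K₀ + 3) : ℕ) : ℝ) * (((Nat.log 2 m : ℕ) : ℝ) + 1) ^ 3 ≤ (k : ℝ) := by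
    exact_mod_cast hk1
  exact Sml_ar p δ k m (JJ T).card (Ns T).card (Lw T p).card (∑ y ∈ Hg T p, (sp y : ℝ))
    (Nat.log 2 m) ((K₀ + 3 : ℕ) : ℝ) ((N₀ + 2 * (K₀ + 3) : ℕ) : ℝ)
    (∑ x ∈ T, ((k : ℝ) - nu T x) * ff m M a x) (Tl T p).card hp' hδ hδ1
    (Nat.cast_nonneg _) (Nat.cast_nonneg _) (Finset.sum_nonneg fun _ _ => Nat.cast_nonneg _)
    (Nat.cast_nonneg _) (Nat.cast_nonneg _) hKr hNr hkr (by exact_mod_cast hkm)
    h1 h2 h3 h4 h5 h6 h7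

end Pool.Agent.WLK
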