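import Pool.Agent.WLK.St

/-!
# WLK, module Sup: the supports of the elements of a down-set are small
-/

set_option autoImplicit false

namespace Pool.Agent.WLK

open Finset

theorem thm_Sup : St_Sup := by
  intro k T hT x hx
  have h1 : 2 ^ sp x ≤ T.card := by
    have hc : ((su x).powerset).card = 2 ^ sp x := Finset.card_powerset _
    rw [← hc]
    refine Finset.card_le_card_of_injOn (fun A : Finset (Fin k) => fun i => if i ∈ A then 1 else 0)
      ?_ ?_
    · intro A hA
      have hA' := Finset.mem_powerset.1 (Finset.mem_coe.1 hA)
      refine Finset.mem_coe.2 (hT x hx _ fun i => ?_)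
      show (if i ∈ A then 1 else 0) ≤ x i
      by_cases h : i ∈ A
      · rw [if_pos h]
        exact Nat.one_le_iff_ne_zero.2 (Finset.mem_filter.1 (hA' h)).2
      · rw [if_neg h]
        exact Nat.zero_le _
    · intro A _ B _ hAB
      ext i
      have h := congrFun hAB i
      change (if i ∈ A then 1 else 0) = (if i ∈ B then 1 else 0) at h
      by_cases hA : i ∈ A
      · rw [if_pos hA] at h
        by_cases hB : i ∈ B
        · exact ⟨fun _ => hB, fun _ => hA⟩
        · rw [if_neg hB] at h
          exact absurd h (by norm_num)
      · rw [if_neg hA] at h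
        by_cases hB : i ∈ B
        · rw [if_pos hB] at h
          exact absurd h (by norm_num)
        · exact ⟨fun h => absurd h hA, fun h => absurd h hB⟩
  exact ⟨h1, Nat.le_log_of_pow_le (by norm_num) h1⟩

end Pool.Agent.WLK
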