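import Pool.Agent.WLK.St

/-!
# WLK, module TBa (MP_05ec03_nt): pairs in an almost complete graph
-/

set_option autoImplicit false

namespace Pool.Agent.WLK

open Finset

/-- the pairs `i < j` -/
private def TBa_W (k : ℕ) : Finset (Fin k × Fin k) := univ.filter fun e => e.1 < e.2

private theorem TBa_card (k : ℕ) : 2 * (TBa_W k).card ≤ k * k := by
  have h1 : Disjoint (TBa_W k) ((TBa_W k).image Prod.swap) := by
    rw [disjoint_left]
    intro e he he2
    obtain ⟨f, hf, rfl⟩ := mem_image.1 he2
    have h3 := (mem_filter.1 he).2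
    have h4 := (mem_filter.1 hf).2
    simp only [Prod.fst_swap, Prod.snd_swap] at h3
    exact absurd h3 (not_lt.2 h4.le)
  have h2 : (TBa_W k ∪ (TBa_W k).image Prod.swap).card ≤ k * k := by
    have h := card_le_univ (TBa_W k ∪ (TBa_W k).image Prod.swap)
    simp only [Fintype.card_prod, Fintype.card_fin] at h
    exact h
  rw [card_union_of_disjoint h1, card_image_of_injective _ Prod.swap_injective] at h2
  omega

theorem thm_TBa : St_TBa := by
  intro k m b E hG
  have hEW : E ⊆ TBa_W k := fun e he => mem_filter.2 ⟨mem_univ _, (hG.rg e he).1⟩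
  have hWE : ((TBa_W k \ E).card : ℝ) ≤ 8 / 10 ^ 10 * m := by
    have h1 : (TBa_W k \ E).card + E.card = (TBa_W k).card := card_sdiff_add_card_eq_card hEW
    have h2 : ((TBa_W k \ E).card : ℝ) + E.card = (TBa_W k).card := by exact_mod_cast h1
    have h3 : 2 * ((TBa_W k).card : ℝ) ≤ (k : ℝ) * k := by exact_mod_cast TBa_card k
    have h4 := hG.kk
    have h5 := hG.ee
    nlinarith
  have key : ∀ (p : Fin k × Fin k → Prop) [DecidablePred p],
      (((TBa_W k).filter p).card : ℝ) ≤ (E.filter p).card + 8 / 10 ^ 10 * m := by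
    intro p _
    have h1 : (TBa_W k).filter p ⊆ E.filter p ∪ (TBa_W k \ E) := by
      intro e he
      obtain ⟨h2, h3⟩ := mem_filter.1 he
      by_cases h : e ∈ E
      · exact mem_union_left _ (mem_filter.2 ⟨h, h3⟩)
      · exact mem_union_right _ (mem_sdiff.2 ⟨h2, h⟩)
    have h2 := (card_le_card h1).trans (card_union_le _ _)
    have h3 : (((TBa_W k).filter p).card : ℝ) ≤ (E.filter p).card + (TBa_W k \ E).card := by
      exact_mod_cast h2
    linarith
  refine ⟨fun X Y hXY => ?_, fun X => ?_⟩
  · refine le_trans ?_ (key fun e => (e.1 ∈ X ∧ e.2 ∈ Y) ∨ (e.1 ∈ Y ∧ e.2 ∈ X))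
    have h1 : (X ×ˢ Y).card ≤
        ((TBa_W k).filter fun e => (e.1 ∈ X ∧ e.2 ∈ Y) ∨ (e.1 ∈ Y ∧ e.2 ∈ X)).card := by
      refine card_le_card_of_injOn (fun e => if e.1 < e.2 then e else e.swap) ?_ ?_
      · intro e he
        obtain ⟨hx, hy⟩ := mem_product.1 (mem_coe.1 he)
        have hne : e.1 ≠ e.2 := by
          intro h
          rw [h] at hx
          exact disjoint_left.1 hXY hx hy
        apply mem_coe.2
        apply mem_filter.2
        by_cases h : e.1 < e.2
        · simp only [h, if_true]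
          exact ⟨mem_filter.2 ⟨mem_univ _, h⟩, Or.inl ⟨hx, hy⟩⟩
        · simp only [h, if_false]
          exact ⟨mem_filter.2 ⟨mem_univ _, lt_of_le_of_ne (not_lt.1 h) hne.symm⟩, Or.inr ⟨hy, hx⟩⟩
      · intro e he f hf hef
        obtain ⟨hx, hy⟩ := mem_product.1 (mem_coe.1 he)
        obtain ⟨hx', hy'⟩ := mem_product.1 (mem_coe.1 hf)
        simp only at hef
        by_cases h : e.1 < e.2 <;> by_cases h' : f.1 < f.2
        · simpa only [h, h', if_true] using hef
        · simp only [h, h', if_true, if_false] at hef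
          rw [hef] at hx
          exact absurd hy' (disjoint_left.1 hXY hx)
        · simp only [h, h', if_true, if_false] at hef
          rw [← hef] at hx'
          exact absurd hy (disjoint_left.1 hXY hx')
        · simp only [h, h', if_false] at hef
          exact Prod.swap_injective hef
    rw [card_product] at h1
    exact_mod_cast h1
  · refine le_trans ?_ (key fun e => e.1 ∈ X ∧ e.2 ∈ X)
    have h1 : X.offDiag ⊆ ((TBa_W k).filter fun e => e.1 ∈ X ∧ e.2 ∈ X) ∪
        (((TBa_W k).filter fun e => e.1 ∈ X ∧ e.2 ∈ X).image Prod.swap) := by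
      intro e he
      obtain ⟨hx, hy, hne⟩ := mem_offDiag.1 he
      rcases lt_or_gt_of_ne hne with h | h
      · exact mem_union_left _ (mem_filter.2 ⟨mem_filter.2 ⟨mem_univ _, h⟩, hx, hy⟩)
      · exact mem_union_right _ (mem_image.2 ⟨e.swap,
          mem_filter.2 ⟨mem_filter.2 ⟨mem_univ _, h⟩, hy, hx⟩, Prod.swap_swap e⟩)
    have h2 := (card_le_card h1).trans (card_union_le _ _)
    have h3 : (((TBa_W k).filter fun e => e.1 ∈ X ∧ e.2 ∈ X).image Prod.swap).card ≤
        ((TBa_W k).filter fun e => e.1 ∈ X ∧ e.2 ∈ X).card := card_image_le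
    have h4 : X.offDiag.card + X.card = X.card * X.card := by
      rw [offDiag_card]
      exact Nat.sub_add_cancel (Nat.le_mul_self _)
    have h5 : (X.offDiag.card : ℝ) + X.card = X.card * X.card := by exact_mod_cast h4
    have h6 : (X.offDiag.card : ℝ) ≤ 2 * (((TBa_W k).filter fun e => e.1 ∈ X ∧ e.2 ∈ X).card : ℝ) := by
      have : X.offDiag.card ≤ 2 * ((TBa_W k).filter fun e => e.1 ∈ X ∧ e.2 ∈ X).card := by omega
      exact_mod_cast this
    linarith

end Pool.Agent.WLK
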