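import Pool.Agent.WLK.St

/-!
# WLK/TBb: the distribution of the sums of the edges (helper85)
-/

set_option autoImplicit false

namespace Pool.Agent.WLK

open Finset

theorem thm_TBb : St_TBb := by
  intro k m b E hG u v hu huv hv
  have hφ : ∀ e ∈ E, 2 * ((b e.1 + b e.2) / 2) = b e.1 + b e.2 := by
    intro e he
    obtain ⟨-, -, -, r, hr⟩ := hG.rg e he
    omega
  obtain ⟨φ, hφd⟩ : ∃ φ : Fin k × Fin k → ℤ, ∀ e, φ e = (b e.1 + b e.2) / 2 := ⟨_, fun _ => rfl⟩
  have hφ2 : ∀ e ∈ E, 2 * φ e = b e.1 + b e.2 := by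
    intro e he
    rw [hφd]
    exact hφ e he
  have hinj : Set.InjOn φ (E : Set (Fin k × Fin k)) := by
    intro e he f hf hef
    refine hG.inj e he f hf ?_
    rw [← hφ2 e he, ← hφ2 f hf, hef]
  obtain ⟨F, hF⟩ : ∃ F : Finset (Fin k × Fin k), F = E.filter fun e => u ≤ b e.1 + b e.2 ∧ b e.1 + b e.2 < v := ⟨_, rfl⟩
  rw [← hF]
  have hFE : F ⊆ E := by
    rw [hF]
    exact Finset.filter_subset _ _
  have hJ : ∀ e ∈ E, e ∈ F ↔ φ e ∈ Finset.Ico ((u + 1) / 2) ((v + 1) / 2) := by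
    intro e he
    have h := hφ2 e he
    rw [hF, Finset.mem_filter, Finset.mem_Ico]
    constructor
    · rintro ⟨-, h1, h2⟩
      constructor <;> omega
    · rintro ⟨h1, h2⟩
      exact ⟨he, by omega, by omega⟩
  have hcF : (F.image φ).card = F.card := Finset.card_image_of_injOn (hinj.mono (Finset.coe_subset.mpr hFE))
  have hcE : (E.image φ).card = E.card := Finset.card_image_of_injOn hinj
  have hle : F.card ≤ (Finset.Ico ((u + 1) / 2) ((v + 1) / 2)).card := by
    rw [← hcF]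
    refine Finset.card_le_card ?_
    intro n hn
    obtain ⟨e, he, rfl⟩ := Finset.mem_image.mp hn
    exact (hJ e (hFE he)).mp he
  have hcI : ((Finset.Ico ((u + 1) / 2) ((v + 1) / 2)).card : ℤ) = (v + 1) / 2 - (u + 1) / 2 := by
    rw [Int.card_Ico]
    omega
  have hsub : Finset.Ico ((u + 1) / 2) ((v + 1) / 2) \ F.image φ ⊆ Finset.Ico 0 (m : ℤ) \ E.image φ := by
    intro n hn
    rw [Finset.mem_sdiff] at hn ⊢
    obtain ⟨hn1, hn2⟩ := hn
    refine ⟨?_, ?_⟩
    · rw [Finset.mem_Ico] at hn1 ⊢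
      omega
    · intro hc
      obtain ⟨e, he, rfl⟩ := Finset.mem_image.mp hc
      exact hn2 (Finset.mem_image_of_mem _ ((hJ e he).mpr hn1))
  have hEI : E.image φ ⊆ Finset.Ico 0 (m : ℤ) := by
    intro n hn
    obtain ⟨e, he, rfl⟩ := Finset.mem_image.mp hn
    have h := hφ2 e he
    obtain ⟨-, h1, h2, -⟩ := hG.rg e he
    rw [Finset.mem_Ico]
    omega
  have hc1 : (Finset.Ico 0 (m : ℤ) \ E.image φ).card + (E.image φ).card = (Finset.Ico 0 (m : ℤ)).card :=
    Finset.card_sdiff_add_card_eq_card hEI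
  have hc2 : (Finset.Ico 0 (m : ℤ)).card = m := by
    rw [Int.card_Ico]
    omega
  have hc3 : (Finset.Ico ((u + 1) / 2) ((v + 1) / 2)).card ≤
      (Finset.Ico ((u + 1) / 2) ((v + 1) / 2) \ F.image φ).card + (F.image φ).card :=
    Finset.card_le_card_sdiff_add_card
  have hc4 := Finset.card_le_card hsub
  have hee := hG.ee
  -- everything in the integers, then in the reals
  have h1 : 2 * (F.card : ℤ) ≤ v - u + 2 := by
    have h : (F.card : ℤ) ≤ (v + 1) / 2 - (u + 1) / 2 := by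
      rw [← hcI]
      exact_mod_cast hle
    omega
  have h2 : v - u - 2 + 2 * (E.card : ℤ) ≤ 2 * (F.card : ℤ) + 2 * (m : ℤ) := by
    have h : ((v + 1) / 2 - (u + 1) / 2 : ℤ) + (E.card : ℤ) ≤ (F.card : ℤ) + (m : ℤ) := by
      rw [← hcI]
      have : (Finset.Ico ((u + 1) / 2) ((v + 1) / 2)).card + E.card ≤ F.card + m := by
        rw [← hcF, ← hcE]
        omega
      exact_mod_cast this
    omega
  have h1' : 2 * (F.card : ℝ) ≤ v - u + 2 := by exact_mod_cast h1
  have h2' : (v : ℝ) - u - 2 + 2 * (E.card : ℝ) ≤ 2 * (F.card : ℝ) + 2 * (m : ℝ) := by exact_mod_cast h2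
  constructor
  · linarith
  · linarith

end Pool.Agent.WLK
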