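import Pool.Agent.WLK.St

/-!
# WLK.TBc (helper19): there is no almost complete graph on about the square root of twice `m` vertices
whose edges have different sums modulo `2 m`
-/

set_option autoImplicit false

namespace Pool.Agent.WLK

open Finset

/-- the number of the edges between two sets -/
private theorem TBc_btw {k : ℕ} (E : Finset (Fin k × Fin k)) (hE : ∀ e ∈ E, e.1 < e.2)
    (X Y : Finset (Fin k)) :
    (E.filter fun e => (e.1 ∈ X ∧ e.2 ∈ Y) ∨ (e.1 ∈ Y ∧ e.2 ∈ X)).card ≤ X.card * Y.card := by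
  rw [← card_product]
  refine card_le_card_of_injOn (fun e => if e.1 ∈ X ∧ e.2 ∈ Y then e else (e.2, e.1)) ?_ ?_
  · intro e he
    have he' := (mem_filter.mp (mem_coe.mp he)).2
    by_cases h : e.1 ∈ X ∧ e.2 ∈ Y
    · simp [h]
    · have h2 : e.1 ∈ Y ∧ e.2 ∈ X := by tauto
      simp only [if_neg h]
      simpa using ⟨h2.2, h2.1⟩
  · intro e he f hf hef
    have he' := mem_filter.mp (mem_coe.mp he)
    have hf' := mem_filter.mp (mem_coe.mp hf)
    have e1 := hE e he'.1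
    have f1 := hE f hf'.1
    by_cases h : e.1 ∈ X ∧ e.2 ∈ Y
    · by_cases g : f.1 ∈ X ∧ f.2 ∈ Y
      · simpa [h, g] using hef
      · simp only [if_pos h, if_neg g] at hef
        rw [hef] at e1
        exact absurd e1 (not_lt.mpr f1.le)
    · by_cases g : f.1 ∈ X ∧ f.2 ∈ Y
      · simp only [if_neg h, if_pos g] at hef
        rw [← hef] at f1
        exact absurd f1 (not_lt.mpr e1.le)
      · simp only [if_neg h, if_neg g] at hef
        have h1 := congrArg Prod.fst hef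
        have h2 := congrArg Prod.snd hef
        exact Prod.ext h2 h1

/-- the number of the edges in a set -/
private theorem TBc_ins {k : ℕ} (E : Finset (Fin k × Fin k)) (hE : ∀ e ∈ E, e.1 < e.2)
    (X : Finset (Fin k)) :
    2 * (E.filter fun e => e.1 ∈ X ∧ e.2 ∈ X).card ≤ X.card * X.card := by
  set S := E.filter fun e => e.1 ∈ X ∧ e.2 ∈ X with hS
  have h1 : (S.image Prod.swap).card = S.card :=
    card_image_of_injective _ Prod.swap_injective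
  have h2 : Disjoint S (S.image Prod.swap) := by
    rw [disjoint_left]
    intro e he hf
    obtain ⟨f, hf1, hf2⟩ := mem_image.mp hf
    have e1 := hE e (mem_filter.mp he).1
    have f1 := hE f (mem_filter.mp hf1).1
    rw [← hf2] at e1
    exact absurd e1 (not_lt.mpr f1.le)
  have h3 : S ∪ S.image Prod.swap ⊆ X ×ˢ X := by
    intro e he
    rcases mem_union.mp he with he | he
    · exact mem_product.mpr (mem_filter.mp he).2
    · obtain ⟨f, hf1, hf2⟩ := mem_image.mp he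
      have := (mem_filter.mp hf1).2
      rw [← hf2]
      exact mem_product.mpr ⟨this.2, this.1⟩
  have h4 := card_le_card h3
  rw [card_union_of_disjoint h2, h1, card_product] at h4
  omega

/-- the number of the edges with an end in a set -/
private theorem TBc_end {k : ℕ} (E : Finset (Fin k × Fin k)) (Y : Finset (Fin k)) :
    (E.filter fun e => e.1 ∈ Y ∨ e.2 ∈ Y).card ≤ 2 * (Y.card * k) := by
  have h3 : (E.filter fun e => e.1 ∈ Y ∨ e.2 ∈ Y) ⊆ (Y ×ˢ univ) ∪ (univ ×ˢ Y) := by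
    intro e he
    rcases (mem_filter.mp he).2 with h | h
    · exact mem_union_left _ (mem_product.mpr ⟨h, mem_univ _⟩)
    · exact mem_union_right _ (mem_product.mpr ⟨mem_univ _, h⟩)
  have h4 := (card_le_card h3).trans (card_union_le _ _)
  rw [card_product, card_product, card_univ, Fintype.card_fin] at h4
  linarith [mul_comm k Y.card]

/-- a set without edges is small -/
private theorem TBc_sml (w y : ℝ) (hw : 10 ^ 7 ≤ w) (hy : 0 ≤ y)
    (h : y * (y - 1) / 2 ≤ 8 / 10 ^ 10 * w ^ 2) : y ≤ w / 10 ^ 4 := by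
  by_contra hc
  push Not at hc
  have h1 : w / 10 ^ 4 - 1 ≤ y - 1 := by linarith
  have h2 : (0 : ℝ) ≤ w / 10 ^ 4 - 1 := by linarith
  have h3 : w / 10 ^ 4 * (w / 10 ^ 4 - 1) ≤ y * (y - 1) :=
    mul_le_mul hc.le h1 h2 hy
  nlinarith

theorem thm_TBc (hTBa : St_TBa) (hTBb : St_TBb) (hTwR : St_TwR) : St_TBc := by
  intro k m b E G
  have hE : ∀ e ∈ E, e.1 < e.2 := fun e he => (G.rg e he).1
  obtain ⟨a1, a2⟩ := hTBa k m b E G
  have b0 := hTBb k m b E G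
  have hm : (10 : ℝ) ^ 14 ≤ m := by exact_mod_cast G.big
  set w : ℝ := Real.sqrt m with hwdef
  have hw2 : w ^ 2 = m := Real.sq_sqrt (by positivity)
  have hw : (10 : ℝ) ^ 7 ≤ w := by
    rw [hwdef]
    apply Real.le_sqrt_of_sq_le
    linarith [hm]
  have hw0 : 0 ≤ w := by linarith
  have hk : (k : ℝ) ≤ 3 / 2 * w := by
    have h1 := G.kk
    rw [← hw2] at h1
    have h2 : (k : ℝ) ^ 2 ≤ (3 / 2 * w) ^ 2 := by nlinarith
    exact le_of_sq_le_sq h2 (by positivity)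
  -- the exceptional sets
  set Y₁ : Finset (Fin k) := univ.filter fun i => b i < 0 with hY₁
  set Y₂ : Finset (Fin k) := univ.filter fun i => (m : ℤ) ≤ b i with hY₂
  have e1 : (E.filter fun e => e.1 ∈ Y₁ ∧ e.2 ∈ Y₁) = ∅ := by
    rw [filter_eq_empty_iff]
    intro e he h
    have h1 := (mem_filter.mp h.1).2
    have h2 := (mem_filter.mp h.2).2
    have h3 := (G.rg e he).2.1
    omega
  have e2 : (E.filter fun e => e.1 ∈ Y₂ ∧ e.2 ∈ Y₂) = ∅ := by
    rw [filter_eq_empty_iff]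
    intro e he h
    have h1 := (mem_filter.mp h.1).2
    have h2 := (mem_filter.mp h.2).2
    have h3 := (G.rg e he).2.2.1
    omega
  have y1 : (Y₁.card : ℝ) ≤ w / 10 ^ 4 := by
    apply TBc_sml w _ hw (by positivity)
    have := a2 Y₁
    rw [e1, card_empty, Nat.cast_zero, zero_add] at this
    rw [hw2]
    exact this
  have y2 : (Y₂.card : ℝ) ≤ w / 10 ^ 4 := by
    apply TBc_sml w _ hw (by positivity)
    have := a2 Y₂
    rw [e2, card_empty, Nat.cast_zero, zero_add] at this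
    rw [hw2]
    exact this
  set Bd := E.filter fun e => e.1 ∈ Y₁ ∪ Y₂ ∨ e.2 ∈ Y₁ ∪ Y₂ with hBd
  have bd : (Bd.card : ℝ) ≤ 6 / 10 ^ 4 * m := by
    have h1 : (Bd.card : ℝ) ≤ 2 * (((Y₁ ∪ Y₂).card : ℝ) * k) := by
      exact_mod_cast TBc_end E (Y₁ ∪ Y₂)
    have h2 : ((Y₁ ∪ Y₂).card : ℝ) ≤ 2 * (w / 10 ^ 4) := by
      have : ((Y₁ ∪ Y₂).card : ℝ) ≤ Y₁.card + Y₂.card := by exact_mod_cast card_union_le _ _
      linarith
    have h3 : ((Y₁ ∪ Y₂).card : ℝ) * k ≤ 2 * (w / 10 ^ 4) * (3 / 2 * w) :=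
      mul_le_mul h2 hk (by positivity) (by positivity)
    rw [← hw2]
    nlinarith
  -- the quarters
  let X : ℤ → Finset (Fin k) := fun c => univ.filter fun i => c * m ≤ 4 * b i ∧ 4 * b i < (c + 1) * m
  have mX : ∀ (c : ℤ) (i : Fin k), i ∈ X c ↔ c * m ≤ 4 * b i ∧ 4 * b i < (c + 1) * m := by
    intro c i
    simp [X]
  have mY1 : ∀ i : Fin k, i ∈ Y₁ ↔ b i < 0 := by
    intro i
    simp [hY₁]
  have mY2 : ∀ i : Fin k, i ∈ Y₂ ↔ (m : ℤ) ≤ b i := by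
    intro i
    simp [hY₂]
  have cov : ∀ (P : Fin k × Fin k → Prop) [DecidablePred P] (c d : ℤ),
      (∀ e ∈ E, P e → ¬ (e.1 ∈ Y₁ ∪ Y₂) → ¬ (e.2 ∈ Y₁ ∪ Y₂) →
        (e.1 ∈ X c ∧ e.2 ∈ X c) ∨ ((e.1 ∈ X c ∧ e.2 ∈ X d) ∨ (e.1 ∈ X d ∧ e.2 ∈ X c))) →
      ((E.filter P).card : ℝ) ≤ (X c).card ^ 2 / 2 + (X c).card * (X d).card + 6 / 10 ^ 4 * m := by
    intro P _ c d hP
    have h1 : E.filter P ⊆ ((E.filter fun e => e.1 ∈ X c ∧ e.2 ∈ X c) ∪
        (E.filter fun e => (e.1 ∈ X c ∧ e.2 ∈ X d) ∨ (e.1 ∈ X d ∧ e.2 ∈ X c))) ∪ Bd := by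
      intro e he
      obtain ⟨he1, he2⟩ := mem_filter.mp he
      by_cases h : e.1 ∈ Y₁ ∪ Y₂ ∨ e.2 ∈ Y₁ ∪ Y₂
      · exact mem_union_right _ (mem_filter.mpr ⟨he1, h⟩)
      · push Not at h
        rcases hP e he1 he2 h.1 h.2 with h | h
        · exact mem_union_left _ (mem_union_left _ (mem_filter.mpr ⟨he1, h⟩))
        · exact mem_union_left _ (mem_union_right _ (mem_filter.mpr ⟨he1, h⟩))
    have h2 := (card_le_card h1).trans (card_union_le _ _)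
    have h3 := card_union_le (E.filter fun e => e.1 ∈ X c ∧ e.2 ∈ X c)
        (E.filter fun e => (e.1 ∈ X c ∧ e.2 ∈ X d) ∨ (e.1 ∈ X d ∧ e.2 ∈ X c))
    have h4 := TBc_ins E hE (X c)
    have h5 := TBc_btw E hE (X c) (X d)
    have h2' : ((E.filter P).card : ℝ) ≤ (((E.filter fun e => e.1 ∈ X c ∧ e.2 ∈ X c) ∪
        (E.filter fun e => (e.1 ∈ X c ∧ e.2 ∈ X d) ∨ (e.1 ∈ X d ∧ e.2 ∈ X c))).card : ℝ) +
        Bd.card := by exact_mod_cast h2
    have h3' : ((((E.filter fun e => e.1 ∈ X c ∧ e.2 ∈ X c) ∪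
        (E.filter fun e => (e.1 ∈ X c ∧ e.2 ∈ X d) ∨ (e.1 ∈ X d ∧ e.2 ∈ X c))).card : ℕ) : ℝ) ≤
        ((E.filter fun e => e.1 ∈ X c ∧ e.2 ∈ X c).card : ℝ) +
        ((E.filter fun e => (e.1 ∈ X c ∧ e.2 ∈ X d) ∨ (e.1 ∈ X d ∧ e.2 ∈ X c)).card : ℝ) := by
      exact_mod_cast h3
    have h4' : 2 * ((E.filter fun e => e.1 ∈ X c ∧ e.2 ∈ X c).card : ℝ) ≤
        (X c).card * (X c).card := by exact_mod_cast h4
    have h5' : ((E.filter fun e => (e.1 ∈ X c ∧ e.2 ∈ X d) ∨ (e.1 ∈ X d ∧ e.2 ∈ X c)).card : ℝ) ≤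
        (X c).card * (X d).card := by exact_mod_cast h5
    nlinarith
  have r0 : (m : ℝ) / 2 ≤ (((m + 1) / 2 : ℤ) : ℝ) := by
    have : (m : ℤ) ≤ 2 * (((m : ℤ) + 1) / 2) := by omega
    have h : (m : ℝ) ≤ 2 * ((((m : ℤ) + 1) / 2 : ℤ) : ℝ) := by exact_mod_cast this
    linarith
  -- (i)
  have i1 : (1 / 4 - 1 / 1000) * (m : ℝ) ≤ ((X 0).card : ℝ) ^ 2 / 2 + (X 0).card * (X 1).card := by
    have h1 := (b0 0 (((m : ℤ) + 1) / 2) le_rfl (by omega) (by omega)).2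
    have h2 := cov (fun e => 0 ≤ b e.1 + b e.2 ∧ b e.1 + b e.2 < ((m : ℤ) + 1) / 2) 0 1 ?_
    · push_cast at h1
      linarith
    · intro e he hP hy1 hy2
      simp only [mem_union, not_or, mY1, mY2] at hy1 hy2
      simp only [mX]
      omega
  -- (ii)
  have r1 : (((3 * (m : ℤ) + 1) / 2 : ℤ) : ℝ) ≤ (3 * (m : ℝ) + 1) / 2 := by
    have : 2 * ((3 * (m : ℤ) + 1) / 2) ≤ 3 * m + 1 := by omega
    have h : 2 * (((3 * (m : ℤ) + 1) / 2 : ℤ) : ℝ) ≤ 3 * m + 1 := by exact_mod_cast this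
    linarith
  have i2 : (1 / 4 - 1 / 1000) * (m : ℝ) ≤ ((X 3).card : ℝ) ^ 2 / 2 + (X 2).card * (X 3).card := by
    have h1 := (b0 ((3 * (m : ℤ) + 1) / 2) (2 * m) (by omega) (by omega) le_rfl).2
    have h2 := cov (fun e => (3 * (m : ℤ) + 1) / 2 ≤ b e.1 + b e.2 ∧ b e.1 + b e.2 < 2 * m) 3 2 ?_
    · have h3 : (((2 * m : ℤ)) : ℝ) = 2 * m := by push_cast; ring
      rw [h3] at h1
      linarith [mul_comm ((X 2).card : ℝ) (X 3).card]
    · intro e he hP hy1 hy2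
      simp only [mem_union, not_or, mY1, mY2] at hy1 hy2
      simp only [mX]
      omega
  -- (iii)
  have dj : ∀ c d : ℤ, c < d → Disjoint (X c) (X d) := by
    intro c d hcd
    rw [disjoint_left]
    intro i hi hj
    rw [mX] at hi hj
    have h1 : (c + 1) * (m : ℤ) ≤ d * m := mul_le_mul_of_nonneg_right (by omega) (by omega)
    omega
  have c1 : ((X 0 ∪ X 1).card : ℝ) = (X 0).card + (X 1).card := by
    rw [card_union_of_disjoint (dj 0 1 (by norm_num))]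
    push_cast
    ring
  have c2 : ((X 2 ∪ X 3).card : ℝ) = (X 2).card + (X 3).card := by
    rw [card_union_of_disjoint (dj 2 3 (by norm_num))]
    push_cast
    ring
  have r2 : (((3 * (m : ℤ) + 1) / 2 : ℤ) : ℝ) - (((m : ℤ) / 2 : ℤ) : ℝ) ≤ m + 1 := by
    have : (3 * (m : ℤ) + 1) / 2 - (m : ℤ) / 2 ≤ m + 1 := by omega
    exact_mod_cast this
  have i3 : (((X 0).card : ℝ) + (X 1).card) * ((X 2).card + (X 3).card) ≤
      (1 / 2 + 1 / 1000) * m := by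
    rw [← c1, ← c2]
    have hd : Disjoint (X 0 ∪ X 1) (X 2 ∪ X 3) := by
      rw [disjoint_union_left, disjoint_union_right, disjoint_union_right]
      exact ⟨⟨dj 0 2 (by norm_num), dj 0 3 (by norm_num)⟩, dj 1 2 (by norm_num),
        dj 1 3 (by norm_num)⟩
    have h1 := a1 (X 0 ∪ X 1) (X 2 ∪ X 3) hd
    have h2 := (b0 ((m : ℤ) / 2) ((3 * (m : ℤ) + 1) / 2) (by omega) (by omega) (by omega)).1
    have h3 : (E.filter fun e => (e.1 ∈ X 0 ∪ X 1 ∧ e.2 ∈ X 2 ∪ X 3) ∨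
        (e.1 ∈ X 2 ∪ X 3 ∧ e.2 ∈ X 0 ∪ X 1)) ⊆
        E.filter fun e => (m : ℤ) / 2 ≤ b e.1 + b e.2 ∧ b e.1 + b e.2 < (3 * (m : ℤ) + 1) / 2 := by
      intro e he
      obtain ⟨he1, he2⟩ := mem_filter.mp he
      refine mem_filter.mpr ⟨he1, ?_⟩
      simp only [mem_union, mX] at he2
      omega
    have h4 : ((E.filter fun e => (e.1 ∈ X 0 ∪ X 1 ∧ e.2 ∈ X 2 ∪ X 3) ∨
        (e.1 ∈ X 2 ∪ X 3 ∧ e.2 ∈ X 0 ∪ X 1)).card : ℝ) ≤
        (E.filter fun e => (m : ℤ) / 2 ≤ b e.1 + b e.2 ∧ b e.1 + b e.2 < (3 * (m : ℤ) + 1) / 2).card := by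
      exact_mod_cast card_le_card h3
    linarith
  -- (iv)
  have r3 : (((5 * (m : ℤ) + 3) / 4 : ℤ) : ℝ) - ((3 * (m : ℤ) / 4 : ℤ) : ℝ) ≤ (m : ℝ) / 2 + 2 := by
    have : 2 * ((5 * (m : ℤ) + 3) / 4 - 3 * (m : ℤ) / 4) ≤ m + 4 := by omega
    have h : 2 * ((((5 * (m : ℤ) + 3) / 4 : ℤ) : ℝ) - ((3 * (m : ℤ) / 4 : ℤ) : ℝ)) ≤ m + 4 := by
      exact_mod_cast this
    linarith
  have i4 : ((X 0).card : ℝ) * (X 3).card ≤ (1 / 4 + 1 / 1000) * m := by
    have h1 := a1 (X 0) (X 3) (dj 0 3 (by norm_num))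
    have h2 := (b0 (3 * (m : ℤ) / 4) ((5 * (m : ℤ) + 3) / 4) (by omega) (by omega) (by omega)).1
    have h3 : (E.filter fun e => (e.1 ∈ X 0 ∧ e.2 ∈ X 3) ∨ (e.1 ∈ X 3 ∧ e.2 ∈ X 0)) ⊆
        E.filter fun e => 3 * (m : ℤ) / 4 ≤ b e.1 + b e.2 ∧ b e.1 + b e.2 < (5 * (m : ℤ) + 3) / 4 := by
      intro e he
      obtain ⟨he1, he2⟩ := mem_filter.mp he
      refine mem_filter.mpr ⟨he1, ?_⟩
      simp only [mX] at he2
      omega
    have h4 : ((E.filter fun e => (e.1 ∈ X 0 ∧ e.2 ∈ X 3) ∨ (e.1 ∈ X 3 ∧ e.2 ∈ X 0)).card : ℝ) ≤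
        (E.filter fun e => 3 * (m : ℤ) / 4 ≤ b e.1 + b e.2 ∧
          b e.1 + b e.2 < (5 * (m : ℤ) + 3) / 4).card := by
      exact_mod_cast card_le_card h3
    linarith
  exact hTwR m (X 0).card (X 1).card (X 2).card (X 3).card (by linarith) (by positivity)
    (by positivity) (by positivity) (by positivity) i1 i2 i3 i4

end Pool.Agent.WLK
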