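import Pool.Agent.WLK.St

/-!
# WLK: almost all elements of degree two have small distance
-/

set_option autoImplicit false

namespace Pool.Agent.WLK

open Finset

private lemma TwA_inj {k : ℕ} (x y : Fin k → ℕ) (hx : ∀ i, x i ≤ 1) (hy : ∀ i, y i ≤ 1)
    (h : su x = su y) : x = y := by
  funext i
  have h1 : i ∈ su x ↔ i ∈ su y := by rw [h]
  simp only [su, mem_filter, mem_univ, true_and] at h1
  have := hx i
  have := hy i
  by_cases h0 : x i = 0
  · have : y i = 0 := by
      by_contra hc
      exact (h1.2 hc) h0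
    omega
  · have := h1.1 h0
    omega

private lemma TwA_card {k : ℕ} (x : Fin k → ℕ) (hx : ∀ i, x i ≤ 1) : (su x).card = ∑ i, x i := by
  rw [su, card_filter]
  refine sum_congr rfl fun i _ => ?_
  have := hx i
  split_ifs with h <;> omega

/-- the sum of two unit vectors -/
private def TwA_e {k : ℕ} (i j : Fin k) : Fin k → ℕ := Pi.single i 1 + Pi.single j 1

private lemma TwA_e_apply {k : ℕ} (i j l : Fin k) :
    TwA_e i j l = (if l = i then 1 else 0) + (if l = j then 1 else 0) := by
  simp only [TwA_e, Pi.add_apply, Pi.single_apply]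

private lemma TwA_e_le {k : ℕ} (i j : Fin k) (h : i ≠ j) (l : Fin k) : TwA_e i j l ≤ 1 := by
  rw [TwA_e_apply]
  split_ifs with h1 h2 h2
  · exact absurd (h1.symm.trans h2) h
  all_goals omega

private lemma TwA_e_sum {k : ℕ} (i j : Fin k) : ∑ l, TwA_e i j l = 2 := by
  simp only [TwA_e_apply, sum_add_distrib, sum_ite_eq', mem_univ, if_true]

private lemma TwA_e_su {k : ℕ} (i j : Fin k) : su (TwA_e i j) = {i, j} := by
  ext l
  simp only [su, mem_filter, mem_univ, true_and, TwA_e_apply, mem_insert, mem_singleton]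
  split_ifs with h1 h2 h2 <;> simp [h1, h2]

/-- the ordered pairs of different indices whose unit vectors have their sum in `T` -/
private def TwA_P {k : ℕ} (T : Finset (Fin k → ℕ)) : Finset (Fin k × Fin k) :=
  univ.filter fun p => p.1 ≠ p.2 ∧ TwA_e p.1 p.2 ∈ T

private lemma TwA_P_card {k : ℕ} (T : Finset (Fin k → ℕ)) : (TwA_P T).card = 2 * (Tl T 2).card := by
  have h1 : ∀ p ∈ TwA_P T, TwA_e p.1 p.2 ∈ Tl T 2 := by
    intro p hp
    simp only [TwA_P, mem_filter, mem_univ, true_and] at hp
    simp only [Tl, mem_filter]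
    exact ⟨hp.2, TwA_e_le _ _ hp.1, TwA_e_sum _ _⟩
  rw [card_eq_sum_card_fiberwise h1, mul_comm, ← smul_eq_mul, ← sum_const]
  refine sum_congr rfl fun y hy => ?_
  simp only [Tl, mem_filter] at hy
  have h2 : (su y).card = 2 := by rw [TwA_card y hy.2.1, hy.2.2]
  have h3 : ((TwA_P T).filter fun p => TwA_e p.1 p.2 = y) = (su y).offDiag := by
    ext p
    simp only [TwA_P, mem_filter, mem_univ, true_and, mem_offDiag]
    constructor
    · rintro ⟨⟨h, -⟩, h'⟩
      rw [← h', TwA_e_su]
      simp [h]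
    · rintro ⟨ha, hb, hab⟩
      have h4 : TwA_e p.1 p.2 = y := by
        refine TwA_inj _ _ (TwA_e_le _ _ hab) hy.2.1 ?_
        rw [TwA_e_su]
        refine eq_of_subset_of_card_le ?_ ?_
        · intro l hl
          simp only [mem_insert, mem_singleton] at hl
          rcases hl with rfl | rfl
          · exact ha
          · exact hb
        · rw [h2, card_pair hab]
      exact ⟨⟨hab, by rw [h4]; exact hy.1⟩, h4⟩
  rw [h3, offDiag_card, h2]

private lemma TwA_nu {k : ℕ} (T : Finset (Fin k → ℕ)) (i : Fin k) :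
    nu T (Pi.single i 1) ≤ (univ.filter fun j => i ≠ j ∧ TwA_e i j ∈ T).card +
      (if TwA_e i i ∈ T then 1 else 0) := by
  have h1 : up T (Pi.single i 1) ⊆ (univ.filter fun j => i ≠ j ∧ TwA_e i j ∈ T) ∪
      (if TwA_e i i ∈ T then {i} else ∅) := by
    intro j hj
    simp only [up, mem_filter, mem_univ, true_and] at hj
    rw [mem_union]
    by_cases h : i = j
    · right
      subst h
      have h2 : TwA_e i i ∈ T := hj
      rw [if_pos h2]
      exact mem_singleton_self _
    · left
      simp only [mem_filter, mem_univ, true_and]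
      exact ⟨h, hj⟩
  refine (card_le_card h1).trans ((card_union_le _ _).trans (Nat.add_le_add_left ?_ _))
  split_ifs <;> simp

private lemma TwA_sum {k : ℕ} (T : Finset (Fin k → ℕ)) :
    ∑ i, nu T (Pi.single i 1) ≤ 2 * (Tl T 2).card + (Ns T).card := by
  have h1 : ∑ i, (univ.filter fun j => i ≠ j ∧ TwA_e i j ∈ T).card = (TwA_P T).card := by
    have h2 : (TwA_P T).card = ∑ p : Fin k × Fin k, if p.1 ≠ p.2 ∧ TwA_e p.1 p.2 ∈ T then 1 else 0 := by
      rw [TwA_P, card_filter]
    rw [h2, Fintype.sum_prod_type]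
    refine sum_congr rfl fun i _ => ?_
    rw [card_filter]
  have h3 : ∑ i : Fin k, (if TwA_e i i ∈ T then 1 else 0) ≤ (Ns T).card := by
    rw [← card_filter]
    refine card_le_card_of_injOn (fun i => TwA_e i i) ?_ ?_
    · intro i hi
      simp only [coe_filter, mem_univ, true_and, Set.mem_ofPred_eq] at hi
      simp only [Ns, coe_filter, Set.mem_ofPred_eq]
      refine ⟨hi, fun hc => ?_⟩
      have := hc i
      rw [TwA_e_apply] at this
      simp at this
    · intro i _ j _ hij
      have h4 : TwA_e i i i = TwA_e j j i := congrFun hij i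
      rw [TwA_e_apply, TwA_e_apply] at h4
      by_contra hne
      simp [hne] at h4
  calc ∑ i, nu T (Pi.single i 1) ≤ ∑ i, ((univ.filter fun j => i ≠ j ∧ TwA_e i j ∈ T).card +
      (if TwA_e i i ∈ T then 1 else 0)) := sum_le_sum fun i _ => TwA_nu T i
    _ = (TwA_P T).card + ∑ i : Fin k, (if TwA_e i i ∈ T then 1 else 0) := by
      rw [sum_add_distrib, h1]
    _ ≤ 2 * (Tl T 2).card + (Ns T).card := by
      rw [TwA_P_card]
      exact Nat.add_le_add_left h3 _

theorem thm_TwA (hRes : St_Res) (hDbl : St_Dbl) : St_TwA := by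
  intro k m M a T h hT hh0 hh1 hk hTl hNs hJJ hsum
  obtain ⟨-, -, -, -, r5, -, -⟩ := hRes k m M a T hT
  have hnu : ∀ x, nu T x ≤ k := by
    intro x
    have := card_le_univ (up T x)
    rwa [Fintype.card_fin] at this
  have hF : ∀ x, 0 ≤ ((k : ℝ) - nu T x) * ff m M a x := by
    intro x
    have h1 : (nu T x : ℝ) ≤ k := by exact_mod_cast hnu x
    exact mul_nonneg (by linarith) (Nat.cast_nonneg _)
  have hm : (T.card : ℝ) = m := by exact_mod_cast hT.card
  have hm0 : (0 : ℝ) < m := by
    have : 0 < T.card := card_pos.2 ⟨0, hT.zero⟩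
    rw [← hm]
    exact_mod_cast this
  constructor
  · -- the bound of the number of directions
    set B : Finset (Fin k) := univ.filter fun i =>
      ¬ (nu T (Pi.single i 1) = 0 ∧ ff m M a (Pi.single i 1) = 0) with hB
    have hB1 : ∀ i ∈ B, 1 ≤ ff m M a (Pi.single i 1) := by
      intro i hi
      simp only [hB, mem_filter, mem_univ, true_and] at hi
      by_cases h0 : nu T (Pi.single i 1) = 0
      · have : ff m M a (Pi.single i 1) ≠ 0 := fun hc => hi ⟨h0, hc⟩
        omega
      · exact r5 _ (hT.one i) (Nat.pos_of_ne_zero h0)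
    have e1 : ∑ i ∈ B, ((k : ℝ) - nu T (Pi.single i 1)) ≤ h * m := by
      calc ∑ i ∈ B, ((k : ℝ) - nu T (Pi.single i 1))
          ≤ ∑ i ∈ B, ((k : ℝ) - nu T (Pi.single i 1)) * ff m M a (Pi.single i 1) := by
            refine sum_le_sum fun i hi => ?_
            have h1 : (1 : ℝ) ≤ ff m M a (Pi.single i 1) := by exact_mod_cast hB1 i hi
            have h2 : (nu T (Pi.single i 1) : ℝ) ≤ k := by exact_mod_cast hnu _
            nlinarith
        _ = ∑ x ∈ B.image (fun i => (Pi.single i 1 : Fin k → ℕ)),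
              ((k : ℝ) - nu T x) * ff m M a x := by
            rw [sum_image]
            intro i _ j _ hij
            by_contra hne
            have h3 : (Pi.single i 1 : Fin k → ℕ) i = (Pi.single j 1 : Fin k → ℕ) i :=
              congrFun hij i
            simp [hne] at h3
        _ ≤ ∑ x ∈ T, ((k : ℝ) - nu T x) * ff m M a x := by
            refine sum_le_sum_of_subset_of_nonneg ?_ fun x _ _ => hF x
            intro x hx
            obtain ⟨i, -, rfl⟩ := mem_image.1 hx
            exact hT.one i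
        _ ≤ h * m := hsum
    have e2 : ∑ i ∈ B, (nu T (Pi.single i 1) : ℝ) ≤ 2 * (Tl T 2).card + (Ns T).card := by
      have h1 : ∑ i ∈ B, nu T (Pi.single i 1) ≤ ∑ i, nu T (Pi.single i 1) :=
        sum_le_sum_of_subset_of_nonneg (subset_univ _) fun _ _ _ => Nat.zero_le _
      have h2 := h1.trans (TwA_sum T)
      exact_mod_cast h2
    have e3 : (B.card : ℝ) * k ≤ (2 + 2 * h) * m := by
      have h1 : ∑ i ∈ B, ((k : ℝ) - nu T (Pi.single i 1)) =
          B.card * k - ∑ i ∈ B, (nu T (Pi.single i 1) : ℝ) := by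
        rw [sum_sub_distrib, sum_const, nsmul_eq_mul]
      have h2 : ((Tl T 2).card : ℝ) ≤ m := by
        rw [← hm]
        exact_mod_cast card_le_card (filter_subset _ _)
      rw [h1] at e1
      nlinarith
    have e4 : (2 * (Tl T 2).card : ℝ) ≤ (B.card : ℝ) ^ 2 := by
      have h1 : (TwA_P T) ⊆ B ×ˢ B := by
        intro p hp
        simp only [TwA_P, mem_filter, mem_univ, true_and] at hp
        have h2 : ∀ i j : Fin k, TwA_e i j ∈ T → i ∈ B := by
          intro i j hij
          simp only [hB, mem_filter, mem_univ, true_and]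
          rintro ⟨h0, -⟩
          have h3 : j ∈ up T (Pi.single i 1) := by
            simp only [up, mem_filter, mem_univ, true_and]
            exact hij
          have h4 : up T (Pi.single i 1) = ∅ := card_eq_zero.1 h0
          rw [h4] at h3
          exact absurd h3 (notMem_empty _)
        refine mem_product.2 ⟨h2 _ _ hp.2, h2 p.2 p.1 ?_⟩
        have h5 : TwA_e p.2 p.1 = TwA_e p.1 p.2 := add_comm _ _
        rw [h5]
        exact hp.2
      have h2 := card_le_card h1
      rw [TwA_P_card, card_product] at h2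
      have h3 : ((2 * (Tl T 2).card : ℕ) : ℝ) ≤ ((B.card * B.card : ℕ) : ℝ) := by
        exact_mod_cast h2
      push_cast at h3
      nlinarith
    have hk0 : (0 : ℝ) ≤ k := Nat.cast_nonneg _
    have hB0 : (0 : ℝ) ≤ B.card := Nat.cast_nonneg _
    have e5 : 2 * (1 - h) * m ≤ (B.card : ℝ) ^ 2 := by linarith
    have e6 : ((B.card : ℝ) * k) ^ 2 ≤ ((2 + 2 * h) * m) ^ 2 :=
      pow_le_pow_left₀ (mul_nonneg hB0 hk0) e3 2
    have e7 : (k : ℝ) ^ 2 * (2 * (1 - h) * m) ≤ (k : ℝ) ^ 2 * (B.card : ℝ) ^ 2 :=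
      mul_le_mul_of_nonneg_left e5 (sq_nonneg _)
    have e8 : (k : ℝ) ^ 2 * (2 * (1 - h) * m) ≤ ((2 + 2 * h) * m) ^ 2 := by
      calc (k : ℝ) ^ 2 * (2 * (1 - h) * m) ≤ (k : ℝ) ^ 2 * (B.card : ℝ) ^ 2 := e7
        _ = ((B.card : ℝ) * k) ^ 2 := by ring
        _ ≤ _ := e6
    have e9 : (k : ℝ) ^ 2 * (1 - h) ≤ 2 * (1 + h) ^ 2 * m := by
      have h1 : (2 * m : ℝ) * ((k : ℝ) ^ 2 * (1 - h)) ≤ (2 * m : ℝ) * (2 * (1 + h) ^ 2 * m) := by
        calc (2 * m : ℝ) * ((k : ℝ) ^ 2 * (1 - h)) = (k : ℝ) ^ 2 * (2 * (1 - h) * m) := by ring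
          _ ≤ ((2 + 2 * h) * m) ^ 2 := e8
          _ = (2 * m : ℝ) * (2 * (1 + h) ^ 2 * m) := by ring
      exact le_of_mul_le_mul_left h1 (by linarith)
    have e10 : 2 * (1 + h) ^ 2 * (m : ℝ) ≤ (2 * (1 + 5 * h) * m) * (1 - h) := by
      have h1 : (1 + h) ^ 2 ≤ (1 + 5 * h) * (1 - h) := by nlinarith
      nlinarith
    have h1h : 0 < 1 - h := by linarith
    exact le_of_mul_le_mul_right (e9.trans e10) h1h
  · -- the elements of small distance
    set C : Finset (Fin k → ℕ) := (Tl T 2).filter fun y => nu T y = 0 ∧ 1 ≤ ff m M a y with hC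
    have e1 : (Tl T 2) ⊆ EG m M a T ∪ (JJ T ∪ C) := by
      intro y hy
      by_cases h0 : ff m M a y = 0
      · exact mem_union_left _ (mem_filter.2 ⟨hy, h0⟩)
      · refine mem_union_right _ ?_
        by_cases h1 : 0 < nu T y
        · refine mem_union_left _ (mem_filter.2 ⟨(mem_filter.1 hy).1, h1⟩)
        · refine mem_union_right _ (mem_filter.2 ⟨hy, by omega, by omega⟩)
    have e2 : ((Tl T 2).card : ℝ) ≤ (EG m M a T).card + ((JJ T).card + C.card) := by
      have h1 := (card_le_card e1).trans (card_union_le _ _)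
      have h2 := card_union_le (JJ T) C
      have h3 : (Tl T 2).card ≤ (EG m M a T).card + ((JJ T).card + C.card) := by omega
      exact_mod_cast h3
    have e3 : (C.card : ℝ) ≤ h * m := by
      calc (C.card : ℝ) = ∑ x ∈ C, (1 : ℝ) := by simp
        _ ≤ ∑ x ∈ C, ((k : ℝ) - nu T x) * ff m M a x := by
            refine sum_le_sum fun x hx => ?_
            obtain ⟨-, h1, h2⟩ := mem_filter.1 hx
            rw [h1, Nat.cast_zero, sub_zero]
            have h3 : (1 : ℝ) ≤ ff m M a x := by exact_mod_cast h2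
            have h4 : (1 : ℝ) ≤ k := by exact_mod_cast hk
            nlinarith
        _ ≤ ∑ x ∈ T, ((k : ℝ) - nu T x) * ff m M a x := by
            refine sum_le_sum_of_subset_of_nonneg ?_ fun x _ _ => hF x
            intro x hx
            exact (mem_filter.1 (mem_filter.1 hx).1).1
        _ ≤ h * m := hsum
    linarith

end Pool.Agent.WLK
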