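import Pool.Agent.WLK.St

/-!
# WLK: module TwE (MP_05ec03_nt, Wilf's inequality)

An almost complete graph with different edge sums.
-/

set_option autoImplicit false

namespace Pool.Agent.WLK

open Finset

private lemma TwE_sw {k : ℕ} (a : Fin k → ℕ) (i j : Fin k) :
    sw a (Pi.single i 1 + Pi.single j 1) = a i + a j := by
  unfold sw
  simp [Pi.single_apply, mul_add, Finset.sum_add_distrib]

private lemma TwE_ex {k : ℕ} (y : Fin k → ℕ) (h1 : ∀ i, y i ≤ 1) (h2 : ∑ i, y i = 2) :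
    ∃ e : Fin k × Fin k, e.1 < e.2 ∧ (Pi.single e.1 1 + Pi.single e.2 1 : Fin k → ℕ) = y := by
  classical
  have hc : (univ.filter fun i => y i = 1).card = 2 := by
    rw [Finset.card_filter, ← h2]
    refine Finset.sum_congr rfl fun i _ => ?_
    have := h1 i
    split_ifs with h <;> omega
  obtain ⟨i, j, hij, hs⟩ := Finset.card_eq_two.1 hc
  have hy : ∀ l, y l = if l = i ∨ l = j then 1 else 0 := by
    intro l
    have hl := h1 l
    have hm : l ∈ (univ.filter fun i => y i = 1) ↔ l ∈ ({i, j} : Finset (Fin k)) := by rw [hs]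
    simp only [mem_filter, mem_univ, true_and, mem_insert, mem_singleton] at hm
    split_ifs with h
    · exact hm.2 h
    · have : ¬ y l = 1 := fun h' => h (hm.1 h')
      omega
  have key : ∀ p q : Fin k, p ≠ q → (∀ l, y l = if l = p ∨ l = q then 1 else 0) →
      (Pi.single p 1 + Pi.single q 1 : Fin k → ℕ) = y := by
    intro p q hpq h
    funext l
    rw [h l, Pi.add_apply, Pi.single_apply, Pi.single_apply]
    by_cases h1 : l = p
    · have h2 : ¬ l = q := fun h' => hpq (h1.symm.trans h')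
      simp [h1, hpq]
    · by_cases h2 : l = q
      · simp [h2, hpq.symm]
      · simp [h1, h2]
  rcases lt_or_gt_of_ne hij with h | h
  · exact ⟨(i, j), h, key i j hij hy⟩
  · refine ⟨(j, i), h, key j i hij.symm fun l => ?_⟩
    rw [hy l]
    by_cases h1 : l = i <;> by_cases h2 : l = j <;> simp [h1, h2]

private lemma TwE_ij {k : ℕ} (e f : Fin k × Fin k) (he : e.1 < e.2) (hf : f.1 < f.2)
    (h : (Pi.single e.1 1 + Pi.single e.2 1 : Fin k → ℕ) = Pi.single f.1 1 + Pi.single f.2 1) :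
    e = f := by
  classical
  have h1 := congrFun h e.1
  have h2 := congrFun h e.2
  simp only [Pi.add_apply, Pi.single_apply] at h1 h2
  have hne : ¬ e.1 = e.2 := ne_of_lt he
  have hne' : ¬ e.2 = e.1 := fun h => hne h.symm
  simp only [if_true, if_neg hne, if_neg hne'] at h1 h2
  have a1 : e.1 = f.1 ∨ e.1 = f.2 := by
    by_contra hc
    push Not at hc
    rw [if_neg hc.1, if_neg hc.2] at h1
    omega
  have a2 : e.2 = f.1 ∨ e.2 = f.2 := by
    by_contra hc
    push Not at hc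
    rw [if_neg hc.1, if_neg hc.2] at h2
    omega
  rcases a1 with a1 | a1 <;> rcases a2 with a2 | a2
  · exact absurd (a1.trans a2.symm) hne
  · exact Prod.ext a1 a2
  · rw [a1, a2] at he
    exact absurd he (not_lt.2 hf.le)
  · exact absurd (a1.trans a2.symm) hne

theorem thm_TwE (hRes : St_Res) : St_TwE := by
  classical
  intro k m M a T hT hm hk hE
  obtain ⟨hR1, hR2, -, -, -, -, -⟩ := hRes k m M a T hT
  have hb : ∀ e : Fin k × Fin k, ((Pi.single e.1 1 + Pi.single e.2 1 : Fin k → ℕ)) ∈ EG m M a T →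
      ((Pi.single e.1 1 + Pi.single e.2 1 : Fin k → ℕ)) ∈ T ∧
      ∃ r : ℕ, r < m ∧ a e.1 + a e.2 + r = M := by
    intro e he
    unfold EG Tl at he
    simp only [mem_filter] at he
    obtain ⟨⟨hT', -⟩, hf⟩ := he
    refine ⟨hT', rr m M a (Pi.single e.1 1 + Pi.single e.2 1), hR2 _, ?_⟩
    have := hR1 _ hT'
    rw [hf, TwE_sw] at this
    omega
  refine ⟨fun i => (M : ℤ) - 2 * a i,
    univ.filter fun e : Fin k × Fin k => e.1 < e.2 ∧
      (Pi.single e.1 1 + Pi.single e.2 1 : Fin k → ℕ) ∈ EG m M a T, ?_⟩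
  refine ⟨hm, hk, hE.trans ?_, ?_, ?_⟩
  · refine Nat.cast_le.2 ?_
    refine Finset.card_le_card_of_surjOn
      (fun e : Fin k × Fin k => (Pi.single e.1 1 + Pi.single e.2 1 : Fin k → ℕ)) ?_
    intro y hy
    have hy' : y ∈ EG m M a T := hy
    have hyy := hy'
    unfold EG Tl at hyy
    simp only [mem_filter] at hyy
    obtain ⟨⟨-, h1, h2⟩, -⟩ := hyy
    obtain ⟨e, he, hey⟩ := TwE_ex y h1 h2
    refine ⟨e, ?_, hey⟩
    simp only [coe_filter, mem_univ, true_and, Set.mem_setOf_eq]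
    exact ⟨he, by rw [hey]; exact hy'⟩
  · intro e he
    simp only [mem_filter, mem_univ, true_and] at he
    obtain ⟨he1, he2⟩ := he
    obtain ⟨-, r, hr, hM⟩ := hb e he2
    refine ⟨he1, ?_, ?_, ?_⟩
    · show 0 ≤ ((M : ℤ) - 2 * a e.1) + ((M : ℤ) - 2 * a e.2)
      omega
    · show ((M : ℤ) - 2 * a e.1) + ((M : ℤ) - 2 * a e.2) < 2 * m
      omega
    · refine ⟨(M : ℤ) - a e.1 - a e.2, ?_⟩
      show ((M : ℤ) - 2 * a e.1) + ((M : ℤ) - 2 * a e.2) = _
      ring
  · intro e he f hf hef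
    simp only [mem_filter, mem_univ, true_and] at he hf
    have hs : a e.1 + a e.2 = a f.1 + a f.2 := by
      have : ((M : ℤ) - 2 * a e.1) + ((M : ℤ) - 2 * a e.2) =
        ((M : ℤ) - 2 * a f.1) + ((M : ℤ) - 2 * a f.2) := hef
      omega
    refine TwE_ij e f he.1 hf.1 (hT.inj _ (hb e he.2).1 _ (hb f hf.2).1 ?_)
    rw [TwE_sw, TwE_sw, hs]

end Pool.Agent.WLK
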