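import Pool.Agent.WLK.St

/-!
# WLK TwR: four real numbers
-/

set_option autoImplicit false

namespace Pool.Agent.WLK

theorem thm_TwR : St_TwR := by
  intro m x₀ x₁ x₂ x₃ hm h0 h1 h2 h3 e1 e2 e3 e4
  have a1 : (1 / 4 - 1 / 1000) * m + x₀ ^ 2 / 2 ≤ x₀ * (x₀ + x₁) := by nlinarith
  have a2 : (1 / 4 - 1 / 1000) * m + x₃ ^ 2 / 2 ≤ x₃ * (x₂ + x₃) := by nlinarith
  have p1 : 0 ≤ (1 / 4 - 1 / 1000) * m + x₀ ^ 2 / 2 := by positivity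
  have p2 : 0 ≤ (1 / 4 - 1 / 1000) * m + x₃ ^ 2 / 2 := by positivity
  have a3 : ((1 / 4 - 1 / 1000) * m + x₀ ^ 2 / 2) * ((1 / 4 - 1 / 1000) * m + x₃ ^ 2 / 2) ≤
      (x₀ * (x₀ + x₁)) * (x₃ * (x₂ + x₃)) := mul_le_mul a1 a2 p2 (p1.trans a1)
  have a4 : (x₀ * (x₀ + x₁)) * (x₃ * (x₂ + x₃)) = (x₀ * x₃) * ((x₀ + x₁) * (x₂ + x₃)) := by ring
  have s0 : 0 ≤ x₀ * x₃ := mul_nonneg h0 h3
  have a5 : (x₀ * x₃) * ((x₀ + x₁) * (x₂ + x₃)) ≤ (x₀ * x₃) * ((1 / 2 + 1 / 1000) * m) :=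
    mul_le_mul_of_nonneg_left e3 s0
  have a6 : ((1 / 4 - 1 / 1000) * m + x₀ * x₃ / 2) ^ 2 ≤
      ((1 / 4 - 1 / 1000) * m + x₀ ^ 2 / 2) * ((1 / 4 - 1 / 1000) * m + x₃ ^ 2 / 2) := by
    nlinarith [mul_nonneg hm.le (sq_nonneg (x₀ - x₃))]
  have a7 : ((1 / 4 - 1 / 1000) * m + x₀ * x₃ / 2) ^ 2 ≤
      (x₀ * x₃) * ((1 / 2 + 1 / 1000) * m) := by linarith
  generalize x₀ * x₃ = s at *
  have t0 : 0 ≤ (1 / 4 + 1 / 1000) * m - s := by linarith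
  nlinarith [mul_nonneg t0 hm.le, sq_nonneg ((1 / 4 + 1 / 1000) * m - s), mul_pos hm hm]

end Pool.Agent.WLK
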