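import Pool.Agent.WLK.St

/-!
# WLK, module TWO: embedding dimension about the square root of twice the multiplicity
-/

set_option autoImplicit false

namespace Pool.Agent.WLK

open Finset Pool.Agent.Helper60.Wilf Pool.Agent.Helper82.Wilf

theorem thm_Two (hSml : St_Sml) (hLow : St_Low) (hTwA : St_TwA) (hTwE : St_TwE) (hTBc : St_TBc)
    (hRes : St_Res) : St_Two := by
  obtain ⟨N₀, hN₀⟩ := hSml 2 (1 / (2 * 10 ^ 10)) le_rfl (by norm_num) (by norm_num)
  refine ⟨N₀ + 10 ^ 14, ?_⟩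
  intro k m M a T hT h1 h2 h3
  by_contra hw
  have hw' : wil k m M a T ≤ 0 := not_lt.1 hw
  have hL : 1 ≤ (Nat.log 2 m + 1) ^ 3 := Nat.one_le_pow _ _ (Nat.succ_pos _)
  have hk : 10 ^ 14 ≤ k := by
    calc 10 ^ 14 ≤ (N₀ + 10 ^ 14) * 1 := by omega
      _ ≤ (N₀ + 10 ^ 14) * (Nat.log 2 m + 1) ^ 3 := Nat.mul_le_mul_left _ hL
      _ ≤ k := h1
  have hkm : k + 1 ≤ m := (hRes k m M a T hT).2.2.2.2.2.2
  have hA1 : N₀ * (Nat.log 2 m + 1) ^ 3 ≤ k :=
    (Nat.mul_le_mul_right _ (Nat.le_add_right _ _)).trans h1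
  have hA2 : (N₀ * (Nat.log 2 m + 1)) ^ (2 + 1) * m < k ^ (2 + 1) :=
    (Nat.mul_le_mul_right _ (Nat.pow_le_pow_left
      (Nat.mul_le_mul_right _ (Nat.le_add_right _ _)) 3)).trans_lt h2
  obtain ⟨hJ, hN, _, hS, _, hTl⟩ := hN₀ k m M a T hT hw' hA1 hA2
  have hLo : ((Lw T 2).card : ℝ) ≤ 2 * k := by
    have h4 := (hLow k T 2 (by norm_num)).1
    have h5 : (Lw T 2).card ≤ 2 * k := by
      have h6 : (k + 1) ^ (2 - 1) = k + 1 := by norm_num
      rw [h6] at h4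
      omega
    exact_mod_cast h5
  have hk' : (10 : ℝ) ^ 14 ≤ k := by exact_mod_cast hk
  have h3' : (k : ℝ) ^ 2 ≤ 8 * m := by exact_mod_cast h3
  have hkk : (10 : ℝ) ^ 14 * k ≤ 8 * m := by nlinarith
  have hk8 : 8 * (k : ℝ) ≤ 1 / (2 * 10 ^ 10) * m := by
    have hm0 : (0 : ℝ) ≤ m := Nat.cast_nonneg m
    linarith
  have hm0 : (0 : ℝ) ≤ m := Nat.cast_nonneg m
  have hTwo := hTwA k m M a T (1 / 10 ^ 10) hT (by norm_num) (by norm_num) (by omega)
    (by
      have hk0 : (0 : ℝ) ≤ k := Nat.cast_nonneg k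
      linarith)
    (by linarith) (by linarith)
    (by
      push_cast at hS
      linarith)
  obtain ⟨b, E, hG⟩ := hTwE k m M a T hT (by omega)
    (by
      have := hTwo.1
      linarith)
    (by
      have := hTwo.2
      linarith)
  exact hTBc k m b E hG

end Pool.Agent.WLK
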