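import Pool.Agent.WLK.Avg
import Pool.Agent.WLK.Cnd
import Pool.Agent.WLK.Cru
import Pool.Agent.WLK.Dbl
import Pool.Agent.WLK.Err
import Pool.Agent.WLK.Fin
import Pool.Agent.WLK.Gro
import Pool.Agent.WLK.HiL
import Pool.Agent.WLK.Idn
import Pool.Agent.WLK.Lim
import Pool.Agent.WLK.Lin
import Pool.Agent.WLK.Low
import Pool.Agent.WLK.Nsf
import Pool.Agent.WLK.Pnt
import Pool.Agent.WLK.PrA
import Pool.Agent.WLK.PrB
import Pool.Agent.WLK.Pro
import Pool.Agent.WLK.Rbd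
import Pool.Agent.WLK.Res
import Pool.Agent.WLK.Sem
import Pool.Agent.WLK.Shd
import Pool.Agent.WLK.Sml
import Pool.Agent.WLK.Sup
import Pool.Agent.WLK.TBa
import Pool.Agent.WLK.TBb
import Pool.Agent.WLK.TBc
import Pool.Agent.WLK.TwA
import Pool.Agent.WLK.TwE
import Pool.Agent.WLK.TwR
import Pool.Agent.WLK.Two

/-!
# WLK: all modules
-/

set_option autoImplicit false

namespace Pool.Agent.WLK

theorem all_Idn : St_Idn := thm_Idn (thm_Lin thm_Dbl) thm_Res

theorem all_Rbd : St_Rbd := thm_Rbd all_Idn thm_Dbl thm_Res thm_Avg (thm_Pnt thm_Res)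

theorem all_Err : St_Err :=
  thm_Err (thm_Cru all_Idn thm_Dbl thm_Res) thm_Sup thm_Nsf (thm_HiL thm_Shd thm_Sup) all_Rbd
    thm_Dbl thm_Res

theorem all_Sml : St_Sml := thm_Sml all_Err thm_Cnd thm_Res

theorem all_Pro : St_Pro :=
  thm_Pro (thm_PrA all_Sml thm_Shd thm_Low) (thm_PrB all_Sml thm_Shd thm_Low)

theorem all_Two : St_Two :=
  thm_Two all_Sml thm_Low (thm_TwA thm_Res thm_Dbl) (thm_TwE thm_Res)
    (thm_TBc thm_TBa thm_TBb thm_TwR) thm_Res

/-- the theorem for large multiplicity -/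
theorem all_Fin : St_Fin := thm_Fin (thm_Lim thm_Gro) all_Pro all_Two thm_Sem

end Pool.Agent.WLK
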