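import Pool.Agent.WLK.St

/-!
# WLK Avg: the mean of an arithmetic progression modulo `m`
-/

set_option autoImplicit false

namespace Pool.Agent.WLK

open Finset

/-- the reflection of `range m` -/
private def Avg_g (m c r : ℕ) : ℕ := (c + m - r) % m

private theorem Avg_gg {m c r : ℕ} (hr : r < m) : Avg_g m c (Avg_g m c r) = r := by
  unfold Avg_g
  have h1 := Nat.div_add_mod (c + m - r) m
  set k := (c + m - r) / m with hk
  set y := (c + m - r) % m with hy
  have h2 : c + m - y = r + m * k := by omega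
  rw [h2, Nat.add_mul_mod_self_left, Nat.mod_eq_of_lt hr]

private theorem Avg_int (m q M r s c e g k a b A B : ℤ) (hm : 1 ≤ m) (h0 : m * e + s = 2 * M)
    (h11 : m - s ≤ q * c) (h12 : q * c ≤ m - s + q - 1) (h3 : m * k + g = c + m - r)
    (h5 : m * a + A = M + q * r) (h6 : m * b + B = M + q * g) (hA : A < m) (hB : B < m) :
    A + B ≤ m + q - 1 := by
  have hg : g = c + m - r - m * k := by linarith
  have hS : A + B = (s + q * c - m) + m * (1 + e + q - q * k - a - b) := by
    rw [hg] at h6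
    linear_combination h5 + h6 - h0
  obtain ⟨z, hz⟩ : ∃ z : ℤ, z = 1 + e + q - q * k - a - b := ⟨_, rfl⟩
  rw [← hz] at hS
  rcases le_or_gt z 1 with h | h
  · have : m * z ≤ m * 1 := mul_le_mul_of_nonneg_left h (by linarith)
    linarith
  · exfalso
    have : m * 2 ≤ m * z := mul_le_mul_of_nonneg_left (by linarith) (by linarith)
    linarith

private theorem Avg_pair {m q M r : ℕ} (hm : 1 ≤ m) (hq : 1 ≤ q) (hr : r < m) :
    (M + q * r) % m + (M + q * Avg_g m ((m - 2 * M % m + q - 1) / q) r) % m ≤ m + q := by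
  have hs : 2 * M % m < m := Nat.mod_lt _ hm
  have h0 := Nat.div_add_mod (2 * M) m
  obtain ⟨s, hsd⟩ : ∃ s, s = 2 * M % m := ⟨_, rfl⟩
  rw [← hsd] at hs h0 ⊢
  obtain ⟨u, hu⟩ : ∃ u, u = m - s + q - 1 := ⟨_, rfl⟩
  have h1 := Nat.div_add_mod u q
  have h2 : u % q < q := Nat.mod_lt _ hq
  rw [← hu]
  obtain ⟨c, hc⟩ : ∃ c, c = u / q := ⟨_, rfl⟩
  rw [← hc] at h1 ⊢
  have h3 := Nat.div_add_mod (c + m - r) m
  have h4 : Avg_g m c r = (c + m - r) % m := rfl
  rw [← h4] at h3
  have h9 : m - s ≤ q * c := by omega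
  have h10 : q * c + s + 1 ≤ m + q := by omega
  have h3' : m * ((c + m - r) / m) + Avg_g m c r + r = c + m := by omega
  have h5 := Nat.div_add_mod (M + q * r) m
  have h6 := Nat.div_add_mod (M + q * Avg_g m c r) m
  have h7 : (M + q * r) % m < m := Nat.mod_lt _ hm
  have h8 : (M + q * Avg_g m c r) % m < m := Nat.mod_lt _ hm
  zify [hs.le] at h9 h10 h3' h5 h6 h7 h8 h0 hm ⊢
  have h3'' : (m : ℤ) * ((c + m - r : ℕ) / m : ℤ) + (Avg_g m c r : ℤ) = c + m - r := by linarith
  have := Avg_int m q M r s c _ _ _ _ _ _ _ hm h0 h9 (by linarith) h3'' h5 h6 h7 h8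
  linarith

theorem thm_Avg : St_Avg := by
  intro m q M hm hq
  set c := (m - 2 * M % m + q - 1) / q with hc
  have h1 : ∑ r ∈ range m, ((M + q * r) % m) = ∑ r ∈ range m, ((M + q * Avg_g m c r) % m) := by
    symm
    refine Finset.sum_nbij' (Avg_g m c) (Avg_g m c) ?_ ?_ ?_ ?_ ?_
    · intro r _
      exact mem_range.2 (Nat.mod_lt _ hm)
    · intro r _
      exact mem_range.2 (Nat.mod_lt _ hm)
    · intro r hr
      exact Avg_gg (mem_range.1 hr)
    · intro r hr
      exact Avg_gg (mem_range.1 hr)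
    · intro r _
      rfl
  have h2 : 2 * ∑ r ∈ range m, ((M + q * r) % m)
      = ∑ r ∈ range m, ((M + q * r) % m + (M + q * Avg_g m c r) % m) := by
    rw [Finset.sum_add_distrib, ← h1]
    ring
  rw [h2]
  calc ∑ r ∈ range m, ((M + q * r) % m + (M + q * Avg_g m c r) % m)
      ≤ ∑ _r ∈ range m, (m + q) := by
        refine Finset.sum_le_sum fun r hr => ?_
        have := Avg_pair (M := M) hm hq (mem_range.1 hr)
        rw [← hc] at this
        omega
    _ = m * (m + q) := by
        rw [Finset.sum_const, card_range, smul_eq_mul]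

end Pool.Agent.WLK
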