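import Mathlib

/-!
# WLK (helper53): Wilf's inequality for numerical semigroups whose embedding dimension is at least a power
of the multiplicity (MP_05ec03_nt)

Definitions. `T` is the down-set which parametrises the Apery set, `M = F + m`.
-/

set_option autoImplicit false

namespace Pool.Agent.WLK

open Finset

/-- the weight of `x` -/
def sw {k : ℕ} (a x : Fin k → ℕ) : ℕ := ∑ i, a i * x i

/-- `T` is a down-set with `m` elements, whose weights are at most `M` and different modulo `m`, which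
contains `0` and the unit vectors; the weights of the unit vectors are larger than `m` -/
structure Ty {k : ℕ} (m M : ℕ) (a : Fin k → ℕ) (T : Finset (Fin k → ℕ)) : Prop where
  gt : ∀ i, m < a i
  one : ∀ i, Pi.single i 1 ∈ T
  zero : (0 : Fin k → ℕ) ∈ T
  down : ∀ x ∈ T, ∀ y : Fin k → ℕ, y ≤ x → y ∈ T
  le : ∀ x ∈ T, sw a x ≤ M
  inj : ∀ x ∈ T, ∀ y ∈ T, sw a x % m = sw a y % m → x = y
  card : T.card = m

/-- the directions in which `x` can be increased -/
def up {k : ℕ} (T : Finset (Fin k → ℕ)) (x : Fin k → ℕ) : Finset (Fin k) :=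
  univ.filter fun i => x + Pi.single i 1 ∈ T

/-- the number of the directions in which `x` can be increased -/
def nu {k : ℕ} (T : Finset (Fin k → ℕ)) (x : Fin k → ℕ) : ℕ := (up T x).card

/-- the elements of `T` which are not maximal -/
def JJ {k : ℕ} (T : Finset (Fin k → ℕ)) : Finset (Fin k → ℕ) := T.filter fun x => 0 < nu T x

/-- the support of `x` -/
def su {k : ℕ} (x : Fin k → ℕ) : Finset (Fin k) := univ.filter fun i => x i ≠ 0

/-- the size of the support of `x` -/
def sp {k : ℕ} (x : Fin k → ℕ) : ℕ := (su x).card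

/-- the quotient of the distance `M - sw a x` by `m` -/
def ff {k : ℕ} (m M : ℕ) (a x : Fin k → ℕ) : ℕ := (M - sw a x) / m

/-- the rest of the distance `M - sw a x` modulo `m` -/
def rr {k : ℕ} (m M : ℕ) (a x : Fin k → ℕ) : ℕ := (M - sw a x) % m

/-- the squarefree elements of degree `l` -/
def Tl {k : ℕ} (T : Finset (Fin k → ℕ)) (l : ℕ) : Finset (Fin k → ℕ) :=
  T.filter fun x => (∀ i, x i ≤ 1) ∧ ∑ i, x i = l

/-- the squarefree elements of degree `l` which are not maximal -/
def Jl {k : ℕ} (T : Finset (Fin k → ℕ)) (l : ℕ) : Finset (Fin k → ℕ) :=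
  (JJ T).filter fun x => (∀ i, x i ≤ 1) ∧ ∑ i, x i = l

/-- the elements which are not squarefree -/
def Ns {k : ℕ} (T : Finset (Fin k → ℕ)) : Finset (Fin k → ℕ) := T.filter fun x => ¬ ∀ i, x i ≤ 1

/-- the squarefree elements of degree less than `p` -/
def Lw {k : ℕ} (T : Finset (Fin k → ℕ)) (p : ℕ) : Finset (Fin k → ℕ) :=
  T.filter fun x => (∀ i, x i ≤ 1) ∧ ∑ i, x i < p

/-- the squarefree elements of degree at most `p` -/
def Lq {k : ℕ} (T : Finset (Fin k → ℕ)) (p : ℕ) : Finset (Fin k → ℕ) :=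
  T.filter fun x => (∀ i, x i ≤ 1) ∧ ∑ i, x i ≤ p

/-- the squarefree elements of degree more than `p` -/
def Hg {k : ℕ} (T : Finset (Fin k → ℕ)) (p : ℕ) : Finset (Fin k → ℕ) :=
  T.filter fun x => (∀ i, x i ≤ 1) ∧ p < ∑ i, x i

/-- Wilf's number: the embedding dimension times the number of the small elements, minus the
conductor -/
noncomputable def wil (k m M : ℕ) (a : Fin k → ℕ) (T : Finset (Fin k → ℕ)) : ℝ :=
  ((k : ℝ) + 1) * ∑ x ∈ T, (ff m M a x : ℝ) - ((M : ℝ) + 1 - m)

end Pool.Agent.WLK
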