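import Pool.Agent.WLK.St

/-!
# WLK, module RBD (MP_05ec03_nt)
-/

set_option autoImplicit false

namespace Pool.Agent.WLK

open Finset

theorem thm_Rbd (hIdn : St_Idn) (hDbl : St_Dbl) (hRes : St_Res) (hAvg : St_Avg) (hPnt : St_Pnt) :
    St_Rbd := by
  classical
  intro k m M a T hT p hp
  obtain ⟨R1, R2, R3, R4, -, -, R7⟩ := hRes k m M a T hT
  have hm : 1 ≤ m := by omega
  have hm0 : (0 : ℝ) < m := by exact_mod_cast hm
  have hI := hIdn k m M a T hT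
  have hDn : Dn T := hT.down
  have hcard : (T.card : ℝ) = m := by rw [hT.card]
  have R1' : ∀ x ∈ T, (M : ℝ) - sw a x = m * ff m M a x + rr m M a x := fun x hx => by
    have h2 : ((sw a x + m * ff m M a x + rr m M a x : ℕ) : ℝ) = M := by rw [R1 x hx]
    push_cast at h2
    linarith
  have R2' : ∀ x, (rr m M a x : ℝ) ≤ m := fun x => by exact_mod_cast (R2 x).le
  have hp0 : (0 : ℝ) ≤ p := by positivity
  -- the last sums
  have hA : ∀ y ∈ T, (p : ℝ) * rr m M a y -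
      (if ¬ ((∀ i, y i ≤ 1) ∧ ∑ i, y i = p ∧ nu T y = 0) then (p : ℝ) * m else 0) ≤
      ∑ i ∈ (up T y)ᶜ, (y i : ℝ) * ((M : ℝ) - sw a y) := by
    intro y hy
    rw [R1' y hy]
    have h0 : (0 : ℝ) ≤ m * ff m M a y := by positivity
    by_cases h : (∀ i, y i ≤ 1) ∧ ∑ i, y i = p ∧ nu T y = 0
    · rw [if_neg (not_not.2 h)]
      obtain ⟨h1, h2, h3⟩ := h
      have hup : up T y = ∅ := Finset.card_eq_zero.1 h3
      rw [hup, Finset.compl_empty, ← Finset.sum_mul, ← Nat.cast_sum, h2]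
      nlinarith [mul_nonneg hp0 h0]
    · rw [if_pos h]
      have h4 : (0 : ℝ) ≤ ∑ i ∈ (up T y)ᶜ, (y i : ℝ) * (m * ff m M a y + rr m M a y) :=
        Finset.sum_nonneg fun i _ => by positivity
      have h5 := mul_le_mul_of_nonneg_left (R2' y) hp0
      linarith
  -- the double sum
  have hB1 : ∑ x ∈ T, (nu T x : ℝ) * rr m M a x =
      ∑ y ∈ T, ∑ i ∈ su y, (rr m M a (y - Pi.single i 1) : ℝ) := by
    rw [← hDbl k T (fun _ x => (rr m M a x : ℝ)) hDn]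
    refine Finset.sum_congr rfl fun x _ => ?_
    rw [Finset.sum_const, nsmul_eq_mul]
    rfl
  have hpc : ((p - 1 : ℕ) : ℝ) = (p : ℝ) - 1 := by
    rw [Nat.cast_sub (by omega), Nat.cast_one]
  have hB2 : ∀ y ∈ T, ∑ i ∈ su y, (rr m M a (y - Pi.single i 1) : ℝ) ≤
      ((p : ℝ) - 1) * m + (((M + (p - 1) * rr m M a y) % m : ℕ) : ℝ) +
      (if ¬ ((∀ i, y i ≤ 1) ∧ ∑ i, y i = p ∧ nu T y = 0) then (m : ℝ) * sp y else 0) := by
    intro y hy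
    by_cases h : (∀ i, y i ≤ 1) ∧ ∑ i, y i = p ∧ nu T y = 0
    · rw [if_neg (not_not.2 h)]
      have h1 := hPnt k m M a T hT y hy p (by omega) h.1 h.2.1
      have h2 : ((∑ i ∈ su y, rr m M a (y - Pi.single i 1) : ℕ) : ℝ) ≤
          (((p - 1) * m + (M + (p - 1) * rr m M a y) % m : ℕ) : ℝ) := by exact_mod_cast h1
      rw [Nat.cast_sum, Nat.cast_add, Nat.cast_mul, hpc] at h2
      linarith
    · rw [if_pos h]
      have h1 : ∑ i ∈ su y, (rr m M a (y - Pi.single i 1) : ℝ) ≤ (su y).card • (m : ℝ) :=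
        Finset.sum_le_card_nsmul _ _ _ fun i _ => R2' _
      rw [nsmul_eq_mul] at h1
      have h2 : ((su y).card : ℝ) = sp y := rfl
      rw [h2] at h1
      have h3 : (0 : ℝ) ≤ ((p : ℝ) - 1) * m := by
        rw [← hpc]
        positivity
      have h4 : (0 : ℝ) ≤ (((M + (p - 1) * rr m M a y) % m : ℕ) : ℝ) := by positivity
      linarith
  have hB3 : ∑ y ∈ T, (((M + (p - 1) * rr m M a y) % m : ℕ) : ℝ) ≤ m * ((m : ℝ) + (p - 1)) / 2 := by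
    rw [R3 fun r => (((M + (p - 1) * r) % m : ℕ) : ℝ)]
    have h1 := hAvg m (p - 1) M hm (by omega)
    have h2 : ((2 * ∑ r ∈ range m, ((M + (p - 1) * r) % m) : ℕ) : ℝ) ≤
        ((m * (m + (p - 1)) : ℕ) : ℝ) := by exact_mod_cast h1
    rw [Nat.cast_mul, Nat.cast_sum, Nat.cast_mul, Nat.cast_add, hpc, Nat.cast_two] at h2
    linarith
  have hQ1 : ∑ y ∈ T, (if ¬ ((∀ i, y i ≤ 1) ∧ ∑ i, y i = p ∧ nu T y = 0) then (m : ℝ) * sp y else 0) =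
      m * ∑ y ∈ Qs T p, (sp y : ℝ) := by
    rw [← Finset.sum_filter, Finset.mul_sum]
    rfl
  have hQ2 : ∑ y ∈ T, (if ¬ ((∀ i, y i ≤ 1) ∧ ∑ i, y i = p ∧ nu T y = 0) then (p : ℝ) * m else 0) =
      m * ∑ y ∈ Qs T p, (p : ℝ) := by
    rw [← Finset.sum_filter, Finset.mul_sum]
    refine Finset.sum_congr rfl fun y _ => mul_comm _ _
  have hB : ∑ x ∈ T, (nu T x : ℝ) * rr m M a x ≤ ((p : ℝ) - 1) * m * m +
      m * ((m : ℝ) + (p - 1)) / 2 + m * ∑ y ∈ Qs T p, (sp y : ℝ) := by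
    rw [hB1]
    refine (Finset.sum_le_sum hB2).trans ?_
    rw [Finset.sum_add_distrib, Finset.sum_add_distrib, hQ1, Finset.sum_const, nsmul_eq_mul, hcard]
    have h5 : (m : ℝ) * (((p : ℝ) - 1) * m) = ((p : ℝ) - 1) * m * m := by ring
    linarith
  have hC : p * ∑ y ∈ T, (rr m M a y : ℝ) - m * ∑ y ∈ Qs T p, (p : ℝ) ≤
      ∑ y ∈ T, ∑ i ∈ (up T y)ᶜ, (y i : ℝ) * ((M : ℝ) - sw a y) := by
    refine le_trans (le_of_eq ?_) (Finset.sum_le_sum hA)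
    rw [Finset.sum_sub_distrib, hQ2, Finset.mul_sum]
  have hS : ∑ x ∈ T, (((k : ℝ) - nu T x) * (m * ff m M a x) -
      ((nu T x : ℝ) - 1) * rr m M a x + ∑ i ∈ (up T x)ᶜ, (x i : ℝ) * ((M : ℝ) - sw a x)) =
      m * ∑ x ∈ T, ((k : ℝ) - nu T x) * ff m M a x - ∑ x ∈ T, (nu T x : ℝ) * rr m M a x +
      ∑ x ∈ T, (rr m M a x : ℝ) +
      ∑ y ∈ T, ∑ i ∈ (up T y)ᶜ, (y i : ℝ) * ((M : ℝ) - sw a y) := by
    rw [Finset.mul_sum, ← Finset.sum_sub_distrib, ← Finset.sum_add_distrib, ← Finset.sum_add_distrib]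
    refine Finset.sum_congr rfl fun x _ => ?_
    ring
  rw [hS] at hI
  have hR : ∑ x ∈ T, (rr m M a x : ℝ) = m * ((m : ℝ) - 1) / 2 := by linarith
  rw [hR] at hI hC
  have hQ3 : ∑ y ∈ Qs T p, ((sp y : ℝ) + p) = ∑ y ∈ Qs T p, (sp y : ℝ) + ∑ y ∈ Qs T p, (p : ℝ) :=
    Finset.sum_add_distrib
  rw [hQ3]
  refine le_of_mul_le_mul_left ?_ hm0
  rw [hI]
  have hfin : (m : ℝ) * (∑ x ∈ T, ((k : ℝ) - nu T x) * ff m M a x - ((p : ℝ) / 2 - 1) * m - p -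
      (∑ y ∈ Qs T p, (sp y : ℝ) + ∑ y ∈ Qs T p, (p : ℝ))) =
      m * ∑ x ∈ T, ((k : ℝ) - nu T x) * ff m M a x -
      (((p : ℝ) - 1) * m * m + m * ((m : ℝ) + (p - 1)) / 2 + m * ∑ y ∈ Qs T p, (sp y : ℝ)) +
      m * ((m : ℝ) - 1) / 2 + (p * (m * ((m : ℝ) - 1) / 2) - m * ∑ y ∈ Qs T p, (p : ℝ)) := by
    ring
  rw [hfin]
  linarith

end Pool.Agent.WLK
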