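import Pool.Agent.WLK.Defs
import Pool.Agent.Helper82.Wilf.Two

/-!
# Wilf's inequality for numerical semigroups whose embedding dimension is at least a power of the
multiplicity (MP_05ec03_nt)

Frozen statements of the modules. Every module `Pool/Agent/WLK/<X>.lean` imports this file and proves
`theorem thm_<X> : St_<X>`, with the hypotheses named in the docstring (e.g. `(hDbl : St_Dbl)`). The
docstrings contain the proofs. Here `D x = M - sw a x`, `e_i = Pi.single i 1`, `D x = m ff x + rr x`,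
`ν = nu T`, `L = Nat.log 2 m`. `T` parametrises the Apery set (as in `WLF`); `M = F + m = c + m - 1`.

Idea: Wilf's number times `m` is `∑ (k - ν) m ff - (ν - 1) rr + (a sum of terms ≥ 0)` (`Idn`). If it is
`≤ 0`, then only `O(m p / k)` elements of `T` are not maximal, so almost all elements are squarefree
of degree `p`, where `k ^ p` is about `p! m`; the Kruskal-Katona theorem bounds the number of the
elements which are not maximal from below.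
-/

set_option autoImplicit false

namespace Pool.Agent.WLK

open Finset Pool.Agent.Helper60.Wilf Pool.Agent.Helper82.Wilf

/-- down-set -/
def Dn {k : ℕ} (T : Finset (Fin k → ℕ)) : Prop := ∀ x ∈ T, ∀ y : Fin k → ℕ, y ≤ x → y ∈ T

/-! ### The identity -/

/-- **DBL.**  PROOF.  `(i, x) ↦ (i, x + e_i)` is a bijection from the pairs with `x ∈ T`, `i ∈ up T x` to the
pairs with `y ∈ T`, `y i ≠ 0` (inverse `y ↦ y - e_i`, in `T` by `Dn T`). -/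
def St_Dbl : Prop := ∀ (k : ℕ) (T : Finset (Fin k → ℕ)) (g : Fin k → (Fin k → ℕ) → ℝ), Dn T →
  ∑ x ∈ T, ∑ i ∈ up T x, g i x = ∑ y ∈ T, ∑ i ∈ su y, g i (y - Pi.single i 1)

/-- **LIN** (from `St_Dbl`).  PROOF.  The left side is `∑ x, ∑ i, (x i + 1) D x` over all `i`, minus the sum over
`i ∈ up T x`; by `St_Dbl` the latter is `∑ y, ∑ i ∈ su y, y i D (y - e_i) = ∑ y, ∑ i, y i (D y + a i)`
(over all `i`, as `y i = 0` for `i ∉ su y`; `sw a (y - e_i) = sw a y - a i`).  The difference is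
`∑ x, ∑ i, (D x - a i x i) = ∑ x, (k D x - sw a x)`. -/
def St_Lin : Prop := ∀ (k : ℕ) (M : ℝ) (a : Fin k → ℕ) (T : Finset (Fin k → ℕ)), Dn T →
  ∑ x ∈ T, ∑ i ∈ (up T x)ᶜ, ((x i : ℝ) + 1) * (M - sw a x) =
    k * ∑ x ∈ T, (M - (sw a x : ℝ)) - ∑ x ∈ T, (sw a x : ℝ)

/-- **RES.**  PROOF.  `0 < m` as `0 ∈ T`.  `rr` is injective on `T` (`Ty.inj`) with values in `range m`, and
`T.card = m`, so it is a bijection to `range m` (this gives (3), (4)).  (5): if `x + e_i ∈ T`, then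
`sw a x + a i ≤ M`, so `D x ≥ a i > m`.  (7): `0` and the `e_i` are `k + 1` elements of `T`. -/
def St_Res : Prop := ∀ (k m M : ℕ) (a : Fin k → ℕ) (T : Finset (Fin k → ℕ)), Ty m M a T →
  (∀ x ∈ T, sw a x + m * ff m M a x + rr m M a x = M) ∧
  (∀ x, rr m M a x < m) ∧
  (∀ g : ℕ → ℝ, ∑ x ∈ T, g (rr m M a x) = ∑ r ∈ range m, g r) ∧
  2 * ∑ x ∈ T, (rr m M a x : ℝ) = m * ((m : ℝ) - 1) ∧
  (∀ x ∈ T, 0 < nu T x → 1 ≤ ff m M a x) ∧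
  (∀ (i : Fin k) (x : Fin k → ℕ), sw a (x + Pi.single i 1) = sw a x + a i) ∧
  k + 1 ≤ m

/-- **IDN** (from `St_Lin`, `St_Res`).  PROOF.  By `St_Lin`
`∑ x, ∑ i ∉ up, x i D x = k ∑ D - ∑ sw - ∑ (k - ν) D` (the complement of `up T x` has `k - ν` elements).  With
`D = m ff + rr` and `sw = M - D` the right side is `∑ ((k + 1) D - M - (k - 1) rr)`, that is
`(k + 1) m ∑ ff + 2 ∑ rr - m M = m ((k + 1) ∑ ff - (M + 1 - m))`. -/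
def St_Idn : Prop := ∀ (k m M : ℕ) (a : Fin k → ℕ) (T : Finset (Fin k → ℕ)), Ty m M a T →
  m * wil k m M a T = ∑ x ∈ T, (((k : ℝ) - nu T x) * (m * ff m M a x) -
    ((nu T x : ℝ) - 1) * rr m M a x + ∑ i ∈ (up T x)ᶜ, (x i : ℝ) * ((M : ℝ) - sw a x))

/-- **CRU** (from `St_Idn`, `St_Dbl`, `St_Res`).  PROOF.  In `St_Idn` the last sums are `≥ 0`.  For `x ∈ JJ T`: `ff ≥ 1`,
`ν ≤ k`, `1 ≤ ν`, `rr ≤ m`, so the term is `≥ (k - ν) m - (ν - 1) m ≥ m (k - 2 ν)`; for the other `x ∈ T` (`ν = 0`) it is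
`≥ 0`.  `∑ x ∈ JJ T, ν x = ∑ x ∈ T, ν x = ∑ y ∈ T, sp y` by `St_Dbl` (`g = 1`). -/
def St_Cru : Prop := ∀ (k m M : ℕ) (a : Fin k → ℕ) (T : Finset (Fin k → ℕ)), Ty m M a T →
  k * ((JJ T).card : ℝ) - 2 * ∑ y ∈ T, (sp y : ℝ) ≤ wil k m M a T

/-- **AVG.**  PROOF.  `f r = (M + q r) % m`.  If `q ≥ m`, use `f ≤ m - 1`.  Let `q < m`,
`s = 2 M % m`, `c = (m - s + q - 1) / q`, so `m - s ≤ q c ≤ m - s + q - 1`.  Let `r' = (c + m - r % m) % m` (an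
involution of `range m`; or sum over `ZMod m`).  Modulo `m`, `f r + f r' ≡ 2 M + q c ≡ s + q c - m`, which is in `[0, q - 1]`;
as `f r + f r' < 2 m`, it is at most `m + q - 1`.  Sum over `r`. -/
def St_Avg : Prop := ∀ m q M : ℕ, 1 ≤ m → 1 ≤ q →
  2 * ∑ r ∈ range m, ((M + q * r) % m) ≤ m * (m + q)

/-- **PNT** (from `St_Res`).  PROOF.  `su y` has `p` elements, `D (y - e_i) = D y + a i` for `i ∈ su y`,
`∑ i ∈ su y, a i = sw a y = M - D y`, so `∑ i ∈ su y, D (y - e_i) = (p - 1) D y + M`.  Modulo `m` the left side of the claim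
is `V = (M + (p - 1) rr y) % m`; it is `< p m` (each `rr < m`), so it is `V + j m` with `j ≤ p - 1`. -/
def St_Pnt : Prop := ∀ (k m M : ℕ) (a : Fin k → ℕ) (T : Finset (Fin k → ℕ)), Ty m M a T →
  ∀ y ∈ T, ∀ p : ℕ, 1 ≤ p → (∀ i, y i ≤ 1) → ∑ i, y i = p →
  ∑ i ∈ su y, rr m M a (y - Pi.single i 1) ≤ (p - 1) * m + (M + (p - 1) * rr m M a y) % m

/-- the elements of `T` which are not maximal squarefree elements of degree `p` -/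
def Qs {k : ℕ} (T : Finset (Fin k → ℕ)) (p : ℕ) : Finset (Fin k → ℕ) :=
  T.filter fun y => ¬ ((∀ i, y i ≤ 1) ∧ ∑ i, y i = p ∧ nu T y = 0)

/-- **RBD** (from `St_Idn`, `St_Dbl`, `St_Res`, `St_Avg`, `St_Pnt`).  PROOF.  Let `G = T \ Qs T p`.  For `y ∈ G` all `i` are
outside `up T y`, so the last sum in `St_Idn` is `p D y ≥ p rr y`; for the other `y` it is `≥ 0`.  So
`m wil ≥ ∑_T (k - ν) m ff - ∑_T ν rr + ∑_T rr + p ∑_G rr`.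
(1) `∑_T ν rr = ∑ y ∈ T, ∑ i ∈ su y, rr (y - e_i)` (`St_Dbl`); for `y ∈ G` the inner sum is
`≤ (p - 1) m + (M + (p - 1) rr y) % m` (`St_Pnt`), for `y ∈ Qs T p` it is `≤ m sp y`; and
`∑_G (M + (p - 1) rr y) % m ≤ ∑_T .. = ∑ r < m, (M + (p - 1) r) % m ≤ m (m + p - 1) / 2` (`St_Res` (3), `St_Avg`).  So
`∑_T ν rr ≤ (p - 1) m m + m (m + p - 1) / 2 + m ∑_Q sp`.
(2) `∑_T rr + p ∑_G rr ≥ (1 + p) ∑_T rr - p m (Qs T p).card = (1 + p) m (m - 1) / 2 - p m (Qs T p).card`.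
Divide by `m > 0`: `wil ≥ ∑_T (k - ν) ff - (p - 1) m - (m + p - 1) / 2 + (1 + p) (m - 1) / 2 - ∑_Q (sp + p)`, and
`- (p - 1) m - (m + p - 1) / 2 + (1 + p) (m - 1) / 2 = - (p / 2 - 1) m - p`. -/
def St_Rbd : Prop := ∀ (k m M : ℕ) (a : Fin k → ℕ) (T : Finset (Fin k → ℕ)), Ty m M a T →
  ∀ p : ℕ, 2 ≤ p →
  ∑ x ∈ T, ((k : ℝ) - nu T x) * ff m M a x - ((p : ℝ) / 2 - 1) * m - p -
    ∑ y ∈ Qs T p, ((sp y : ℝ) + p) ≤ wil k m M a T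

/-! ### Down-sets -/

/-- **SUP.**  PROOF.  The `y` with `y i ∈ {0, 1}` for `i ∈ su x` and `y i = 0` otherwise are `≤ x`, so they are
in `T`; there are `2 ^ sp x` (image of `(su x).powerset`). -/
def St_Sup : Prop := ∀ (k : ℕ) (T : Finset (Fin k → ℕ)), Dn T → ∀ x ∈ T,
  2 ^ sp x ≤ T.card ∧ sp x ≤ Nat.log 2 T.card

/-- **NSF.**  PROOF.  For `y ∈ Ns T` choose `i` with `y i ≥ 2`; then `x = y - e_i ∈ JJ T` and `i ∈ su x`.  The map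
`y ↦ (x, i)` is injective (`y = x + e_i`) to the pairs with `x ∈ JJ T`, `i ∈ su x`. -/
def St_Nsf : Prop := ∀ (k : ℕ) (T : Finset (Fin k → ℕ)), Dn T →
  (Ns T).card ≤ ∑ x ∈ JJ T, sp x

/-- **LOW.**  PROOF.  `Lw T p` injects into the subsets of `Fin k` with at most `p - 1` elements (supports).
(1): they are the images of the maps `Fin (p - 1) → Option (Fin k)` (the non-`none` values).
(2): there are `(k.choose (p - 1))` subsets with exactly `p - 1` elements,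
`(p - 1)! * k.choose (p - 1) = k.descFactorial (p - 1) ≤ k ^ (p - 1)`, and at most `(k + 1) ^ (p - 2)` with at most
`p - 2` elements. -/
def St_Low : Prop := ∀ (k : ℕ) (T : Finset (Fin k → ℕ)) (p : ℕ), 1 ≤ p →
  (Lw T p).card ≤ (k + 1) ^ (p - 1) ∧
  (2 ≤ p → Nat.factorial (p - 1) * (Lw T p).card ≤
    k ^ (p - 1) + Nat.factorial (p - 1) * (k + 1) ^ (p - 2))

/-- **SHD.**  PROOF.  The supports of the elements of `Tl T l` are a family `A` of `l`-element subsets of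
`Fin k` with `A.card = (Tl T l).card`, and the sets of its shadow `∂ A` are supports of elements of
`Jl T (l - 1)` (`Dn T`), so `(∂ A).card ≤ (Jl T (l - 1)).card`.  If `A = ∅`, take `x = 0`.  Otherwise `l ≤ k`; let
`x = Nat.findGreatest (fun x => x.choose l ≤ A.card) k`.  `x ≥ l` as `l.choose l = 1 ≤ A.card`.  So
`x.choose (l - 1) ≤ (∂ A).card` (`Finset.kruskal_katona_lovasz_form` with `i = 1`), and `A.card ≤ (x + 1).choose l`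
(if `x = k`: `A.card ≤ k.choose l`).  `l * (x + 1).choose l = (x + 1) * x.choose (l - 1)`
(`Nat.succ_mul_choose_eq`). -/
def St_Shd : Prop := ∀ (k : ℕ) (T : Finset (Fin k → ℕ)), Dn T → ∀ l : ℕ, 1 ≤ l →
  ∃ x : ℕ, x ≤ k ∧ x.choose l ≤ (Tl T l).card ∧
    l * (Tl T l).card ≤ (x + 1) * (Jl T (l - 1)).card

/-- **HIL** (from `St_Shd`, `St_Sup`).  PROOF.  For `y ∈ Hg T p`, `l = ∑ i, y i = sp y > p`, and `l ≤ Nat.log 2 T.card`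
(`St_Sup`).  So `∑ y ∈ Hg T p, sp y = ∑ l ∈ Ioc p (Nat.log 2 T.card), l * (Tl T l).card`.  For each of these `l`, `St_Shd` gives
`x` with `x.choose l ≤ T.card`, so `(x + 1) * K ≤ k` and `K * l * (Tl T l).card ≤ k * (Jl T (l - 1)).card`; the sets
`Jl T (l - 1)` are disjoint subsets of `JJ T`. -/
def St_HiL : Prop := ∀ (k : ℕ) (T : Finset (Fin k → ℕ)), Dn T → ∀ p K : ℕ,
  (∀ l x : ℕ, p < l → l ≤ Nat.log 2 T.card → x.choose l ≤ T.card → (x + 1) * K ≤ k) →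
  K * ∑ y ∈ Hg T p, sp y ≤ k * (JJ T).card

/-- **CND.**  PROOF.  `L = Nat.log 2 m`.  Suppose `k < (x + 1) K`.  The hypothesis gives `2 K (L + 1) < k` (as
`1 ≤ m`), so `x + 1 > 2 (L + 1) ≥ 2 l`, `2 (x + 1 - l) ≥ x + 1`, `k < 2 K (x + 1 - l)`, and
`k ^ l < (2 K) ^ l (x + 1 - l) ^ l ≤ (2 K) ^ l l! m ≤ (2 K L) ^ l m` (`Nat.pow_sub_le_descFactorial`,
`Nat.descFactorial_eq_factorial_mul_choose`, `Nat.factorial_le_pow`).  But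
`k ^ l = k ^ (p + 1) k ^ (l - p - 1) ≥ (2 K (L + 1)) ^ l m`. -/
def St_Cnd : Prop := ∀ k m p K : ℕ, 1 ≤ m → 1 ≤ K →
  (2 * K * (Nat.log 2 m + 1)) ^ (p + 1) * m < k ^ (p + 1) →
  ∀ l x : ℕ, p < l → l ≤ Nat.log 2 m → x.choose l ≤ m → (x + 1) * K ≤ k

/-! ### The main argument -/

/-- **ERR** (from `St_Cru`, `St_Sup`, `St_Nsf`, `St_HiL`, `St_Rbd`, `St_Dbl`, `St_Res`).  PROOF.  `J, N₁, Lo, B` = the numbers in the claim,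
`Λ = ∑ y ∈ T, sp y`.  `St_Cru`: `k J ≤ 2 Λ`.  `Λ ≤ L m` (`St_Sup`): (1).  (2): `St_Nsf`, `St_Sup`.
`T` is the disjoint union of `Ns T`, `Lw T p`, `Tl T p`, `Hg T p`; on the second and third `sp ≤ p`, so
`Λ ≤ p m + B + L N₁`: (3).  `K B ≤ k J ≤ 2 Λ` (`St_HiL`): (4).  (5): `St_Rbd` with `wil ≤ 0`; `Qs T p` is in the union of
`Ns T` (`sp + p ≤ L + p`), `Lw T p` (`sp + p ≤ 2 p`), `Hg T p` (`sp + p ≤ 2 sp`) and `Tl T p ∩ JJ T`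
(`sp + p = 2 p`).  (6): `k J ≤ ∑ x ∈ JJ T, ((k - ν) ff + ν) ≤ ∑ x ∈ T, (k - ν) ff + Λ` (`ff ≥ 1` on `JJ T`;
`∑ ν = Λ` by `St_Dbl`), then (5) and `Λ ≤ p m + B + L N₁`.  (7): `(Hg T p).card ≤ B`. -/
def St_Err : Prop := ∀ (k m M : ℕ) (a : Fin k → ℕ) (T : Finset (Fin k → ℕ)), Ty m M a T →
  wil k m M a T ≤ 0 → ∀ p K : ℕ, 2 ≤ p → 3 ≤ K →
  (∀ l x : ℕ, p < l → l ≤ Nat.log 2 m → x.choose l ≤ m → (x + 1) * K ≤ k) →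
  ∀ J N₁ Lo B L : ℝ, J = (JJ T).card → N₁ = (Ns T).card → Lo = (Lw T p).card →
  B = ∑ y ∈ Hg T p, (sp y : ℝ) → L = Nat.log 2 m →
  k * J ≤ 2 * (L * m) ∧ N₁ ≤ L * J ∧ k * J ≤ 2 * (p * m + B + L * N₁) ∧
  ((K : ℝ) - 2) * B ≤ 2 * (p * m + L * N₁) ∧
  ∑ x ∈ T, ((k : ℝ) - nu T x) * ff m M a x ≤
    ((p : ℝ) / 2 - 1) * m + p + 2 * B + (L + p) * N₁ + 2 * p * Lo + 2 * p * J ∧
  k * J ≤ (3 * (p : ℝ) / 2 - 1) * m + p + 3 * B + (2 * L + p) * N₁ + 2 * p * Lo + 2 * p * J ∧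
  (m : ℝ) ≤ Lo + (Tl T p).card + B + N₁

/-- **SML** (from `St_Err`, `St_Cnd`, `St_Res`).  PROOF.  Let `K` be an integer with `K ≥ 3` and
`(K - 2) δ ≥ 20 (p + 1)`, and let `N` be an integer with `N ≥ 2 K`, `N δ ≥ 100 (p + 2)`.  `St_Cnd` gives the hypothesis
of `St_Err` (`N ≥ 2 K`).  With `J, N₁, B, L` as there: `J ≤ 2 L m / k`, `N₁ ≤ L J`, and `k ≥ N (L + 1) ^ 3` give
`(L + p + 2) N₁ ≤ (p + 2) (L + 1) ^ 3 2 m / k ≤ 2 (p + 2) m / N ≤ δ m / 50`, `2 p J ≤ δ m / 10` etc.;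
`B ≤ 2 (p m + L N₁) / (K - 2) ≤ 2 (p + 1) m / (K - 2) ≤ δ m / 10`; `p ≤ δ m / 10` as `m ≥ k ≥ N`. -/
def St_Sml : Prop := ∀ (p : ℕ) (δ : ℝ), 2 ≤ p → 0 < δ → δ ≤ 1 → ∃ N : ℕ,
  ∀ (k m M : ℕ) (a : Fin k → ℕ) (T : Finset (Fin k → ℕ)), Ty m M a T → wil k m M a T ≤ 0 →
  N * (Nat.log 2 m + 1) ^ 3 ≤ k → (N * (Nat.log 2 m + 1)) ^ (p + 1) * m < k ^ (p + 1) →
  ((JJ T).card : ℝ) ≤ δ * m ∧ ((Ns T).card : ℝ) ≤ δ * m ∧
  k * ((JJ T).card : ℝ) ≤ (2 * p + δ) * m ∧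
  ∑ x ∈ T, ((k : ℝ) - nu T x) * ff m M a x ≤
    ((p : ℝ) / 2 - 1 + δ) * m + 2 * p * (Lw T p).card ∧
  k * ((JJ T).card : ℝ) ≤ (3 * (p : ℝ) / 2 - 1 + δ) * m + 2 * p * (Lw T p).card ∧
  (1 - δ) * m ≤ (Lw T p).card + (Tl T p).card

/-- **PRA** (from `St_Sml`, `St_Shd`, `St_Low`).  PROOF.  Let `δ` be small (below), `N` from `St_Sml` enlarged, and suppose
`wil ≤ 0`.  `k ≥ N`.  `Lo = (Lw T p).card ≤ (k + 1) ^ (p - 1) ≤ 2 ^ (p - 1) k ^ p / k ≤ 2 ^ (p - 1) C p! m / N`, so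
`2 p Lo ≤ δ m`.  `St_Sml` (6): `(Tl T p).card ≥ (1 - 2 δ) m`.  `St_Shd` with `l = p`: `p (1 - 2 δ) m ≤ (x + 1) J`,
`x.choose p ≤ m`, so `(x + 1 - p) ^ p ≤ p! m` and, as `((1 + ε) u) ^ p p! m ≤ k ^ p` with `u = 3 / 2 - 1 / p`,
`(x + 1 - p) (1 + ε) u ≤ k`, so `x + 1 ≤ k / ((1 + ε) u) + p ≤ k (1 + δ) / ((1 + ε) u)` (`k ≥ N` large).  `St_Sml` (5):
`k J ≤ (p u + 2 δ) m`.  So `p (1 - 2 δ) m k ≤ (x + 1) k J ≤ k (1 + δ) (p u + 2 δ) m / ((1 + ε) u)`,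
`p (1 - 2 δ) (1 + ε) u ≤ (1 + δ) (p u + 2 δ)`, false for small `δ` (e.g. `δ = ε / 20`; `p u ≥ 2`, `u ≤ 3 / 2`). -/
def St_PrA : Prop := ∀ (p : ℕ) (ε C : ℝ), 2 ≤ p → 0 < ε → ε ≤ 1 → ∃ N : ℕ,
  ∀ (k m M : ℕ) (a : Fin k → ℕ) (T : Finset (Fin k → ℕ)), Ty m M a T →
  N * (Nat.log 2 m + 1) ^ 3 ≤ k → (N * (Nat.log 2 m + 1)) ^ (p + 1) * m < k ^ (p + 1) →
  ((1 + ε) * (3 / 2 - 1 / (p : ℝ))) ^ p * ((Nat.factorial p : ℝ) * m) ≤ (k : ℝ) ^ p →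
  (k : ℝ) ^ p ≤ C * ((Nat.factorial p : ℝ) * m) → 0 < wil k m M a T

/-- **PRB** (from `St_Sml`, `St_Shd`, `St_Low`).  PROOF.  Let `R` be an integer with `R ε > 24`, `C = R ^ p`, `δ = ε / 8`, `N` from
`St_Sml` enlarged, and suppose `wil ≤ 0`.  `St_Low` (2): `Lo ≤ k ^ (p - 1) / (p - 1)! + (k + 1) ^ (p - 2)`, where
`k ^ (p - 1) / (p - 1)! ≤ (1 - ε) m` and `(k + 1) ^ (p - 2) ≤ 2 ^ (p - 2) k ^ (p - 1) / k ≤ 2 ^ (p - 2) (p - 1)! m / N ≤ δ m`.  So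
`(Tl T p).card ≥ (1 - δ) m - Lo ≥ (ε - 2 δ) m ≥ (ε / 2) m` (`St_Sml` (6)).  `St_Shd` with `l = p`:
`p (ε / 2) m ≤ (x + 1) J`, `(x + 1 - p) ^ p ≤ p! m < (k / R) ^ p`, so `x + 1 ≤ k / R + p ≤ 2 k / R` (`k ≥ N ≥ p R`).
`St_Sml` (3): `k J ≤ 3 p m`.  So `p (ε / 2) m ≤ (2 / R) k J ≤ 6 p m / R`, `ε R ≤ 12`, a contradiction. -/
def St_PrB : Prop := ∀ (p : ℕ) (ε : ℝ), 2 ≤ p → 0 < ε → ε ≤ 1 → ∃ (N : ℕ) (C : ℝ),
  ∀ (k m M : ℕ) (a : Fin k → ℕ) (T : Finset (Fin k → ℕ)), Ty m M a T →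
  N * (Nat.log 2 m + 1) ^ 3 ≤ k → (N * (Nat.log 2 m + 1)) ^ (p + 1) * m < k ^ (p + 1) →
  C * ((Nat.factorial p : ℝ) * m) < (k : ℝ) ^ p →
  (k : ℝ) ^ (p - 1) ≤ (1 - ε) * ((Nat.factorial (p - 1) : ℝ) * m) → 0 < wil k m M a T

/-- **PRO** (from `St_PrA`, `St_PrB`).  PROOF.  `C, N` from `St_PrB`, `N'` from `St_PrA` for this `C`; `max N N'`. -/
def St_Pro : Prop := ∀ (p : ℕ) (ε : ℝ), 2 ≤ p → 0 < ε → ε ≤ 1 → ∃ N : ℕ,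
  ∀ (k m M : ℕ) (a : Fin k → ℕ) (T : Finset (Fin k → ℕ)), Ty m M a T →
  N * (Nat.log 2 m + 1) ^ 3 ≤ k → (N * (Nat.log 2 m + 1)) ^ (p + 1) * m < k ^ (p + 1) →
  ((1 + ε) * (3 / 2 - 1 / (p : ℝ))) ^ p * ((Nat.factorial p : ℝ) * m) ≤ (k : ℝ) ^ p →
  (k : ℝ) ^ (p - 1) ≤ (1 - ε) * ((Nat.factorial (p - 1) : ℝ) * m) → 0 < wil k m M a T

/-! ### Embedding dimension about the square root of twice the multiplicity -/

/-- **TWR.**  PROOF.  `g = 1 / 4 - h`, `h = 1 / 1000`.  `x₀, x₃ > 0` by the first two hypotheses.  They say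
`x₀ + x₁ ≥ g m / x₀ + x₀ / 2`, `x₂ + x₃ ≥ g m / x₃ + x₃ / 2`.  With `s = x₀ x₃`, the product of the right sides is
`g² m² / s + (g m / 2) (x₃ / x₀ + x₀ / x₃) + s / 4 ≥ g² m² / s + g m + s / 4 = (g m + s / 2)² / s`.  So
`(1 / 2 + h) m s ≥ (g m + s / 2)²`, that is `s² / 4 - (1 / 4 + 2 h) m s + g² m² ≤ 0`; but for `0 ≤ s ≤ (1 / 4 + h) m` the left
side is decreasing in `s` and at the end it is `> m² / 100`. -/
def St_TwR : Prop := ∀ m x₀ x₁ x₂ x₃ : ℝ, 0 < m → 0 ≤ x₀ → 0 ≤ x₁ → 0 ≤ x₂ → 0 ≤ x₃ →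
  (1 / 4 - 1 / 1000) * m ≤ x₀ ^ 2 / 2 + x₀ * x₁ → (1 / 4 - 1 / 1000) * m ≤ x₃ ^ 2 / 2 + x₂ * x₃ →
  (x₀ + x₁) * (x₂ + x₃) ≤ (1 / 2 + 1 / 1000) * m → x₀ * x₃ ≤ (1 / 4 + 1 / 1000) * m → False

/-- the squarefree elements of degree `2` and small distance -/
def EG {k : ℕ} (m M : ℕ) (a : Fin k → ℕ) (T : Finset (Fin k → ℕ)) : Finset (Fin k → ℕ) :=
  (Tl T 2).filter fun y => ff m M a y = 0

/-- **TWA** (from `St_Res`, `St_Dbl`).  PROOF.  (2): a `y ∈ Tl T 2` with `ff y ≥ 1` is in `JJ T` or has `ν = 0` and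
`(k - ν) ff ≥ k ≥ 1`; so there are at most `h m + h m` of them.
(1): let `I` be the set of the `i` with `ν (e_i) = 0` and `ff (e_i) = 0`, `k₀` its size.  For `i ∉ I`,
`k - ν (e_i) ≤ (k - ν (e_i)) ff (e_i)` (`ff ≥ 1` if `ν > 0` by `St_Res`); so `∑ i ∉ I, (k - ν (e_i)) ≤ h m` and
`∑ i, ν (e_i) = #{(i, j) | e_i + e_j ∈ T} ≤ 2 (Tl T 2).card + (Ns T).card ≤ (2 + h) m`, so
`(k - k₀) k ≤ (2 + 2 h) m`.  If `e_i + e_j ∈ T`, then `i, j ∉ I`, so `(1 - h) m ≤ (Tl T 2).card ≤ (k - k₀)² / 2`.  So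
`k² (1 - h) ≤ (k (k - k₀))² / (2 m) ≤ 2 (1 + h)² m`, and `(1 + h)² ≤ (1 - h) (1 + 5 h)`. -/
def St_TwA : Prop := ∀ (k m M : ℕ) (a : Fin k → ℕ) (T : Finset (Fin k → ℕ)) (h : ℝ),
  Ty m M a T → 0 < h → h ≤ 1 / 100 → 1 ≤ k → (1 - h) * m ≤ (Tl T 2).card →
  ((Ns T).card : ℝ) ≤ h * m → ((JJ T).card : ℝ) ≤ h * m →
  ∑ x ∈ T, ((k : ℝ) - nu T x) * ff m M a x ≤ h * m →
  (k : ℝ) ^ 2 ≤ 2 * (1 + 5 * h) * m ∧ (1 - 3 * h) * m ≤ (EG m M a T).card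

/-- almost complete graph whose edges have different sums -/
structure Gr {k : ℕ} (m : ℕ) (b : Fin k → ℤ) (E : Finset (Fin k × Fin k)) : Prop where
  big : 10 ^ 14 ≤ m
  kk : (k : ℝ) ^ 2 ≤ 2 * (1 + 5 / 10 ^ 10) * m
  ee : (1 - 3 / 10 ^ 10) * (m : ℝ) ≤ E.card
  rg : ∀ e ∈ E, e.1 < e.2 ∧ 0 ≤ b e.1 + b e.2 ∧ b e.1 + b e.2 < 2 * m ∧ Even (b e.1 + b e.2)
  inj : ∀ e ∈ E, ∀ f ∈ E, b e.1 + b e.2 = b f.1 + b f.2 → e = f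

/-- **TWE** (from `St_Res`).  PROOF.  `b i = M - 2 a i`, `E` = the pairs `i < j` with `e_i + e_j ∈ EG m M a T`; every
`y ∈ Tl T 2` is `e_i + e_j` for exactly one pair `i < j`, so `E.card = (EG m M a T).card`.  For `(i, j) ∈ E`,
`b i + b j = 2 D (e_i + e_j)`, and `D = rr < m` (`ff = 0`), and `rr` determines the element of `T`
(`Ty.inj`). -/
def St_TwE : Prop := ∀ (k m M : ℕ) (a : Fin k → ℕ) (T : Finset (Fin k → ℕ)), Ty m M a T →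
  10 ^ 14 ≤ m → (k : ℝ) ^ 2 ≤ 2 * (1 + 5 / 10 ^ 10) * m →
  (1 - 3 / 10 ^ 10) * (m : ℝ) ≤ (EG m M a T).card →
  ∃ (b : Fin k → ℤ) (E : Finset (Fin k × Fin k)), Gr m b E

/-- **TBA.**  PROOF.  There are `k (k - 1) / 2 ≤ k ^ 2 / 2` pairs `i < j`, so at most `8 m / 10 ^ 10` of them are not in
`E`.  (1): the pairs `(i, j) ∈ X ×ˢ Y` correspond to the pairs `i < j` with one of them in `X` and
the other in `Y`.  (2): the pairs `i < j` in `X`. -/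
def St_TBa : Prop := ∀ (k m : ℕ) (b : Fin k → ℤ) (E : Finset (Fin k × Fin k)), Gr m b E →
  (∀ X Y : Finset (Fin k), Disjoint X Y → (X.card : ℝ) * Y.card ≤
    (E.filter fun e => (e.1 ∈ X ∧ e.2 ∈ Y) ∨ (e.1 ∈ Y ∧ e.2 ∈ X)).card + 8 / 10 ^ 10 * m) ∧
  (∀ X : Finset (Fin k), (X.card : ℝ) * ((X.card : ℝ) - 1) / 2 ≤
    (E.filter fun e => e.1 ∈ X ∧ e.2 ∈ X).card + 8 / 10 ^ 10 * m)

/-- **TBB.**  PROOF.  `e ↦ (b e.1 + b e.2) / 2` is injective on `E` with values in the integers of `[0, m)`.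
(1): there are at most `(v - u) / 2 + 1` integers in `[u / 2, v / 2)`.  (2): at most `3 m / 10 ^ 10` integers of
`[0, m)` are not values, and there are at least `(v - u) / 2 - 1` integers in `[u / 2, v / 2)`. -/
def St_TBb : Prop := ∀ (k m : ℕ) (b : Fin k → ℤ) (E : Finset (Fin k × Fin k)), Gr m b E →
  ∀ u v : ℤ, 0 ≤ u → u ≤ v → v ≤ 2 * m →
  ((E.filter fun e => u ≤ b e.1 + b e.2 ∧ b e.1 + b e.2 < v).card : ℝ) ≤ ((v : ℝ) - u) / 2 + 1 ∧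
  ((v : ℝ) - u) / 2 - 1 - 3 / 10 ^ 10 * m ≤
    ((E.filter fun e => u ≤ b e.1 + b e.2 ∧ b e.1 + b e.2 < v).card : ℝ)

/-- **TBC** (from `St_TBa`, `St_TBb`, `St_TwR`).  PROOF.  `h = 10 ^ (-10)`.  `Y₁ = {i | b i < 0}`, `Y₂ = {i | m ≤ b i}` contain no
edges, so `y (y - 1) / 2 ≤ 8 h m` for their sizes (`St_TBa` (2)), `y ≤ √m / 10 ^ 4`; `k ≤ 2 √m`; so at most
`4 m / 10 ^ 4` edges have an end in `Y₁ ∪ Y₂`.  For `c < 4` let `X_c = {i | c m ≤ 4 b i < (c + 1) m}`, `x_c` its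
size.  (i) Edges with `2 (b i + b j) < m`: at least `m / 4 - 2 - 3 h m` (`St_TBb`); if no end is in `Y₁ ∪ Y₂`, both ends
are in `X₀`, or one in `X₀` and one in `X₁`.  So `(1 / 4 - 1 / 1000) m ≤ x₀² / 2 + x₀ x₁`.
(ii) Edges with `3 m ≤ 2 (b i + b j)`: both ends in `X₃`, or one in `X₂` and one in `X₃` (or an end in
`Y₁ ∪ Y₂`).  (iii) Edges between `X₀ ∪ X₁` and `X₂ ∪ X₃` have `m ≤ 2 (b i + b j) < 3 m`: at most `m / 2 + 2`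
(`St_TBb`), so `(x₀ + x₁) (x₂ + x₃) ≤ m / 2 + 2 + 8 h m` (`St_TBa` (1)).  (iv) Edges between `X₀` and `X₃` have
`3 m ≤ 4 (b i + b j) < 5 m`: at most `m / 4 + 2`.  `St_TwR`. -/
def St_TBc : Prop := ∀ (k m : ℕ) (b : Fin k → ℤ) (E : Finset (Fin k × Fin k)), ¬ Gr m b E

/-- **TWO** (from `St_Sml`, `St_Low`, `St_TwA`, `St_TwE`, `St_TBc`, `St_Res`).  PROOF.  `h = 10 ^ (-10)`; `St_Sml` with `p = 2`, `δ = h / 2`,
`N ≥ 10 ^ 14`, suppose `wil ≤ 0`.  `Lo ≤ k + 1 ≤ 2 k ≤ 16 m / k ≤ 16 m / N` (`k ^ 2 ≤ 8 m`, `k ≥ N`; `St_Low` (1)), so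
`4 Lo ≤ δ m`; so the hypotheses of `St_TwA` hold (`p / 2 - 1 = 0`).  `m ≥ k ≥ N`.  `St_TwE`, `St_TBc`. -/
def St_Two : Prop := ∃ N : ℕ,
  ∀ (k m M : ℕ) (a : Fin k → ℕ) (T : Finset (Fin k → ℕ)), Ty m M a T →
  N * (Nat.log 2 m + 1) ^ 3 ≤ k → (N * (Nat.log 2 m + 1)) ^ 3 * m < k ^ 3 →
  k ^ 2 ≤ 8 * m → 0 < wil k m M a T

/-! ### Numerical semigroups -/

/-- **SEM.**  PROOF.  `Pool.Agent.WLF.thm_Ape` gives `a, T`.  `Ty.zero`: `Dn`, `0 ≤ e_i` (or `0` is in the image if `k = 0`: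
`T.card = m > 0` and `Fin 0 → ℕ` has one element).  `Ty.le`: the weights are in `insert 0 (A0 S c m)`, so `< c + m`
(`mem_ins`).  `Ty.inj`: `ins_inj` (different classes modulo `m`) and the injectivity in `thm_Ape`.
`card_left`: `(elF S 0 c).card = ∑ s ∈ insert 0 (A0 S c m), lam c m s`, `lam c m s = (c + m - 1 - s) / m`, so this is
`∑ x ∈ T, ff m (c + m - 1) a x`, and `wil = (k + 1) n - c`. -/
def St_Sem : Prop := ∀ (S : AddSubmonoid ℕ) (c m k : ℕ) (A : Finset ℕ), Sg S c m →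
  (∀ a, a ∈ A ↔ Prim S a) → A.card = k + 1 → 0 < c →
  ∃ (a : Fin k → ℕ) (T : Finset (Fin k → ℕ)), Ty m (c + m - 1) a T ∧
    (0 < wil k m (c + m - 1) a T → c < A.card * (elF S 0 c).card)

/-- **GRO.**  PROOF.  `Nat.log 2 m + 1 ≤ 2 + 2 Real.log m`, and powers of logarithms are `o` of powers. -/
def St_Gro : Prop := ∀ (ε : ℝ) (C E : ℕ), 0 < ε → ∃ m₀ : ℕ, ∀ m : ℕ, m₀ ≤ m →
  (C : ℝ) * ((Nat.log 2 m : ℝ) + 1) ^ E ≤ (m : ℝ) ^ ε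

/-- the windows: `d ^ p` is between `(1 - ε) p! m` and `(1 + ε) (3 / 2 - 1 / p) ^ p p! m` for an integer
`p ∈ [3, 3 / ε]` -/
def Win (ε : ℝ) (m d : ℕ) : Prop := ∃ p : ℕ, 3 ≤ p ∧ (p : ℝ) ≤ 3 / ε ∧
  (1 - ε) * ((Nat.factorial p : ℝ) * m) < (d : ℝ) ^ p ∧
  (d : ℝ) ^ p < (1 + ε) * ((3 / 2 - 1 / (p : ℝ)) ^ p * ((Nat.factorial p : ℝ) * m))

/-- **LIM** (from `St_Gro`).  PROOF.  Let `m` be large, `k = d - 1`, `Q = ⌈1 / ε⌉ + 1 ≤ 3 / ε`.  `d ^ Q ≥ m ^ (ε Q) ≥ m ^ (1 + ε) > Q! m`.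
Let `q ≥ 1` be the least integer with `(1 - ε) q! m < d ^ q`, so `q ≤ Q`.  `q = 1`: `d > m / 2`, so `d ^ 2 ≥ 8 m`.  `q = 2`:
`d ^ 2 > m`; if `d ^ 2 < 8 m` the second case holds (`N₂` growth: `k ≥ m ^ ε / 2`, `k ^ 3 ≥ k m / 4`).  `q ≥ 3`: the
third case with `p = q`: as `¬ Win`, `d ^ q ≥ (1 + ε) (3 / 2 - 1 / q) ^ q q! m`.  Let `η = ε / (4 Q)` (the number in the
claim).  `(1 + η) ^ q ≤ 1 + ε / 2` (`(1 + η) ^ q ≤ exp (ε / 4) ≤ 1 + ε / 2`), and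
`k ^ q = d ^ q (1 - 1 / d) ^ q ≥ d ^ q (1 - q / d) ≥ d ^ q (1 - ε / 4)`, `(1 + ε) (1 - ε / 4) ≥ 1 + ε / 2`; so the third condition
holds.  The last one: `k < d`, `d ^ (q - 1) ≤ (1 - ε) (q - 1)! m` by minimality, `η ≤ ε`.  Growth: `N = N₁ q ≤ max`
of finitely many; `k ≥ m ^ ε / 2`, and `k ^ (q + 1) ≥ k d ^ q / 2 ≥ k m / 4`. -/
def St_Lim : Prop := ∀ (ε : ℝ), 0 < ε → ε ≤ 1 / 2 → ∃ η : ℝ, 0 < η ∧ η ≤ 1 ∧
  ∀ (N₂ : ℕ) (N₁ : ℕ → ℕ), ∃ m₀ : ℕ, ∀ m d : ℕ, m₀ ≤ m → (m : ℝ) ^ ε ≤ d → ¬ Win ε m d →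
  8 * m ≤ d ^ 2 ∨
  (N₂ * (Nat.log 2 m + 1) ^ 3 ≤ d - 1 ∧ (N₂ * (Nat.log 2 m + 1)) ^ 3 * m < (d - 1) ^ 3 ∧
    (d - 1) ^ 2 ≤ 8 * m) ∨
  ∃ p : ℕ, 3 ≤ p ∧ N₁ p * (Nat.log 2 m + 1) ^ 3 ≤ d - 1 ∧
    (N₁ p * (Nat.log 2 m + 1)) ^ (p + 1) * m < (d - 1) ^ (p + 1) ∧
    ((1 + η) * (3 / 2 - 1 / (p : ℝ))) ^ p * ((Nat.factorial p : ℝ) * m) ≤
      ((d - 1 : ℕ) : ℝ) ^ p ∧
    ((d - 1 : ℕ) : ℝ) ^ (p - 1) ≤ (1 - η) * ((Nat.factorial (p - 1) : ℝ) * m)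

/-- **FIN** (from `St_Lim`, `St_Pro`, `St_Two`, `St_Sem`).  PROOF.  If `ε ≤ 1 / 2`: `St_Lim` with the `N` of `St_Two`, `St_Pro`; first case:
`Pool.Agent.WLG.thm_G8`.  If `ε > 1 / 2`: `8 m ≤ m ^ (2 ε) ≤ d ^ 2` for large `m`. -/
def St_Fin : Prop := ∀ (ε : ℝ), 0 < ε → ∃ m₀ : ℕ,
  ∀ (S : AddSubmonoid ℕ) (c m : ℕ) (A : Finset ℕ), Sg S c m → (∀ a, a ∈ A ↔ Prim S a) → 0 < c →
  A.card ≠ m → m₀ ≤ m → (m : ℝ) ^ ε ≤ A.card → ¬ Win ε m A.card →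
  c < A.card * (elF S 0 c).card

end Pool.Agent.WLK
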